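import Pool.Agent.P.MP_cb5d8b_an.Ex.Iface
import Pool.Agent.P.MP_cb5d8b_an.Plane
import Pool.Agent.P.MP_cb5d8b_an.Idx

/-! Betweenness in a set with unique arcs. -/

namespace Pool.Agent.P.MP_cb5d8b_an.Ex

open Set

/-- The hypotheses of the sharp plane theorem. -/
structure Ctx (D : Set ℂ) (a c : ℤ) : Prop where
  ha : 2 ≤ a
  ea : Even a
  ec : Even c
  cpt : IsCompact D
  arc : ∀ x ∈ D, ∀ y ∈ D, ∃ A ⊆ D, ArcSet A x y
  nl : NoLoop D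
  inj : ∀ x ∈ D, ∀ y ∈ D, Rel x y → x = y
  cone : ∀ z ∈ Cone, ∃ x ∈ D, Rel x z
  inv : ∀ x ∈ D, ∃ y ∈ D, Rel (Bm a c x) y

/-- `v` lies on the arc of `D` from `x` to `y`. -/
def Btw (D : Set ℂ) (x v y : ℂ) : Prop := ∃ A ⊆ D, ArcSet A x y ∧ v ∈ A

/-- No cone point lies strictly between `u` and `v`. -/
def Adj (D : Set ℂ) (u v : ℂ) : Prop := u ≠ v ∧ ∀ w ∈ Cone, Btw D u w v → w = u ∨ w = v

variable {D A : Set ℂ} {a c : ℤ} {x y z v w : ℂ}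

theorem Btw.symm (h : Btw D x v y) : Btw D y v x :=
  let ⟨A, h1, h2, h3⟩ := h
  ⟨A, h1, h2.symm, h3⟩

theorem Btw.mem (h : Btw D x v y) : v ∈ D :=
  let ⟨_, h1, _, h3⟩ := h
  h1 h3

theorem Adj.symm (h : Adj D x y) : Adj D y x :=
  ⟨h.1.symm, fun w hw hb => (h.2 w hw hb.symm).symm⟩

theorem Adj.not (h : Adj D x y) (hw : w ∈ Cone) (hb : Btw D x w y) (h1 : w ≠ x) (h2 : w ≠ y) :
    False :=
  (h.2 w hw hb).elim h1 h2

theorem Btw.right (h : Btw D x v y) : Btw D x v v := by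
  obtain ⟨A, h1, h2, h3⟩ := h
  obtain ⟨A₁, A₂, a1, -, e, -⟩ := h2.split h3
  exact ⟨A₁, (e ▸ subset_union_left : A₁ ⊆ A).trans h1, a1, a1.right⟩

namespace Ctx

theorem mem (H : Ctx D a c) (h : Btw D x v y) (hA : A ⊆ D) (h' : ArcSet A x y) : v ∈ A := by
  obtain ⟨B, h1, h2, h3⟩ := h
  exact H.nl.unique h2 h' h1 hA ▸ h3

theorem left (H : Ctx D a c) (hx : x ∈ D) (hy : y ∈ D) : Btw D x x y :=
  let ⟨A, h1, h2⟩ := H.arc x hx y hy
  ⟨A, h1, h2, h2.left⟩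

theorem tree (H : Ctx D a c) (h : Btw D x v y) (hz : z ∈ D) : Btw D x v z ∨ Btw D z v y := by
  obtain ⟨A, h1, h2, h3⟩ := h
  obtain ⟨A₁, s1, a1⟩ := H.arc x (h1 h2.left) z hz
  obtain ⟨A₂, s2, a2⟩ := H.arc z hz y (h1 h2.right)
  obtain ⟨B, s, b⟩ := a1.trans a2
  have := H.mem ⟨A, h1, h2, h3⟩ (s.trans (union_subset s1 s2)) b
  exact (s this).imp (fun h => ⟨A₁, s1, a1, h⟩) fun h => ⟨A₂, s2, a2, h⟩

theorem antisymm (H : Ctx D a c) (h : Btw D x v y) (h' : Btw D x y v) : v = y := by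
  obtain ⟨A, h1, h2, h3⟩ := h
  obtain ⟨A₁, A₂, a1, a2, e, i⟩ := h2.split h3
  exact (i ⟨H.mem h' ((e ▸ subset_union_left : A₁ ⊆ A).trans h1) a1, a2.right⟩).symm

theorem sub (H : Ctx D a c) (h : Btw D x v y) (h' : Btw D x w v) : Btw D x w y := by
  obtain ⟨A, h1, h2, h3⟩ := h
  obtain ⟨A₁, A₂, a1, -, e, -⟩ := h2.split h3
  have s : A₁ ⊆ A := e ▸ subset_union_left
  exact ⟨A, h1, h2, s (H.mem h' (s.trans h1) a1)⟩

theorem total (H : Ctx D a c) (h : Btw D x v y) (h' : Btw D x w y) :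
    Btw D x w v ∨ Btw D v w y :=
  H.tree h' h.mem

theorem next (H : Ctx D a c) (h : Btw D x v y) (h' : Btw D v w y) : Btw D x v w := by
  rcases H.tree h h'.mem with h1 | h1
  · exact h1
  · obtain rfl : v = w := H.antisymm h1.symm h'.symm
    exact h.right

theorem median (H : Ctx D a c) (hx : x ∈ D) (hy : y ∈ D) (hz : z ∈ D) :
    ∃ v, Btw D x v y ∧ ∀ w, Btw D x w y → Btw D z v w := by
  obtain ⟨A, s, h⟩ := H.arc x hx y hy
  obtain ⟨B, s', h'⟩ := H.arc z hz x hx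
  obtain ⟨E, v, hv, sE, hE, i⟩ := h'.first h.compact.isClosed h.left
  refine ⟨v, ⟨A, s, h, hv⟩, fun w hw => ?_⟩
  obtain ⟨A', sA, hA'⟩ := h.between hv (H.mem hw s h)
  exact ⟨E ∪ A', union_subset (sE.trans s') (sA.trans s),
    hE.concat hA' ((inter_subset_inter_right _ sA).trans i), Or.inl hE.right⟩

theorem preconn (H : Ctx D a c) : IsPreconnected D :=
  isPreconnected_of_forall_pair fun x hx y hy =>
    let ⟨A, h1, h2⟩ := H.arc x hx y hy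
    ⟨A, h1, h2.left, h2.right, h2.preconn⟩

end Ctx

theorem ArcSet_joined (h : ArcSet A x y) : JoinedIn A x y := by
  obtain ⟨c, s, t, hst, hc, -, rfl, rfl, rfl⟩ := h
  exact (((convex_Icc s t).isPathConnected ⟨s, left_mem_Icc.2 hst⟩).image hc).joinedIn _
    ⟨s, left_mem_Icc.2 hst, rfl⟩ _ ⟨t, right_mem_Icc.2 hst, rfl⟩

end Pool.Agent.P.MP_cb5d8b_an.Ex
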