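import Pool.Agent.P.MP_cb5d8b_an.Ex.CaseB

/-! The arc between two opposite cone points contains no third one. -/

namespace Pool.Agent.P.MP_cb5d8b_an.Ex

open Set Plane

variable {D A : Set ℂ} {a c : ℤ} {K : ℕ} {t τ : ℕ → ℂ} {e : ℕ → ℤ}

/-- a compact set invariant under an expanding affine map is its fixed point -/
theorem expand (ha : 2 ≤ a) {E : Set ℂ} (hE : IsCompact E) {p : ℂ} (hp : p ∈ E) {ε : ℤ}
    (hε : ε = 1 ∨ ε = -1) {φ : ℂ → ℂ} (hφ : ∀ z, φ z - p = ε * Bm a c (z - p))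
    (hm : MapsTo φ E E) {z : ℂ} (hz : z ∈ E) : z = p := by
  have a2 : (2 : ℝ) ≤ a := by exact_mod_cast ha
  have e1 : |(ε : ℝ)| = 1 := by rcases hε with rfl | rfl <;> simp
  have him : ∀ z ∈ E, (z - p).im = 0 := by
    obtain ⟨w, hw, hmax⟩ := hE.exists_isMaxOn (f := fun z => |(z - p).im|) ⟨p, hp⟩ (by fun_prop)
    have h1 : |(φ w - p).im| ≤ |(w - p).im| := hmax (hm hw)
    have h2 : (φ w - p).im = ε * (a * (w - p).im) := by rw [hφ]; simp [Bm]
    rw [h2, abs_mul, abs_mul, e1, abs_of_pos (by linarith : (0 : ℝ) < a)] at h1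
    intro z hz
    have h3 : |(z - p).im| ≤ |(w - p).im| := hmax hz
    have := abs_nonneg (w - p).im
    exact abs_nonpos_iff.1 (by nlinarith)
  have hre : ∀ z ∈ E, (z - p).re = 0 := by
    obtain ⟨w, hw, hmax⟩ := hE.exists_isMaxOn (f := fun z => |(z - p).re|) ⟨p, hp⟩ (by fun_prop)
    have h1 : |(φ w - p).re| ≤ |(w - p).re| := hmax (hm hw)
    have h2 : (φ w - p).re = ε * (a * (w - p).re) := by
      rw [hφ]
      simp only [Bm, him w hw]
      simp
    rw [h2, abs_mul, abs_mul, e1, abs_of_pos (by linarith : (0 : ℝ) < a)] at h1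
    intro z hz
    have h3 : |(z - p).re| ≤ |(w - p).re| := hmax hz
    have := abs_nonneg (w - p).re
    exact abs_nonpos_iff.1 (by nlinarith)
  exact sub_eq_zero.1 (Complex.ext (hre z hz) (him z hz))

/-- the leg at the cone point of the lattice cannot be cut off by the image of the arc -/
theorem Ctx.leg (H : Ctx D a c) {pi pj pk V : ℂ} (hA : A ⊆ D) (h : ArcSet A pi pj) (dk : pk ∈ D)
    (ci : pi ∈ Cone) (lk : pk ∈ Lat) (nk : pk ∉ A) (hV : Btw D pi V pj)
    (hV' : ∀ w, Btw D pi w pj → Btw D pk V w) (hb : ∀ v ∈ D, v ∈ Cone → v ≠ pk → Btw D pk V v)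
    (hL : ∀ z ∈ D, ∀ (ε : ℤ) (m : ℂ), ε = 1 ∨ ε = -1 → m ∈ Lat → Bm a c z = ε * V + m → z ∈ A) :
    False := by
  have ck : pk ∈ Cone := show 2 * pk ∈ Lat by rw [two_mul]; exact Lat.add lk lk
  obtain ⟨A', sA', hA'⟩ := H.arc pk dk pi (hA h.left)
  obtain ⟨A₁, z, s1, a1, hxz, hz, hq⟩ := H.first sA' hA' (fun e => nk (e ▸ h.left))
    (Bm_cone a c ci)
  obtain ⟨ε, m, hε, hm, hD, hinj⟩ := H.step (s1.trans sA') a1 hxz hq
  set φ : ℂ → ℂ := fun z => ε * (Bm a c z - m) with hφ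
  have φc : Continuous φ := by
    have := Bm_cont a c
    fun_prop
  have φe : ∀ w, Bm a c w = ε * φ w + m := fun w => by
    rw [hφ]
    simp only
    rw [← mul_assoc, sign_sq hε]
    ring
  have arc := a1.image φc hinj
  have fk : φ pk = pk := H.type_unique (z := Bm a c pk) (hD arc.left) dk
    (by rw [φe pk]; exact sub_lat hε hm (cone_of hm (Bm_cone a c ck)))
    (Lat.sub (Bm_lat a c lk) lk)
  have hv : φ z ≠ pk := fun e => hxz (hinj a1.left a1.right (fk.trans e.symm))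
  rw [fk] at arc
  obtain ⟨z', hz', hzV⟩ := H.mem (hb _ (hD arc.right) (cone_of hm hz) hv) hD arc
  have zA : z' ∈ A := hL z' (sA' (s1 hz')) ε m hε hm (by rw [φe z', hzV])
  obtain ⟨E', sE', hE'⟩ := a1.between a1.left hz'
  have dE' : E' ⊆ D := (sE'.trans s1).trans sA'
  have VE' : V ∈ E' := H.mem (hV' z' ⟨A, hA, h, zA⟩) dE' hE'
  obtain ⟨E, sE, hE⟩ := hE'.between hE'.left VE'
  have arc' := hE'.image φc (hinj.mono sE')
  rw [fk, hzV] at arc'
  have eq : φ '' E' = E := H.nl.unique arc' hE ((image_mono sE').trans hD) (sE.trans dE')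
  have := expand (c := c) H.ha hE.compact hE.left hε (φ := φ) (fun z => by
    rw [Bm_sub]
    nth_rewrite 1 [← fk]
    simp only [hφ]
    ring) (fun w hw => eq ▸ mem_image_of_mem φ (sE hw)) hE.right
  exact nk (this ▸ H.mem hV hA h)

theorem Ctx.caseA2 (H : Ctx D a c) (hh : ℂ →+ ℝ) {pi pj pk pl : ℂ} (hi : hh pi = hh pk + 1)
    (hj : hh pj = hh pk - 1) (hl : hh pl = hh pk) (dk : pk ∈ D) (dl : pl ∈ D) (ci : pi ∈ Cone)
    (cj : pj ∈ Cone) (hC : ∀ q ∈ D, q ∈ Cone → q = pi ∨ q = pj ∨ q = pk ∨ q = pl) (hA : A ⊆ D)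
    (h : ArcSet A pi pj) (nk : pk ∉ A) (lk : pk ∈ Lat) (hq : ∃ q, Btw D pi q pj ∧ Btw D pk q pl) :
    |hh (Bm a c pj) - hh (Bm a c pi)| < 2 * a ^ 2 := by
  classical
  by_contra hge
  push Not at hge
  have di := hA h.left
  have dj := hA h.right
  obtain ⟨K, t, τ, e, W⟩ := H.walk' hA h ci cj
  obtain ⟨l0, lK⟩ := W.ends H ci cj
  have t0 : τ 0 = pk := H.lat_unique (W.ty 0 (Nat.zero_le _)).1 dk l0 lk
  have tK : τ K = pk := lK.trans t0
  have ik : pk ≠ pi := fun h => by rw [← h] at hi; linarith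
  have jk : pk ≠ pj := fun h => by rw [← h] at hj; linarith
  have li : pi ∉ Lat := fun li => ik (H.lat_unique dk di lk li)
  have lj : pj ∉ Lat := fun lj => jk (H.lat_unique dk dj lk lj)
  have ty : ∀ i ≤ K, τ i = pi ∨ τ i = pj ∨ τ i = pk ∨ τ i = pl := fun i hi =>
    hC _ (W.ty i hi).1 (W.ty i hi).2.1
  set u : ℕ → ℝ := fun i => (if τ i = pi then (1 : ℝ) else 0) + if τ i = pj then (1 : ℝ) else 0
    with hu
  have u0 : ∀ i, 0 ≤ u i := fun i => by simp only [hu]; split_ifs <;> norm_num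
  have st : ∀ i < K, |hh (τ (i + 1)) - hh (τ i)| ≤ u i + u (i + 1) := fun i hi' =>
    step_le hh hi hj hl (ty i hi'.le) (ty (i + 1) hi')
  have su : ∑ i ∈ Finset.range K, (u i + u (i + 1)) = 2 * (vis K τ pi + vis K τ pj) := by
    rw [sum_pair, hu, sum_ind2]
    simp [t0, tK, ik, jk]
  have c1 := W.count1 H hA ci li
  have c2 := W.count1 H hA cj lj
  have key := W.tel hh st
  rw [su] at key
  have c3 : 2 * a ^ 2 ≤ 2 * ((vis K τ pi : ℤ) + vis K τ pj) := by exact_mod_cast hge.trans key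
  have c1' : 2 * (vis K τ pi : ℝ) ≤ a ^ 2 := by exact_mod_cast c1
  have c2' : 2 * (vis K τ pj : ℝ) ≤ a ^ 2 := by exact_mod_cast c2
  -- every step has full height
  obtain ⟨σ, hσ, hσ'⟩ : ∃ σ : ℝ, (σ = 1 ∨ σ = -1) ∧
      σ * (hh (Bm a c pj) - hh (Bm a c pi)) = |hh (Bm a c pj) - hh (Bm a c pi)| := by
    rcases abs_choice (hh (Bm a c pj) - hh (Bm a c pi)) with h | h
    · exact ⟨1, Or.inl rfl, by rw [h, one_mul]⟩
    · exact ⟨-1, Or.inr rfl, by rw [h, neg_one_mul]⟩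
  have le1 : ∀ i ∈ Finset.range K, σ * (e i * (hh (τ (i + 1)) - hh (τ i))) ≤ u i + u (i + 1) := by
    intro i hi'
    have hi' := Finset.mem_range.1 hi'
    have := abs_le.1 (st i hi')
    rcases hσ with rfl | rfl <;> rcases W.sgn i hi' with h | h <;> rw [h] <;> push_cast <;>
      linarith [this.1, this.2]
  have full := (Finset.sum_eq_sum_iff_of_le le1).1 (le_antisymm (Finset.sum_le_sum le1) (by
    rw [← Finset.mul_sum, ← W.delta hh, hσ', su]
    linarith))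
  have opp : ∀ s, s + 1 < K → τ (s + 1) = pi ∨ τ (s + 1) = pj → e s ≠ e (s + 1) := by
    intro s hs hx hee
    have f1 := full s (Finset.mem_range.2 (by omega))
    have f2 := full (s + 1) (Finset.mem_range.2 hs)
    have g1 := (W.adj s (by omega)).1
    have g2 := (W.adj (s + 1) hs).1
    have u1 : 1 ≤ u (s + 1) := by
      simp only [hu]
      rcases hx with hx | hx <;> rw [if_pos hx] <;> split_ifs <;> norm_num
    have v1 := u0 s
    have v2 := u0 (s + 1 + 1)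
    rw [← hee] at f2
    have hs1 := W.sgn s (by omega)
    rcases hx with hx | hx <;> rw [hx] at f1 f2 g1 g2
    · have b1 : ∀ i ≤ K, τ i ≠ pi → hh (τ i) < hh pi := fun i hi' hn => by
        rcases ty i hi' with h | h | h | h
        · exact absurd h hn
        all_goals rw [h]; linarith
      have := b1 s (by omega) g1
      have := b1 (s + 1 + 1) hs g2.symm
      rcases hσ with rfl | rfl <;> rcases hs1 with h | h <;> rw [h] at f1 f2 <;>
        push_cast at f1 f2 <;> linarith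
    · have b1 : ∀ i ≤ K, τ i ≠ pj → hh pj < hh (τ i) := fun i hi' hn => by
        rcases ty i hi' with h | h | h | h
        · rw [h]; linarith
        · exact absurd h hn
        all_goals rw [h]; linarith
      have := b1 s (by omega) g1
      have := b1 (s + 1 + 1) hs g2.symm
      rcases hσ with rfl | rfl <;> rcases hs1 with h | h <;> rw [h] at f1 f2 <;>
        push_cast at f1 f2 <;> linarith
  have cov : ∀ x, x = pi ∨ x = pj → ∀ s ≤ K, τ s = x → ∀ ε : ℤ, ε = 1 ∨ ε = -1 →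
      ∃ b ∈ D, b ∈ Cone ∧ b ≠ x ∧ ∀ w, Btw D x w b →
        ∃ z ∈ A, Bm a c z = Bm a c (t s) + ε * (w - x) := by
    intro x hx s hs hτ ε hε
    have xk : pk ≠ x := by rcases hx with rfl | rfl <;> assumption
    obtain ⟨s, rfl⟩ : ∃ j, s = j + 1 := ⟨s - 1, by
      rcases s with _ | s
      · exact absurd (t0.symm.trans hτ) xk
      · rfl⟩
    have hsK : s + 1 < K := lt_of_le_of_ne hs fun e => xk (tK.symm.trans (e ▸ hτ))
    have hne := opp s hsK (hτ ▸ hx)
    by_cases h1 : e (s + 1) = ε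
    · exact ⟨τ (s + 1 + 1), (W.ty _ hsK).1, (W.ty _ hsK).2.1, hτ ▸ (W.adj _ hsK).1.symm,
        fun w hw => h1 ▸ hτ ▸ W.cov _ hsK w (hτ ▸ hw)⟩
    · have h2 : e s = ε := by
        have := W.sgn s (by omega)
        have := W.sgn (s + 1) hsK
        omega
      refine ⟨τ s, (W.ty _ (by omega)).1, (W.ty _ (by omega)).2.1, hτ ▸ (W.adj s (by omega)).1,
        fun w hw => ?_⟩
      obtain ⟨z, hz, h3⟩ := W.cov s (by omega) w (hτ ▸ hw.symm)
      refine ⟨z, hz, ?_⟩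
      rw [h3, W.stp s (by omega), h2, hτ]
      ring
  -- the foot of the leg
  obtain ⟨V, hV, hV'⟩ := H.median di dj dk
  obtain ⟨q, q1, q2⟩ := hq
  have bi : Btw D pk V pi := hV' pi (H.left di dj)
  have bj : Btw D pk V pj := hV' pj (H.left dj di).symm
  obtain ⟨x, hx, hxb⟩ : ∃ x, (x = pi ∨ x = pj) ∧ ∀ b ∈ D, b ∈ Cone → b ≠ x → Btw D x V b := by
    rcases H.tree hV dl with h1 | h1
    · refine ⟨pi, Or.inl rfl, fun b hb cb hn => ?_⟩
      rcases hC b hb cb with rfl | rfl | rfl | rfl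
      exacts [absurd rfl hn, hV, bi.symm, h1]
    · refine ⟨pj, Or.inr rfl, fun b hb cb hn => ?_⟩
      rcases hC b hb cb with rfl | rfl | rfl | rfl
      exacts [hV.symm, absurd rfl hn, bj.symm, h1.symm]
  refine H.leg hA h dk ci lk nk hV hV' (fun v hv cv hn => ?_) fun z hz ε m hε hm hzV => ?_
  · rcases hC v hv cv with rfl | rfl | rfl | rfl
    exacts [bi, bj, absurd rfl hn, H.sub q2 (hV' q q1)]
  have cx : x ∈ Cone := by rcases hx with rfl | rfl <;> assumption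
  have dx : x ∈ D := by rcases hx with rfl | rfl <;> assumption
  have lx : x ∉ Lat := by rcases hx with rfl | rfl <;> assumption
  have vx : a ^ 2 ≤ 2 * (vis K τ x : ℤ) := by rcases hx with rfl | rfl <;> omega
  obtain ⟨z₀, hz₀⟩ := Bm_surj H.ha c (ε * x + m)
  obtain ⟨s, hs, hr⟩ : ∃ s ≤ K, Rel z₀ (t s) := by
    by_contra hn
    push Not at hn
    have := W.count2 H hA cx lx (z := z₀) (hz₀ ▸ sub_lat hε hm cx) hn
    omega
  obtain ⟨δ, μ, hδ, hμ, hts⟩ : ∃ (δ : ℤ) (μ : ℂ), (δ = 1 ∨ δ = -1) ∧ μ ∈ Lat ∧ t s = δ * z₀ + μ := by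
    rcases hr with hr | hr
    · exact ⟨1, -(z₀ - t s), Or.inl rfl, Lat.neg hr, by simp⟩
    · exact ⟨-1, z₀ + t s, Or.inr rfl, hr, by simp⟩
  have hδε : δ * ε = 1 ∨ δ * ε = -1 := by
    rcases hδ with rfl | rfl <;> rcases hε with rfl | rfl <;> simp
  have bt : Bm a c (t s) = (δ * ε : ℤ) * x + (δ * m + Bm a c μ) := by
    rw [hts, Bm_add, Bm_int_mul, hz₀]
    push_cast
    ring
  have hτ : τ s = x := H.type_unique (W.ty s hs).1 dx (W.ty s hs).2.2
    (bt ▸ sub_lat hδε (Lat.add (lat_int_mul hm δ) (Bm_lat a c hμ)) cx)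
  obtain ⟨b, hb, cb, hn, hw⟩ := cov x hx s hs hτ _ hδε
  obtain ⟨z', hz', h3⟩ := hw V (hxb b hb cb hn)
  have h4 : z' = δ * z + μ := Bm_inj H.ha c (by
    rw [h3, bt, Bm_add, Bm_int_mul, hzV]
    push_cast
    ring)
  have : z' = z := H.inj z' (hA hz') z hz
    (rel_of_eq (Or.inl rfl) hδ Lat.zero hμ (by rw [h4]; simp))
  exact this ▸ hz'

theorem Ctx.caseA1 (H : Ctx D a c) (hh : ℂ →+ ℝ) {pi pj pk pl : ℂ} (hi : hh pi = hh pk + 1)
    (hj : hh pj = hh pk - 1) (hl : hh pl = hh pk) (dk : pk ∈ D) (dl : pl ∈ D) (ci : pi ∈ Cone)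
    (cj : pj ∈ Cone) (ck : pk ∈ Cone) (cl : pl ∈ Cone) (kl : pk ≠ pl)
    (hC : ∀ q ∈ D, q ∈ Cone → q = pi ∨ q = pj ∨ q = pk ∨ q = pl) (hA : A ⊆ D)
    (h : ArcSet A pi pj) (nk : pk ∉ A) (nl : pl ∉ A) (lk : pk ∉ Lat) (ll : pl ∉ Lat) :
    |hh (Bm a c pj) - hh (Bm a c pi)| < 2 * a ^ 2 := by
  classical
  have di := hA h.left
  have dj := hA h.right
  obtain ⟨K, t, τ, e, W⟩ := H.walk' hA h ci cj
  obtain ⟨l0, lK⟩ := W.ends H ci cj
  have ij : pi ≠ pj := fun h => by rw [h] at hi; linarith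
  have key := W.tel hh fun i hi' => step_le hh hi hj hl
    (hC _ (W.ty i hi'.le).1 (W.ty i hi'.le).2.1) (hC _ (W.ty (i + 1) hi').1 (W.ty (i + 1) hi').2.1)
  rw [sum_pair (fun i => (if τ i = pi then (1 : ℝ) else 0) + if τ i = pj then (1 : ℝ) else 0),
    sum_ind2, lK] at key
  have c3 := W.count3 H hA l0 hC {pk, pl} fun q hq => by
    rcases Finset.mem_insert.1 hq with rfl | hq
    · exact ⟨dk, ck, nk⟩
    · rw [Finset.mem_singleton.1 hq]
      exact ⟨dl, cl, nl⟩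
  rw [Finset.card_pair kl] at c3
  rcases hC _ (W.ty 0 (Nat.zero_le _)).1 (W.ty 0 (Nat.zero_le _)).2.1 with e0 | e0 | e0 | e0 <;>
    rw [e0] at c3 l0 key
  · have c2 := W.count1 H hA cj fun lj => ij (H.lat_unique di dj l0 lj)
    have : 2 * ((vis K τ pi : ℤ) + vis K τ pj) ≤ 2 * a ^ 2 := by push_cast at c3; linarith
    have : 2 * ((vis K τ pi : ℝ) + vis K τ pj) ≤ 2 * a ^ 2 := by exact_mod_cast this
    simp only [if_true, if_neg ij] at key
    linarith
  · have c2 := W.count1 H hA ci fun li => ij (H.lat_unique di dj li l0)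
    have : 2 * ((vis K τ pi : ℤ) + vis K τ pj) ≤ 2 * a ^ 2 := by push_cast at c3; linarith
    have : 2 * ((vis K τ pi : ℝ) + vis K τ pj) ≤ 2 * a ^ 2 := by exact_mod_cast this
    simp only [if_true, if_neg ij.symm] at key
    linarith
  · exact absurd l0 lk
  · exact absurd l0 ll

/-- the strict bound for the two diagonals -/
theorem Ctx.diag (H : Ctx D a c) (hh : ℂ →+ ℝ) {pi pj pk pl : ℂ} (hi : hh pi = hh pk + 1)
    (hj : hh pj = hh pk - 1) (hl : hh pl = hh pk) (di : pi ∈ D) (dj : pj ∈ D) (dk : pk ∈ D)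
    (dl : pl ∈ D) (ci : pi ∈ Cone) (cj : pj ∈ Cone) (ck : pk ∈ Cone) (cl : pl ∈ Cone)
    (kl : pk ≠ pl) (hC : ∀ q ∈ D, q ∈ Cone → q = pi ∨ q = pj ∨ q = pk ∨ q = pl)
    (hq : ∃ q, Btw D pi q pj ∧ Btw D pk q pl) :
    |hh (Bm a c pj) - hh (Bm a c pi)| < 2 * a ^ 2 := by
  have ij : pi ≠ pj := fun h => by rw [h] at hi; linarith
  have ik : pi ≠ pk := fun h => by rw [h] at hi; linarith
  have il : pi ≠ pl := fun h => by rw [h] at hi; linarith
  have jk : pj ≠ pk := fun h => by rw [h] at hj; linarith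
  have jl : pj ≠ pl := fun h => by rw [h] at hj; linarith
  have i1 : |hh pi - hh pk| ≤ 1 := by rw [hi]; simp
  have j1 : |hh pj - hh pk| ≤ 1 := by rw [hj]; simp
  obtain ⟨A, hA, h⟩ := H.arc pi di pj dj
  by_cases nk : pk ∈ A
  · have b : Btw D pi pk pj := ⟨A, hA, h, nk⟩
    rcases H.tree b dl with b' | b'
    · exact H.caseB hh di dk dj dl ci ck cj cl (fun q hq cq => by have := hC q hq cq; tauto)
        ik ij il jk.symm kl jl b b' i1 j1 hl
    · rw [abs_sub_comm]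
      exact H.caseB hh dj dk di dl cj ck ci cl (fun q hq cq => by have := hC q hq cq; tauto)
        jk ij.symm jl ik.symm kl il b.symm b'.symm j1 i1 hl
  by_cases nl : pl ∈ A
  · have b : Btw D pi pl pj := ⟨A, hA, h, nl⟩
    rw [← hl] at i1 j1
    rcases H.tree b dk with b' | b'
    · exact H.caseB hh di dl dj dk ci cl cj ck (fun q hq cq => by have := hC q hq cq; tauto)
        il ij ik jl.symm kl.symm jk b b' i1 j1 hl.symm
    · rw [abs_sub_comm]
      exact H.caseB hh dj dl di dk cj cl ci ck (fun q hq cq => by have := hC q hq cq; tauto)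
        jl ij.symm jk il.symm kl.symm ik b.symm b'.symm j1 i1 hl.symm
  by_cases lk : pk ∈ Lat
  · exact H.caseA2 hh hi hj hl dk dl ci cj hC hA h nk lk hq
  by_cases ll : pl ∈ Lat
  · exact H.caseA2 hh (pk := pl) (pl := pk) (by rw [hl, hi]) (by rw [hl, hj]) hl.symm dl dk ci cj
      (fun q hq cq => by have := hC q hq cq; tauto) hA h nl ll
      (hq.imp fun q h => ⟨h.1, h.2.symm⟩)
  exact H.caseA1 hh hi hj hl dk dl ci cj ck cl kl hC hA h nk nl lk ll

end Pool.Agent.P.MP_cb5d8b_an.Ex
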