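import Pool.Agent.P.MP_cb5d8b_an.Ex.Conf

/-! Height bounds along a walk: the star, the weak bound, and arcs through a third cone point. -/

namespace Pool.Agent.P.MP_cb5d8b_an.Ex

open Set Plane

variable {D A : Set ℂ} {a c : ℤ} {x y z w x' y' : ℂ} {K : ℕ} {t τ : ℕ → ℂ} {e : ℕ → ℤ}

theorem map_int_mul (hh : ℂ →+ ℝ) (k : ℤ) (z : ℂ) : hh (k * z) = k * hh z := by
  rw [← zsmul_eq_mul, map_zsmul, zsmul_eq_mul]

theorem Walk.delta (W : Walk D a c A x y K t τ e) (hh : ℂ →+ ℝ) :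
    hh (Bm a c y) - hh (Bm a c x) =
      ∑ i ∈ Finset.range K, e i * (hh (τ (i + 1)) - hh (τ i)) := by
  rw [← W.t0, ← W.tK, ← Finset.sum_range_sub (fun i => hh (Bm a c (t i)))]
  refine Finset.sum_congr rfl fun i hi => ?_
  rw [W.stp i (Finset.mem_range.1 hi), map_add, map_int_mul, map_sub]
  ring

theorem Walk.tel (W : Walk D a c A x y K t τ e) (hh : ℂ →+ ℝ) {b : ℕ → ℝ}
    (hb : ∀ i < K, |hh (τ (i + 1)) - hh (τ i)| ≤ b i) :
    |hh (Bm a c y) - hh (Bm a c x)| ≤ ∑ i ∈ Finset.range K, b i := by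
  rw [W.delta hh]
  refine (Finset.abs_sum_le_sum_abs _ _).trans (Finset.sum_le_sum fun i hi => ?_)
  have hi := Finset.mem_range.1 hi
  rw [abs_mul]
  rcases W.sgn i hi with h | h <;> simpa [h] using hb i hi

theorem Ctx.walk' (H : Ctx D a c) (hA : A ⊆ D) (h : ArcSet A x y) (cx : x ∈ Cone)
    (cy : y ∈ Cone) : ∃ K t τ e, Walk D a c A x y K t τ e :=
  H.walk _ A x y hA h (Bm_cone a c cx) (Bm_cone a c cy) le_rfl

theorem Walk.ends (H : Ctx D a c) (W : Walk D a c A x y K t τ e) (cx : x ∈ Cone) (cy : y ∈ Cone) :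
    τ 0 ∈ Lat ∧ τ K = τ 0 := by
  have h0 := W.ty 0 (Nat.zero_le _)
  have hK := W.ty K le_rfl
  rw [W.t0] at h0
  rw [W.tK] at hK
  have l0 : τ 0 ∈ Lat := by simpa using Lat.sub (Bm_cone_lat H.ea H.ec cx) h0.2.2
  have lK : τ K ∈ Lat := by simpa using Lat.sub (Bm_cone_lat H.ea H.ec cy) hK.2.2
  exact ⟨l0, H.inj _ hK.1 _ h0.1 (Or.inl (Lat.sub lK l0))⟩

theorem Ctx.lat_unique (H : Ctx D a c) (hx : x ∈ D) (hy : y ∈ D) (lx : x ∈ Lat) (ly : y ∈ Lat) :
    x = y := H.inj _ hx _ hy (Or.inl (Lat.sub lx ly))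

/-- the star with a cone point as centre -/
theorem Ctx.star1 (H : Ctx D a c) (hh : ℂ →+ ℝ) (hx : x ∈ D) (hy : y ∈ D) (hz : z ∈ D) (hw : w ∈ D)
    (cx : x ∈ Cone) (cy : y ∈ Cone) (cz : z ∈ Cone) (cw : w ∈ Cone)
    (hC : ∀ q ∈ D, q ∈ Cone → q = x ∨ q = y ∨ q = z ∨ q = w) (xy : x ≠ y) (xz : x ≠ z)
    (xw : x ≠ w) (zw : z ≠ w) (b1 : Btw D y x z) (b2 : Btw D z x w) (b3 : Btw D w x y)
    (h1 : |hh y - hh x| ≤ 1) (h2 : |hh z - hh x| ≤ 1) (h3 : |hh w - hh x| ≤ 1) :
    |hh (Bm a c y) - hh (Bm a c x)| ≤ a ^ 2 := by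
  classical
  obtain ⟨A, hA, h⟩ := H.arc x hx y hy
  obtain ⟨K, t, τ, e, W⟩ := H.walk' hA h cx cy
  have key := W.tel hh (b := fun i => (if τ i = x then (1 : ℝ) else 0) +
      if τ (i + 1) = x then (1 : ℝ) else 0) fun i hi => by
    have ad := W.adj i hi
    have t1 := W.ty i hi.le
    have t2 := W.ty (i + 1) hi
    have h1' := abs_sub_comm (hh y) (hh x) ▸ h1
    have h2' := abs_sub_comm (hh z) (hh x) ▸ h2
    have h3' := abs_sub_comm (hh w) (hh x) ▸ h3
    rcases hC _ t1.1 t1.2.1 with e1 | e1 | e1 | e1 <;>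
      rcases hC _ t2.1 t2.2.1 with e2 | e2 | e2 | e2 <;> rw [e1, e2] at ad ⊢ <;>
      first
      | exact absurd rfl ad.1
      | exact (ad.not cx b1 xy xz).elim
      | exact (ad.not cx b1.symm xz xy).elim
      | exact (ad.not cx b2 xz xw).elim
      | exact (ad.not cx b2.symm xw xz).elim
      | exact (ad.not cx b3 xw xy).elim
      | exact (ad.not cx b3.symm xy xw).elim
      | simp [xy.symm, xz.symm, xw.symm, *]
  rw [sum_pair (fun i => if τ i = x then (1 : ℝ) else 0), sum_ind] at key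
  have hv : 2 * (vis K τ x : ℤ) ≤ a ^ 2 := by
    by_cases lx : x ∈ Lat
    · have := W.count3 H hA lx hC {z, w} fun q hq => by
        rcases Finset.mem_insert.1 hq with rfl | hq
        · exact ⟨hz, cz, fun hq => xz (H.antisymm b1 (Btw.symm ⟨A, hA, h, hq⟩))⟩
        · rw [Finset.mem_singleton.1 hq]
          exact ⟨hw, cw, fun hq => xw (H.antisymm b3.symm (Btw.symm ⟨A, hA, h, hq⟩))⟩
      rw [Finset.card_pair zw] at this
      push_cast at this
      linarith
    · exact W.count1 H hA cx lx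
  have hv' : 2 * (vis K τ x : ℝ) ≤ a ^ 2 := by exact_mod_cast hv
  have p0 : (0 : ℝ) ≤ if τ 0 = x then (1 : ℝ) else 0 := by split_ifs <;> norm_num
  have pK : (0 : ℝ) ≤ if τ K = x then (1 : ℝ) else 0 := by split_ifs <;> norm_num
  linarith

open Classical in
theorem step_le (hh : ℂ →+ ℝ) {pi pj pk pl u v : ℂ} (hi : hh pi = hh pk + 1)
    (hj : hh pj = hh pk - 1) (hl : hh pl = hh pk) (hu : u = pi ∨ u = pj ∨ u = pk ∨ u = pl)
    (hv : v = pi ∨ v = pj ∨ v = pk ∨ v = pl) :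
    |hh v - hh u| ≤ ((if u = pi then (1 : ℝ) else 0) + if u = pj then (1 : ℝ) else 0) +
      ((if v = pi then (1 : ℝ) else 0) + if v = pj then (1 : ℝ) else 0) := by
  have key : ∀ u, u = pi ∨ u = pj ∨ u = pk ∨ u = pl → |hh u - hh pk| ≤
      (if u = pi then (1 : ℝ) else 0) + if u = pj then (1 : ℝ) else 0 := by
    intro u hu
    have p1 : (0 : ℝ) ≤ if u = pi then (1 : ℝ) else 0 := by split_ifs <;> norm_num
    have p2 : (0 : ℝ) ≤ if u = pj then (1 : ℝ) else 0 := by split_ifs <;> norm_num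
    rcases hu with h | h | h | h
    · rw [if_pos h] at *
      rw [h, hi, ← h]
      simpa using p2
    · rw [if_pos h] at *
      rw [h, hj, ← h]
      simpa using p1
    · have : hh u - hh pk = 0 := by rw [h, sub_self]
      rw [this, abs_zero]
      positivity
    · have : hh u - hh pk = 0 := by rw [h, hl, sub_self]
      rw [this, abs_zero]
      positivity
  have h1 := abs_le.1 (key u hu)
  have h2 := abs_le.1 (key v hv)
  exact abs_le.2 ⟨by linarith [h1.2, h2.1], by linarith [h1.1, h2.2]⟩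

open Classical in
theorem sum_ind2 (K : ℕ) (τ : ℕ → ℂ) (p q : ℂ) :
    ∑ i ∈ Finset.range (K + 1), ((if τ i = p then (1 : ℝ) else 0) + if τ i = q then (1 : ℝ) else 0) =
      vis K τ p + vis K τ q := by
  rw [Finset.sum_add_distrib, sum_ind, sum_ind]

/-- the weak bound -/
theorem Ctx.weak (H : Ctx D a c) (hh : ℂ →+ ℝ) {pi pj pk pl : ℂ} (hi : hh pi = hh pk + 1)
    (hj : hh pj = hh pk - 1) (hl : hh pl = hh pk) (di : pi ∈ D) (dj : pj ∈ D) (dk : pk ∈ D)
    (dl : pl ∈ D) (ci : pi ∈ Cone) (cj : pj ∈ Cone) (ck : pk ∈ Cone) (cl : pl ∈ Cone)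
    (hC : ∀ q ∈ D, q ∈ Cone → q = pi ∨ q = pj ∨ q = pk ∨ q = pl) :
    |hh (Bm a c pl) - hh (Bm a c pk)| ≤ 2 * a ^ 2 + 4 := by
  classical
  obtain ⟨A, hA, h⟩ := H.arc pk dk pl dl
  obtain ⟨K, t, τ, e, W⟩ := H.walk' hA h ck cl
  have key := W.tel hh fun i hi' => step_le hh hi hj hl
    (hC _ (W.ty i hi'.le).1 (W.ty i hi'.le).2.1) (hC _ (W.ty (i + 1) hi').1 (W.ty (i + 1) hi').2.1)
  rw [sum_pair (fun i => (if τ i = pi then (1 : ℝ) else 0) + if τ i = pj then (1 : ℝ) else 0),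
    sum_ind2] at key
  have ij : pi ≠ pj := fun h => by rw [h] at hi; linarith
  have c3 : ∀ p ∈ Lat, 2 * (vis K τ p : ℤ) ≤ a ^ 2 + 4 := fun p hp => by
    simpa using W.count3 H hA hp hC ∅ (by simp)
  have hv : 2 * (vis K τ pi : ℤ) + 2 * vis K τ pj ≤ 2 * a ^ 2 + 4 := by
    by_cases li : pi ∈ Lat
    · have := W.count1 H hA cj fun lj => ij (H.lat_unique di dj li lj)
      linarith [c3 _ li]
    · have := W.count1 H hA ci li
      by_cases lj : pj ∈ Lat
      · linarith [c3 _ lj]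
      · linarith [W.count1 H hA cj lj]
  have hv' : 2 * (vis K τ pi : ℝ) + 2 * vis K τ pj ≤ 2 * a ^ 2 + 4 := by exact_mod_cast hv
  have p : ∀ P : Prop, (0 : ℝ) ≤ if P then (1 : ℝ) else 0 := fun P => by split_ifs <;> norm_num
  linarith [p (τ 0 = pi), p (τ 0 = pj), p (τ K = pi), p (τ K = pj)]

/-- the arc from `x` to `y'` passes through the cone point `y` -/
theorem Ctx.caseB (H : Ctx D a c) (hh : ℂ →+ ℝ) (hx : x ∈ D) (hy : y ∈ D) (hy' : y' ∈ D)
    (hx' : x' ∈ D) (cx : x ∈ Cone) (cy : y ∈ Cone) (cy' : y' ∈ Cone) (cx' : x' ∈ Cone)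
    (hC : ∀ q ∈ D, q ∈ Cone → q = x ∨ q = y ∨ q = y' ∨ q = x') (n1 : x ≠ y) (n2 : x ≠ y')
    (n3 : x ≠ x') (n4 : y ≠ y') (n5 : y ≠ x') (n6 : y' ≠ x') (b1 : Btw D x y y')
    (b2 : Btw D x y x') (h1 : |hh x - hh y| ≤ 1) (h2 : |hh y' - hh y| ≤ 1) (h3 : hh x' = hh y) :
    |hh (Bm a c y') - hh (Bm a c x)| < 2 * a ^ 2 := by
  classical
  obtain ⟨A, hA, h⟩ := H.arc x hx y' hy'
  obtain ⟨K, t, τ, e, W⟩ := H.walk' hA h cx cy'
  obtain ⟨l0, lK⟩ := W.ends H cx cy'
  have ty : ∀ i ≤ K, τ i = x ∨ τ i = y ∨ τ i = y' ∨ τ i = x' := fun i hi =>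
    hC _ (W.ty i hi).1 (W.ty i hi).2.1
  have ax : ∀ u, Adj D x u → u = x ∨ u = y ∨ u = y' ∨ u = x' → u = y := by
    rintro u ad (rfl | rfl | rfl | rfl)
    · exact absurd rfl ad.1
    · rfl
    · exact (ad.not cy b1 n1.symm n4).elim
    · exact (ad.not cy b2 n1.symm n5).elim
  have st : ∀ i < K, |hh (τ (i + 1)) - hh (τ i)| ≤ 1 := fun i hi => by
    have ad := W.adj i hi
    have h1' := abs_le.1 h1
    have h2' := abs_le.1 h2
    rcases ty i hi.le with e1 | e1 | e1 | e1 <;> rcases ty (i + 1) hi with e2 | e2 | e2 | e2 <;>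
      rw [e1, e2] at ad ⊢ <;>
      first
      | exact (ad.not cy b1 n1.symm n4).elim
      | exact (ad.symm.not cy b1 n1.symm n4).elim
      | exact abs_le.2 ⟨by linarith [h1'.1, h1'.2, h2'.1, h2'.2],
          by linarith [h1'.1, h1'.2, h2'.1, h2'.2]⟩
  have B1 : |hh (Bm a c y') - hh (Bm a c x)| ≤ K := by simpa using W.tel hh st
  have B2 : (∃ i < K, τ i = y ∧ τ (i + 1) = x' ∨ τ i = x' ∧ τ (i + 1) = y) →
      |hh (Bm a c y') - hh (Bm a c x)| ≤ K - 1 := by
    rintro ⟨j, hj, hz⟩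
    have := W.tel hh (b := fun i => 1 - if i = j then 1 else 0) fun i hi => by
      by_cases hij : i = j
      · subst hij
        rcases hz with ⟨e1, e2⟩ | ⟨e1, e2⟩ <;> simp [e1, e2, h3]
      · simpa [hij] using st i hi
    simpa [Finset.sum_sub_distrib, hj] using this
  have hs := vis_sum ty
  have a2 := H.ha
  have a4 : 4 ≤ a ^ 2 := by nlinarith
  have one : ∀ p ∈ D, p ∈ Cone → p ≠ τ 0 → 2 * (vis K τ p : ℤ) ≤ a ^ 2 := fun p hp cp hn =>
    W.count1 H hA cp fun lp => hn (H.lat_unique hp (W.ty 0 (Nat.zero_le _)).1 lp l0)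
  have pair : ∀ p q, q ∈ D → q ∈ Cone → p ≠ τ 0 → q ≠ τ 0 →
      (∀ i < K, τ i = p → τ (i + 1) = q) → (∀ i < K, τ (i + 1) = p → τ i = q) →
      2 * (vis K τ p : ℤ) + 2 ≤ a ^ 2 := fun p q hq cq hp0 hq0 g1 g2 => by
    have := one q hq cq hq0
    rcases vis_pair hp0.symm (lK ▸ hp0.symm) g1 g2 with h | h <;> omega
  have px : x ≠ τ 0 → y ≠ τ 0 → 2 * (vis K τ x : ℤ) + 2 ≤ a ^ 2 := fun g1 g2 =>
    pair x y hy cy g1 g2 (fun i hi e1 => ax _ (e1 ▸ W.adj i hi) (ty _ hi))
      fun i hi e1 => ax _ (e1 ▸ (W.adj i hi).symm) (ty _ hi.le)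
  suffices hK : (K : ℤ) < 2 * a ^ 2 ∨ (K : ℤ) ≤ 2 * a ^ 2 ∧
      ∃ i < K, τ i = y ∧ τ (i + 1) = x' ∨ τ i = x' ∧ τ (i + 1) = y by
    rcases hK with hK | ⟨hK, hz⟩
    · exact B1.trans_lt (by exact_mod_cast hK)
    · have : (K : ℝ) ≤ 2 * a ^ 2 := by exact_mod_cast hK
      linarith [B2 hz]
  by_cases hz : ∃ i < K, τ i = y ∧ τ (i + 1) = x' ∨ τ i = x' ∧ τ (i + 1) = y
  all_goals by_cases hA' : x' ∈ A
  · -- four cone points on the arc, a step of height zero
    have b3 : Btw D y x' y' := (H.next (Btw.symm ⟨A, hA, h, hA'⟩) b2.symm).symm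
    have ay : ∀ u, Adj D y' u → u = x ∨ u = y ∨ u = y' ∨ u = x' → u = x' := by
      rintro u ad (rfl | rfl | rfl | rfl)
      · exact (ad.symm.not cy b1 n1.symm n4).elim
      · exact (ad.symm.not cx' b3 n5.symm n6.symm).elim
      · exact absurd rfl ad.1
      · rfl
    have py : y' ≠ τ 0 → x' ≠ τ 0 → 2 * (vis K τ y' : ℤ) + 2 ≤ a ^ 2 := fun g1 g2 =>
      pair y' x' hx' cx' g1 g2 (fun i hi e1 => ay _ (e1 ▸ W.adj i hi) (ty _ hi))
        fun i hi e1 => ay _ (e1 ▸ (W.adj i hi).symm) (ty _ hi.le)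
    have c3 : 2 * (vis K τ (τ 0) : ℤ) ≤ a ^ 2 + 4 := by simpa using W.count3 H hA l0 hC ∅ (by simp)
    refine Or.inr ⟨?_, hz⟩
    rcases ty 0 (Nat.zero_le _) with e0 | e0 | e0 | e0 <;> rw [e0] at c3 one px py
    · have := one y hy cy n1.symm
      have := one x' hx' cx' n3.symm
      have := py n2.symm n3.symm
      omega
    · have := one x hx cx n1
      have := one x' hx' cx' n5.symm
      have := py n4.symm n5.symm
      omega
    · have := one y hy cy n4
      have := one x' hx' cx' n6.symm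
      have := px n2 n4
      omega
    · have := one y hy cy n5
      have := one y' hy' cy' n6
      have := px n3 n5
      omega
  · have c3 : 2 * ((vis K τ (τ 0) : ℤ) + 1) ≤ a ^ 2 + 4 := by
      simpa using W.count3 H hA l0 hC {x'} (by simpa using ⟨hx', cx', hA'⟩)
    refine Or.inr ⟨?_, hz⟩
    have o1 := one x hx cx
    have o2 := one y hy cy
    have o3 := one y' hy' cy'
    have o4 := one x' hx' cx'
    rcases ty 0 (Nat.zero_le _) with e0 | e0 | e0 | e0 <;> rw [e0] at c3 o1 o2 o3 o4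
    · have := o2 n1.symm
      have := o3 n2.symm
      have := o4 n3.symm
      omega
    · have := o1 n1
      have := o3 n4.symm
      have := o4 n5.symm
      omega
    · have := o1 n2
      have := o2 n4
      have := o4 n6.symm
      omega
    · have := o1 n3
      have := o2 n5
      have := o3 n6
      omega
  · -- four cone points on the arc, no step of height zero: only two types occur
    have b3 : Btw D y x' y' := (H.next (Btw.symm ⟨A, hA, h, hA'⟩) b2.symm).symm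
    have c3 : 2 * (vis K τ (τ 0) : ℤ) ≤ a ^ 2 + 4 := by simpa using W.count3 H hA l0 hC ∅ (by simp)
    have side : ∀ i < K, (τ i = x ∨ τ i = y ↔ τ (i + 1) = x ∨ τ (i + 1) = y) := fun i hi => by
      have ad := W.adj i hi
      have nz : ¬ (τ i = y ∧ τ (i + 1) = x' ∨ τ i = x' ∧ τ (i + 1) = y) := fun h => hz ⟨i, hi, h⟩
      rcases ty i hi.le with e1 | e1 | e1 | e1 <;> rcases ty (i + 1) hi with e2 | e2 | e2 | e2 <;>
        rw [e1, e2] at ad nz ⊢ <;>
        first
        | exact (ad.not cy b1 n1.symm n4).elim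
        | exact (ad.symm.not cy b1 n1.symm n4).elim
        | exact (ad.not cy b2 n1.symm n5).elim
        | exact (ad.symm.not cy b2 n1.symm n5).elim
        | exact (ad.not cx' b3 n5.symm n6.symm).elim
        | exact (ad.symm.not cx' b3 n5.symm n6.symm).elim
        | exact (nz (Or.inl ⟨rfl, rfl⟩)).elim
        | exact (nz (Or.inr ⟨rfl, rfl⟩)).elim
        | simp [n2.symm, n3.symm, n4.symm, n5.symm]
    have side' : ∀ i ≤ K, (τ 0 = x ∨ τ 0 = y ↔ τ i = x ∨ τ i = y) := fun i hi => by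
      induction i with
      | zero => rfl
      | succ i ih => exact (ih (by omega)).trans (side i hi)
    left
    have z1 : τ 0 = x ∨ τ 0 = y → vis K τ y' = 0 ∧ vis K τ x' = 0 := fun h0 =>
      ⟨vis_zero fun i hi e1 => ((side' i hi).1 h0).elim (fun e2 => n2 (e2.symm.trans e1))
          fun e2 => n4 (e2.symm.trans e1),
        vis_zero fun i hi e1 => ((side' i hi).1 h0).elim (fun e2 => n3 (e2.symm.trans e1))
          fun e2 => n5 (e2.symm.trans e1)⟩
    have z2 : ¬ (τ 0 = x ∨ τ 0 = y) → vis K τ x = 0 ∧ vis K τ y = 0 := fun h0 =>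
      ⟨vis_zero fun i hi e1 => h0 ((side' i hi).2 (Or.inl e1)),
        vis_zero fun i hi e1 => h0 ((side' i hi).2 (Or.inr e1))⟩
    rcases ty 0 (Nat.zero_le _) with e0 | e0 | e0 | e0 <;> rw [e0] at c3 one z1 z2
    · have := one y hy cy n1.symm
      have := z1 (Or.inl rfl)
      omega
    · have := one x hx cx n1
      have := z1 (Or.inr rfl)
      omega
    · have := one x' hx' cx' n6.symm
      have := z2 (by simp [n2.symm, n4.symm])
      omega
    · have := one y' hy' cy' n6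
      have := z2 (by simp [n3.symm, n5.symm])
      omega
  · have c3 : 2 * ((vis K τ (τ 0) : ℤ) + 1) ≤ a ^ 2 + 4 := by
      simpa using W.count3 H hA l0 hC {x'} (by simpa using ⟨hx', cx', hA'⟩)
    have py : x' ≠ τ 0 → y' ≠ τ 0 → 2 * (vis K τ x' : ℤ) + 2 ≤ a ^ 2 := fun g1 g2 =>
      pair x' y' hy' cy' g1 g2
        (fun i hi e1 => by
          have ad := W.adj i hi
          rcases ty (i + 1) hi with e2 | e2 | e2 | e2
          · rw [e1, e2] at ad
            exact (ad.symm.not cy b2 n1.symm n5).elim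
          · exact (hz ⟨i, hi, Or.inr ⟨e1, e2⟩⟩).elim
          · exact e2
          · exact absurd (e1.trans e2.symm) ad.1)
        fun i hi e1 => by
          have ad := W.adj i hi
          rcases ty i hi.le with e2 | e2 | e2 | e2
          · rw [e1, e2] at ad
            exact (ad.not cy b2 n1.symm n5).elim
          · exact (hz ⟨i, hi, Or.inl ⟨e2, e1⟩⟩).elim
          · exact e2
          · exact absurd (e2.trans e1.symm) ad.1
    left
    rcases ty 0 (Nat.zero_le _) with e0 | e0 | e0 | e0 <;> rw [e0] at c3 one px py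
    · have := one y hy cy n1.symm
      have := one y' hy' cy' n2.symm
      have := py n3.symm n2.symm
      omega
    · have := one x hx cx n1
      have := one y' hy' cy' n4.symm
      have := py n5.symm n4.symm
      omega
    · have := one y hy cy n4
      have := one x' hx' cx' n6.symm
      have := px n2 n4
      omega
    · have := one y hy cy n5
      have := one y' hy' cy' n6
      have := px n3 n5
      omega

end Pool.Agent.P.MP_cb5d8b_an.Ex
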