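import Pool.Agent.P.MP_cb5d8b_an.Ex.Count

/-! The position of the four cone points of the section. -/

namespace Pool.Agent.P.MP_cb5d8b_an.Ex

open Set Plane

variable {D A : Set ℂ} {a c : ℤ} {x y z v w : ℂ}

/-- the determinant of two plane vectors -/
def det (u v : ℂ) : ℝ := u.re * v.im - u.im * v.re

theorem two_sub (hx : x ∈ Cone) (hy : y ∈ Cone) : 2 * (y - x) ∈ Lat := by
  rw [mul_sub]
  exact Lat.sub hy hx

theorem one_sub_lat {e : ℤ} (he : e = 1 ∨ e = -1) (hy : y ∈ Cone) : (1 - e) * y ∈ Lat := by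
  rcases he with rfl | rfl
  · simpa using Lat.zero
  · convert (show 2 * y ∈ Lat from hy) using 2
    push_cast
    ring

/-- translates of the periodic curves through two arcs meet -/
theorem Ctx.meet (H : Ctx D a c) {A' : Set ℂ} {l : ℂ} (hA : A ⊆ D) (hA' : A' ⊆ D)
    (h : ArcSet A x y) (h' : ArcSet A' z w) (cx : x ∈ Cone) (cy : y ∈ Cone) (cz : z ∈ Cone)
    (cw : w ∈ Cone) (hl : l ∈ Lat) (hd : det (2 * (y - x)) (2 * (w - z)) ≠ 0) :
    ∃ q ∈ A ∩ A', ∃ e e' i j : ℤ, (e = 1 ∨ e = -1) ∧ (e' = 1 ∨ e' = -1) ∧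
      e * q + (1 - e) * y + l + i * (2 * (y - x)) = e' * q + (1 - e') * w + j * (2 * (w - z)) := by
  have h1 := joinedIn_double (ArcSet_joined h)
  have h2 := joinedIn_double (ArcSet_joined h')
  have h3 : JoinedIn ((fun z : ℂ => z + l) ''
      {z | ∃ e : ℤ, (e = 1 ∨ e = -1) ∧ ∃ y' ∈ A, z = e * y' + (1 - e) * y}) (x + l)
      (x + l + 2 * (y - x)) := by
    obtain ⟨γ, hγ⟩ := h1
    exact ⟨(γ.map (f := fun z : ℂ => z + l) (by fun_prop)).cast rfl (by ring),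
      fun t => ⟨γ t, hγ t, by simp⟩⟩
  obtain ⟨_, ⟨_, ⟨e, he, q, hq, rfl⟩, rfl⟩, _, ⟨e', he', q', hq', rfl⟩, i, j, h4⟩ :=
    Cross.cross h3 h2 hd
  have : q = q' := H.inj q (hA hq) q' (hA' hq') (rel_of_eq he he'
    (Lat.add (Lat.add (one_sub_lat he cy) hl) (lat_int_mul (two_sub cx cy) i))
    (Lat.add (one_sub_lat he' cw) (lat_int_mul (two_sub cz cw) j)) (by linear_combination h4))
  subst this
  exact ⟨q, ⟨hq, hq'⟩, e, e', i, j, he, he', h4⟩

theorem Ctx.meet' (H : Ctx D a c) (hx : x ∈ D) (hy : y ∈ D) (hz : z ∈ D) (hw : w ∈ D)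
    (cx : x ∈ Cone) (cy : y ∈ Cone) (cz : z ∈ Cone) (cw : w ∈ Cone)
    (hd : det (2 * (y - x)) (2 * (w - z)) ≠ 0) : ∃ q, Btw D x q y ∧ Btw D z q w := by
  obtain ⟨A, hA, h⟩ := H.arc x hx y hy
  obtain ⟨A', hA', h'⟩ := H.arc z hz w hw
  obtain ⟨q, hq, -⟩ := H.meet hA hA' h h' cx cy cz cw Lat.zero hd
  exact ⟨q, ⟨A, hA, h, hq.1⟩, ⟨A', hA', h', hq.2⟩⟩

theorem Ctx.unimod (H : Ctx D a c) (hx : x ∈ D) (hy : y ∈ D) (hz : z ∈ D) (cx : x ∈ Cone)
    (cy : y ∈ Cone) (cz : z ∈ Cone) (hC : ∀ q ∈ D, q ∈ Cone → q = x ∨ q = y ∨ q = z ∨ q = w)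
    (hw : ¬ (Btw D x w y ∧ Btw D x w z)) : |det (2 * (y - x)) (2 * (z - x))| ≤ 1 := by
  by_cases hd : det (2 * (y - x)) (2 * (z - x)) = 0
  · rw [hd]
    simp
  obtain ⟨A, hA, h⟩ := H.arc x hx y hy
  obtain ⟨A', hA', h'⟩ := H.arc x hx z hz
  have := Idx.det_le_card {0} (two_sub cx cy) (two_sub cx cz) fun l hl => by
    obtain ⟨q, hq, e, e', i, j, he, he', h4⟩ := H.meet hA hA' h h' cx cy cx cz hl hd
    refine ⟨0, by simp, ?_⟩
    have key : ∀ k : ℂ, k ∈ Lat → 2 * q = k → q = x ∨ q = y ∨ q = z := fun k hk hq2 => by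
      rcases hC q (hA hq.1) (show 2 * q ∈ Lat from hq2 ▸ hk) with h | h | h | h
      · exact Or.inl h
      · exact Or.inr (Or.inl h)
      · exact Or.inr (Or.inr h)
      · exact (hw ⟨⟨A, hA, ‹_›, h ▸ hq.1⟩, ⟨A', hA', h', h ▸ hq.2⟩⟩).elim
    have lu := lat_int_mul (two_sub cx cy) i
    have lv := lat_int_mul (two_sub cx cz) j
    rcases he with rfl | rfl <;> rcases he' with rfl | rfl <;> push_cast at h4
    · exact ⟨i, -j, by push_cast; linear_combination -h4⟩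
    · rcases key _ (Lat.sub (Lat.sub (Lat.add cz lv) lu) hl) (by linear_combination h4) with
        rfl | rfl | rfl
      · exact ⟨i, -j - 1, by push_cast; linear_combination -h4⟩
      · exact ⟨i + 1, -j - 1, by push_cast; linear_combination -h4⟩
      · exact ⟨i, -j, by push_cast; linear_combination -h4⟩
    · rcases key _ (Lat.sub (Lat.add (Lat.add cy lu) hl) lv) (by linear_combination -h4) with
        rfl | rfl | rfl
      · exact ⟨i + 1, -j, by push_cast; linear_combination -h4⟩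
      · exact ⟨i, -j, by push_cast; linear_combination -h4⟩
      · exact ⟨i + 1, -j - 1, by push_cast; linear_combination -h4⟩
    · exact ⟨i + 1, -j - 1, by push_cast; linear_combination -h4⟩
  simpa only [det, Finset.card_singleton, Nat.cast_one] using this

end Pool.Agent.P.MP_cb5d8b_an.Ex
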