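import Pool.Agent.P.MP_cb5d8b_an.Ex.Walk

/-! Counting the visits of a walk to the cone points of one type. -/

namespace Pool.Agent.P.MP_cb5d8b_an.Ex

open Set Plane

variable {D A : Set ℂ} {a c : ℤ} {x y z v w p : ℂ} {K : ℕ} {t τ : ℕ → ℂ} {e : ℕ → ℤ}

/-- at most `a ^ 2` classes modulo the lattice are mapped to the class of `p` -/
theorem card_le (ha : 2 ≤ a) (G : Finset ℂ) (h1 : ∀ z ∈ G, Bm a c z - p ∈ Lat)
    (h2 : ∀ z ∈ G, ∀ w ∈ G, z - w ∈ Lat → z = w) : (G.card : ℤ) ≤ a ^ 2 := by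
  have a0 : (0 : ℤ) < a := by omega
  have : ∀ z ∈ G, ∃ q ∈ Finset.Ico 0 a ×ˢ Finset.Ico 0 a, ∃ k l : ℤ,
      a * z.im = p.im + a * k + q.1 ∧ a * z.re + c * z.im = p.re + c * k + a * l + q.2 := by
    intro z hz
    obtain ⟨m, n, h1, h2⟩ := h1 z hz
    simp [Bm] at h1 h2
    refine ⟨(n % a, (m - c * (n / a)) % a), Finset.mem_product.2
      ⟨Finset.mem_Ico.2 ⟨Int.emod_nonneg _ a0.ne', Int.emod_lt_of_pos _ a0⟩,
        Finset.mem_Ico.2 ⟨Int.emod_nonneg _ a0.ne', Int.emod_lt_of_pos _ a0⟩⟩,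
      n / a, (m - c * (n / a)) / a, ?_, ?_⟩
    · have h3 : ((a * (n / a) + n % a : ℤ) : ℝ) = n := by rw [Int.mul_ediv_add_emod]
      push_cast at h3 ⊢
      linarith
    · have h3 : ((a * ((m - c * (n / a)) / a) + (m - c * (n / a)) % a : ℤ) : ℝ) =
          (m - c * (n / a) : ℤ) := by rw [Int.mul_ediv_add_emod]
      simp only
      generalize (m - c * (n / a)) / a = u at *
      generalize (m - c * (n / a)) % a = v at *
      generalize n / a = w at *
      push_cast at h3 ⊢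
      linarith
  choose! q hq hkl using this
  have key := Finset.card_le_card_of_injOn (s := G) (t := Finset.Ico 0 a ×ˢ Finset.Ico 0 a) q
    (fun z hz => hq z hz) fun z hz w hw hzw => by
      obtain ⟨k, l, h3, h4⟩ := hkl z hz
      obtain ⟨k', l', h3', h4'⟩ := hkl w hw
      rw [hzw] at h3 h4
      have a1 : (a : ℝ) ≠ 0 := by exact_mod_cast a0.ne'
      have e1 : z.im - w.im = k - k' := mul_left_cancel₀ a1 (by linarith)
      have e2 : z.re - w.re = l - l' :=
        mul_left_cancel₀ a1 (by linear_combination h4 - h4' - (c : ℝ) * e1)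
      exact h2 z hz w hw ⟨l - l', k - k', by simp [e2], by simp [e1]⟩
  rw [Finset.card_product, Int.card_Ico] at key
  zify at key
  rw [Int.toNat_of_nonneg (by omega)] at key
  nlinarith

open Classical in
theorem count (ha : 2 ≤ a) (hp : p ∈ Cone) (F : Finset ℂ) (h1 : ∀ z ∈ F, Bm a c z - p ∈ Lat)
    (h2 : ∀ z ∈ F, ∀ w ∈ F, Rel z w → z = w) :
    2 * (F.card : ℤ) ≤ a ^ 2 + (F.filter (· ∈ Cone)).card := by
  set N := F.filter (· ∉ Cone) with hN
  have hd : Disjoint F (N.image fun z => -z) := by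
    rw [Finset.disjoint_right]
    intro z hz hzF
    obtain ⟨w, hw, rfl⟩ := Finset.mem_image.1 hz
    obtain ⟨hw1, hw2⟩ := Finset.mem_filter.1 hw
    have := h2 w hw1 (-w) hzF (Or.inr (by simpa using Lat.zero))
    refine hw2 ?_
    show 2 * w ∈ Lat
    rw [show 2 * w = w - -w by ring, ← this, sub_self]
    exact Lat.zero
  have key := card_le (c := c) (p := p) ha (F ∪ N.image fun z => -z) (fun z hz => by
      rcases Finset.mem_union.1 hz with hz | hz
      · exact h1 z hz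
      · obtain ⟨w, hw, rfl⟩ := Finset.mem_image.1 hz
        rw [Bm_neg, show -Bm a c w - p = -(Bm a c w - p) - 2 * p by ring]
        exact Lat.sub (Lat.neg (h1 w (Finset.mem_filter.1 hw).1)) hp)
    fun z hz w hw h => by
      have mix : ∀ z ∈ F, ∀ w ∈ N, z - -w ∈ Lat → False := fun z hz w hw h => by
        obtain ⟨hw1, hw2⟩ := Finset.mem_filter.1 hw
        have h' : z + w ∈ Lat := by simpa using h
        obtain rfl := h2 z hz w hw1 (Or.inr h')
        exact hw2 (show 2 * z ∈ Lat by rwa [two_mul])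
      rcases Finset.mem_union.1 hz with hz | hz <;> rcases Finset.mem_union.1 hw with hw | hw
      · exact h2 z hz w hw (Or.inl h)
      · obtain ⟨w, hw', rfl⟩ := Finset.mem_image.1 hw
        exact (mix z hz w hw' h).elim
      · obtain ⟨z, hz', rfl⟩ := Finset.mem_image.1 hz
        exact (mix w hw z hz' (by simpa using Lat.neg h)).elim
      · obtain ⟨w, hw', rfl⟩ := Finset.mem_image.1 hw
        obtain ⟨z, hz', rfl⟩ := Finset.mem_image.1 hz
        rw [h2 z (Finset.mem_filter.1 hz').1 w (Finset.mem_filter.1 hw').1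
          (Or.inl (by simpa [add_comm, sub_eq_add_neg] using Lat.neg h))]
  rw [Finset.card_union_of_disjoint hd, Finset.card_image_of_injective _ neg_injective] at key
  have := Finset.card_filter_add_card_filter_not (s := F) (· ∈ Cone)
  rw [← hN] at this
  push_cast at key
  omega

theorem Bm_cone_lat (ea : Even a) (ec : Even c) (hz : z ∈ Cone) : Bm a c z ∈ Lat := by
  obtain ⟨m, n, h1, h2⟩ := hz
  obtain ⟨a', rfl⟩ := ea
  obtain ⟨c', rfl⟩ := ec
  simp at h1 h2
  exact ⟨a' * m + c' * n, a' * n, by simp [Bm, ← h1, ← h2]; ring, by simp [Bm, ← h2]; ring⟩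

open Classical in
/-- the number of visits to the type `p` -/
noncomputable def vis (K : ℕ) (τ : ℕ → ℂ) (p : ℂ) : ℕ :=
  ((Finset.range (K + 1)).filter (τ · = p)).card

open Classical in
theorem Walk.count (H : Ctx D a c) (hA : A ⊆ D) (W : Walk D a c A x y K t τ e) (hp : p ∈ Cone)
    (M : Finset ℂ) (m1 : ∀ z ∈ M, Bm a c z - p ∈ Lat) (m2 : ∀ z ∈ M, ∀ w ∈ M, Rel z w → z = w)
    (m3 : ∀ z ∈ M, ∀ i ≤ K, ¬ Rel z (t i)) (C : Finset ℂ)
    (hC : ∀ z ∈ Cone, z ∈ M ∨ z ∈ D → Bm a c z - p ∈ Lat → z ∈ C) :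
    2 * ((vis K τ p : ℤ) + M.card) ≤ a ^ 2 + C.card := by
  set S := (Finset.range (K + 1)).filter (τ · = p) with hS
  have sm : ∀ i ∈ S, i ≤ K ∧ τ i = p := fun i hi => by
    simpa [hS, Nat.lt_succ_iff] using hi
  have hd : Disjoint (S.image t) M := by
    rw [Finset.disjoint_left]
    intro z hz hzM
    obtain ⟨i, hi, rfl⟩ := Finset.mem_image.1 hz
    exact m3 _ hzM i (sm i hi).1 (Rel.refl _)
  have rs : ∀ z w : ℂ, Rel z w → Rel w z := fun z w h =>
    h.imp (fun h => by simpa using Lat.neg h) fun h => by rwa [add_comm]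
  have f1 : ∀ z ∈ S.image t ∪ M, Bm a c z - p ∈ Lat := fun z hz => by
    rcases Finset.mem_union.1 hz with hz | hz
    · obtain ⟨i, hi, rfl⟩ := Finset.mem_image.1 hz
      exact (sm i hi).2 ▸ (W.ty i (sm i hi).1).2.2
    · exact m1 z hz
  have key := Ex.count (c := c) H.ha hp (S.image t ∪ M) f1 fun z hz w hw h => by
    rcases Finset.mem_union.1 hz with hz | hz <;> rcases Finset.mem_union.1 hw with hw | hw
    · obtain ⟨i, hi, rfl⟩ := Finset.mem_image.1 hz
      obtain ⟨j, hj, rfl⟩ := Finset.mem_image.1 hw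
      exact H.inj _ (hA (W.mem i (sm i hi).1)) _ (hA (W.mem j (sm j hj).1)) h
    · obtain ⟨i, hi, rfl⟩ := Finset.mem_image.1 hz
      exact (m3 w hw i (sm i hi).1 (rs _ _ h)).elim
    · obtain ⟨i, hi, rfl⟩ := Finset.mem_image.1 hw
      exact (m3 z hz i (sm i hi).1 h).elim
    · exact m2 z hz w hw h
  rw [Finset.card_union_of_disjoint hd,
    Finset.card_image_of_injOn fun i hi j hj h => W.inj (sm i hi).1 (sm j hj).1 h] at key
  have : ((S.image t ∪ M).filter (· ∈ Cone)).card ≤ C.card := Finset.card_le_card fun z hz => by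
    obtain ⟨h1, h2⟩ := Finset.mem_filter.1 hz
    refine hC z h2 ?_ (f1 z h1)
    rcases Finset.mem_union.1 h1 with h1 | h1
    · obtain ⟨i, hi, rfl⟩ := Finset.mem_image.1 h1
      exact Or.inr (hA (W.mem i (sm i hi).1))
    · exact Or.inl h1
  unfold vis
  rw [← hS]
  push_cast at key
  omega

theorem not_lat (H : Ctx D a c) (hp : p ∉ Lat) (hz : z ∈ Cone) (h : Bm a c z - p ∈ Lat) : False :=
  hp (by simpa using Lat.sub (Bm_cone_lat H.ea H.ec hz) h)

theorem Walk.count1 (H : Ctx D a c) (hA : A ⊆ D) (W : Walk D a c A x y K t τ e) (hp : p ∈ Cone)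
    (hl : p ∉ Lat) : 2 * (vis K τ p : ℤ) ≤ a ^ 2 := by
  simpa using W.count H hA hp ∅ (by simp) (by simp) (by simp) ∅
    fun z hz _ h => (not_lat H hl hz h).elim

theorem Walk.count2 (H : Ctx D a c) (hA : A ⊆ D) (W : Walk D a c A x y K t τ e) (hp : p ∈ Cone)
    (hl : p ∉ Lat) (hz : Bm a c z - p ∈ Lat) (hn : ∀ i ≤ K, ¬ Rel z (t i)) :
    2 * (vis K τ p : ℤ) + 2 ≤ a ^ 2 := by
  have := W.count H hA hp {z} (by simpa using hz) (by simp) (by simpa using hn) ∅
    fun z hz _ h => (not_lat H hl hz h).elim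
  simp at this
  linarith

theorem Walk.count3 (H : Ctx D a c) (hA : A ⊆ D) (W : Walk D a c A x y K t τ e) (hl : p ∈ Lat)
    {p₁ p₂ p₃ p₄ : ℂ} (hC : ∀ z ∈ D, z ∈ Cone → z = p₁ ∨ z = p₂ ∨ z = p₃ ∨ z = p₄)
    (M : Finset ℂ) (hM : ∀ z ∈ M, z ∈ D ∧ z ∈ Cone ∧ z ∉ A) :
    2 * ((vis K τ p : ℤ) + M.card) ≤ a ^ 2 + 4 := by
  classical
  have := W.count H hA (p := p) (show 2 * p ∈ Lat by rw [two_mul]; exact Lat.add hl hl) M
    (fun z hz => Lat.sub (Bm_cone_lat H.ea H.ec (hM z hz).2.1) hl)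
    (fun z hz w hw => H.inj z (hM z hz).1 w (hM w hw).1)
    (fun z hz i hi h => (hM z hz).2.2 (H.inj z (hM z hz).1 _ (hA (W.mem i hi)) h ▸ W.mem i hi))
    {p₁, p₂, p₃, p₄} fun z hz h _ => by
      simpa using hC z (h.elim (fun h => (hM z h).1) id) hz
  have h4 : ({p₁, p₂, p₃, p₄} : Finset ℂ).card ≤ 4 := Finset.card_le_four
  omega

theorem vis_sum {p₁ p₂ p₃ p₄ : ℂ} (h : ∀ i ≤ K, τ i = p₁ ∨ τ i = p₂ ∨ τ i = p₃ ∨ τ i = p₄) :
    K + 1 ≤ vis K τ p₁ + vis K τ p₂ + vis K τ p₃ + vis K τ p₄ := by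
  classical
  unfold vis
  refine le_trans ?_ (Nat.add_le_add_right ((Finset.card_union_le _ _).trans
    (Nat.add_le_add_right (Finset.card_union_le _ _) _)) _)
  refine le_trans ?_ (Finset.card_union_le _ _)
  refine (Finset.card_range (K + 1)).ge.trans (Finset.card_le_card fun i hi => ?_)
  have := h i (Nat.lt_succ_iff.1 (Finset.mem_range.1 hi))
  simp only [Finset.mem_union, Finset.mem_filter, hi, true_and]
  tauto

theorem vis_zero (h : ∀ i ≤ K, τ i ≠ p) : vis K τ p = 0 := by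
  unfold vis
  rw [Finset.card_eq_zero, Finset.filter_eq_empty_iff]
  exact fun i hi => h i (Nat.lt_succ_iff.1 (Finset.mem_range.1 hi))

/-- a type all of whose visits are surrounded by visits of the type `y` -/
theorem vis_pair (h0 : τ 0 ≠ x) (hK : τ K ≠ x) (h1 : ∀ i < K, τ i = x → τ (i + 1) = y)
    (h2 : ∀ i < K, τ (i + 1) = x → τ i = y) : vis K τ x = 0 ∨ vis K τ x + 1 ≤ vis K τ y := by
  classical
  by_cases hex : ∃ i, i ≤ K ∧ τ i = x
  swap
  · exact Or.inl (vis_zero fun i hi h => hex ⟨i, hi, h⟩)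
  right
  obtain ⟨hi0, hx0⟩ := Nat.find_spec hex
  have hmin := fun j => Nat.find_min hex (m := j)
  generalize Nat.find hex = i₀ at *
  obtain ⟨j, rfl⟩ : ∃ j, i₀ = j + 1 := ⟨i₀ - 1, by
    rcases i₀ with _ | i₀
    · exact absurd hx0 h0
    · rfl⟩
  unfold vis
  set S := (Finset.range (K + 1)).filter (τ · = x) with hS
  have sm : ∀ i ∈ S, i ≤ K ∧ τ i = x := fun i hi => by simpa [hS, Nat.lt_succ_iff] using hi
  have hj : j ∉ S.image (· + 1) := fun h => by
    obtain ⟨i, hi, rfl⟩ := Finset.mem_image.1 h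
    exact hmin i (by omega) (sm i hi)
  rw [← Finset.card_image_of_injective S (add_left_injective 1), ← Finset.card_insert_of_notMem hj]
  refine Finset.card_le_card fun i hi => ?_
  rw [Finset.mem_filter, Finset.mem_range]
  rcases Finset.mem_insert.1 hi with rfl | hi
  · exact ⟨by omega, h2 _ (by omega) hx0⟩
  · obtain ⟨i, hi', rfl⟩ := Finset.mem_image.1 hi
    have : i ≠ K := fun h => hK (h ▸ (sm i hi').2)
    have := (sm i hi').1
    exact ⟨by omega, h1 i (by omega) (sm i hi').2⟩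

theorem sum_pair (u : ℕ → ℝ) (K : ℕ) : ∑ i ∈ Finset.range K, (u i + u (i + 1)) =
    2 * ∑ i ∈ Finset.range (K + 1), u i - u 0 - u K := by
  induction K with
  | zero => simp; ring
  | succ K ih =>
    rw [Finset.sum_range_succ, ih, Finset.sum_range_succ _ (K + 1)]
    ring

open Classical in
theorem sum_ind (K : ℕ) (τ : ℕ → ℂ) (p : ℂ) :
    ∑ i ∈ Finset.range (K + 1), (if τ i = p then (1 : ℝ) else 0) = vis K τ p := by
  simp [vis]

end Pool.Agent.P.MP_cb5d8b_an.Ex
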