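import Pool.Agent.P.MP_cb5d8b_an.Ex.Iface

/-! The self-affine curve across the strip. -/

namespace Pool.Agent.P.MP_cb5d8b_an.Ex

open Set

theorem exists_pl (v : ℕ → ℝ) (m : ℕ) : ∃ L : ℝ → ℝ, Continuous L ∧
    (∀ τ, (m : ℝ) ≤ τ → L τ = v m) ∧
    ∀ n < m, ∀ u ∈ Icc (0 : ℝ) 1, L (n + u) = v n + (v (n + 1) - v n) * u := by
  induction m with
  | zero => exact ⟨fun _ => v 0, continuous_const, fun _ _ => rfl, fun n hn => by omega⟩
  | succ m ih =>
    obtain ⟨L, h1, h2, h3⟩ := ih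
    refine ⟨fun τ => L τ + (v (m + 1) - v m) * max 0 (min 1 (τ - m)), by fun_prop, ?_, ?_⟩
    · intro τ hτ
      push_cast at hτ
      show L τ + _ = _
      rw [h2 τ (by linarith), min_eq_left (by linarith), max_eq_right zero_le_one]
      ring
    · intro n hn u hu
      show L _ + _ = _
      rcases Nat.lt_succ_iff_lt_or_eq.1 hn with h | rfl
      · have : (n : ℝ) + 1 ≤ m := by exact_mod_cast h
        rw [h3 n h u hu, max_eq_left (min_le_of_right_le (by linarith [hu.2]))]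
        ring
      · rw [h2 _ (by linarith [hu.1]), add_sub_cancel_left, min_eq_right hu.2, max_eq_right hu.1]

theorem exists_fixed {a : ℝ} (ha : 2 ≤ a) {Q e σ : ℝ → ℝ} (hQ : Continuous Q) (he : Continuous e)
    (hσ : Continuous σ) (he1 : ∀ t ∈ Icc (0 : ℝ) 1, |e t| ≤ 1)
    (hσ1 : ∀ t ∈ Icc (0 : ℝ) 1, σ t ∈ Icc (0 : ℝ) 1) :
    ∃ u : ℝ → ℝ, Continuous u ∧ ∀ t ∈ Icc (0 : ℝ) 1, a * u t = Q t + e t * u (σ t) := by
  let T : C(Icc (0 : ℝ) 1, ℝ) → C(Icc (0 : ℝ) 1, ℝ) := fun u =>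
    ⟨fun t => (Q t + e t * u ⟨σ t, hσ1 t t.2⟩) / a, by fun_prop⟩
  have hT : ContractingWith (1 / 2) T := by
    refine ⟨by norm_num, LipschitzWith.of_dist_le_mul fun u v => ?_⟩
    refine (ContinuousMap.dist_le (by positivity)).2 fun t => ?_
    have h1 := ContinuousMap.dist_apply_le_dist (f := u) (g := v) ⟨σ t, hσ1 t t.2⟩
    rw [Real.dist_eq] at h1 ⊢
    show |(Q t + e t * u ⟨σ t, hσ1 t t.2⟩) / a - (Q t + e t * v ⟨σ t, hσ1 t t.2⟩) / a| ≤ _
    rw [← sub_div, add_sub_add_left_eq_sub, ← mul_sub, abs_div, abs_mul,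
      abs_of_pos (by linarith : 0 < a), div_le_iff₀ (by linarith)]
    have h2 := he1 t t.2
    have h3 := abs_nonneg (u ⟨σ t, hσ1 t t.2⟩ - v ⟨σ t, hσ1 t t.2⟩)
    have h4 : (0 : ℝ) ≤ dist u v := dist_nonneg
    push_cast
    nlinarith
  let u := hT.fixedPoint T
  have hu : T u = u := hT.fixedPoint_isFixedPt
  refine ⟨IccExtend zero_le_one u, u.continuous.Icc_extend', fun t ht => ?_⟩
  rw [IccExtend_of_mem _ _ ht, IccExtend_of_mem _ _ (hσ1 t ht)]
  have : (Q t + e t * u ⟨σ t, hσ1 t ht⟩) / a = u ⟨t, ht⟩ := congrArg (fun w => w ⟨t, ht⟩) hu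
  rw [← this]
  field_simp

theorem lapL {m : ℕ} {M t : ℝ} (hM : M = m) (hm : 1 ≤ m) (ht : t ∈ Ico (0 : ℝ) 1) :
    ∃ n < m, ∃ u ∈ Ico (0 : ℝ) 1, t = (n + u) / M := by
  have h0 : (0 : ℝ) < m := by exact_mod_cast hm
  have h1 : 0 ≤ m * t := mul_nonneg h0.le ht.1
  refine ⟨⌊m * t⌋₊, (Nat.floor_lt h1).2 (by nlinarith [ht.2]), m * t - ⌊m * t⌋₊,
    ⟨by linarith [Nat.floor_le h1], by linarith [Nat.lt_floor_add_one (m * t)]⟩, ?_⟩
  rw [hM]
  field_simp
  ring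

theorem lapR {m : ℕ} {M t : ℝ} (hM : M = m) (hm : 1 ≤ m) (ht : t ∈ Ioc (0 : ℝ) 1) :
    ∃ n < m, ∃ u ∈ Ioc (0 : ℝ) 1, t = (n + u) / M := by
  have h0 : (0 : ℝ) < m := by exact_mod_cast hm
  obtain ⟨n, hn, u, hu, e⟩ := lapL (t := 1 - t) hM hm ⟨by linarith [ht.2], by linarith [ht.1]⟩
  obtain ⟨k, rfl⟩ : ∃ k, m = n + k + 1 := ⟨m - n - 1, by omega⟩
  refine ⟨k, by omega, 1 - u, ⟨by linarith [hu.2], by linarith [hu.1]⟩, ?_⟩
  rw [hM] at e ⊢
  rw [eq_div_iff h0.ne'] at e ⊢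
  push_cast at e ⊢
  linarith

theorem lap {m : ℕ} {M t : ℝ} (hM : M = m) (hm : 1 ≤ m) (ht : t ∈ Icc (0 : ℝ) 1) :
    ∃ n < m, ∃ u ∈ Icc (0 : ℝ) 1, t = (n + u) / M := by
  rcases ht.2.lt_or_eq with h | h
  · obtain ⟨n, hn, u, hu, e⟩ := lapL hM hm ⟨ht.1, h⟩
    exact ⟨n, hn, u, Ico_subset_Icc_self hu, e⟩
  · obtain ⟨n, hn, u, hu, e⟩ := lapR (t := t) hM hm ⟨by linarith, h.le⟩
    exact ⟨n, hn, u, Ioc_subset_Icc_self hu, e⟩

theorem lap_mem {m n : ℕ} {M u : ℝ} (hM : M = m) (hn : n < m) (hu : u ∈ Icc (0 : ℝ) 1) :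
    (n + u) / M ∈ Icc (0 : ℝ) 1 := by
  have h1 : (n : ℝ) + 1 ≤ m := by exact_mod_cast hn
  have h2 : (0 : ℝ) ≤ n := n.cast_nonneg
  rw [hM]
  exact ⟨div_nonneg (by linarith [hu.1]) (by linarith),
    (div_le_one (by linarith)).2 (by linarith [hu.2])⟩

/-- The three kinds of lap. -/
def Lap (M a c s : ℝ) (x y : ℝ → ℝ) (n : ℕ) : Prop :=
  (∃ P Q : ℤ, (n : ℤ) = 4 * Q ∧ ∀ u ∈ Icc (0 : ℝ) 1,
    a * y ((n + u) / M) = Q + y u ∧
    a * x ((n + u) / M) + c * y ((n + u) / M) = P + x u) ∨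
  (∃ P Q : ℤ, (n : ℤ) + 2 = 4 * Q ∧ ∀ u ∈ Icc (0 : ℝ) 1,
    a * y ((n + u) / M) = Q - y (1 - u) ∧
    a * x ((n + u) / M) + c * y ((n + u) / M) = P - x (1 - u)) ∨
  (∃ (K : ℤ) (q : ℝ), (n : ℤ) + 1 = 2 * K ∧ ∀ u ∈ Icc (0 : ℝ) 1,
    2 * (a * y ((n + u) / M)) = K ∧
    a * x ((n + u) / M) + c * y ((n + u) / M) = q + s * u)

theorem exists_laps (b : ℕ) (hb : 1 ≤ b) (e : ℤ) : ∃ x y : ℝ → ℝ, Continuous x ∧ Continuous y ∧
    y 0 = 0 ∧ y 1 = 1 / 2 ∧
    ∀ n < 4 * b - 1, Lap (2 * (2 * b) - 1) (2 * b) (2 * e) (e / (2 * b - 1)) x y n := by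
  have b1 : (1 : ℝ) ≤ b := by exact_mod_cast hb
  have hM : (2 * (2 * b) - 1 : ℝ) = (4 * b - 1 : ℕ) := by
    rw [Nat.cast_sub (by omega)]; push_cast; ring
  have hm : 1 ≤ 4 * b - 1 := by omega
  generalize hMd : (2 * (2 * b) - 1 : ℝ) = M at hM ⊢
  replace hMd := hMd.symm
  have M0 : 0 < M := by rw [hMd]; linarith
  obtain ⟨S, S1, -, S2⟩ := exists_pl (fun n => if n % 4 = 1 ∨ n % 4 = 2 then 1 else 0) (4 * b - 1)
  obtain ⟨E, E1, -, E2⟩ := exists_pl (fun n => if n % 4 < 2 then 1 else -1) (4 * b - 1)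
  obtain ⟨Y, Y1, -, Y2⟩ := exists_pl (fun n => ((n + 2) / 4 : ℕ)) (4 * b - 1)
  obtain ⟨X, X1, -, X2⟩ := exists_pl (fun n => (b - (n / 4 : ℕ)) * e) (4 * b - 1)
  have mul : ∀ w : ℝ, M * (w / M) = w := fun w => by field_simp
  have he : ∀ t ∈ Icc (0 : ℝ) 1, |E (M * t)| ≤ 1 := by
    intro t ht
    obtain ⟨n, hn, u, hu, rfl⟩ := lap hM hm ht
    rw [mul, E2 n hn u hu, abs_le]
    have := hu.1
    have := hu.2
    split_ifs <;> constructor <;> linarith
  have hs : ∀ t ∈ Icc (0 : ℝ) 1, S (M * t) ∈ Icc (0 : ℝ) 1 := by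
    intro t ht
    obtain ⟨n, hn, u, hu, rfl⟩ := lap hM hm ht
    rw [mul, S2 n hn u hu]
    have := hu.1
    have := hu.2
    split_ifs <;> constructor <;> linarith
  obtain ⟨y, y1, y2⟩ := exists_fixed (a := 2 * b) (by linarith) (Q := fun t => Y (M * t))
    (e := fun t => E (M * t)) (σ := fun t => S (M * t)) (by fun_prop) (by fun_prop) (by fun_prop)
    he hs
  obtain ⟨x, x1, x2⟩ := exists_fixed (a := 2 * b) (by linarith)
    (Q := fun t => X (M * t) - 2 * e * y t)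
    (e := fun t => E (M * t)) (σ := fun t => S (M * t)) (by fun_prop) (by fun_prop) (by fun_prop)
    he hs
  have key : ∀ n < 4 * b - 1, ∀ u ∈ Icc (0 : ℝ) 1,
      2 * b * y ((n + u) / M) = Y (n + u) + E (n + u) * y (S (n + u)) ∧
      2 * b * x ((n + u) / M) + 2 * e * y ((n + u) / M) =
        X (n + u) + E (n + u) * x (S (n + u)) := by
    intro n hn u hu
    have h1 := y2 _ (lap_mem hM hn hu)
    have h2 := x2 _ (lap_mem hM hn hu)
    simp only [mul] at h1 h2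
    exact ⟨h1, by linarith⟩
  have kA : ∀ n j : ℕ, n = 4 * j → n < 4 * b - 1 → ∀ u ∈ Icc (0 : ℝ) 1,
      2 * b * y ((n + u) / M) = j + y u ∧
      2 * b * x ((n + u) / M) + 2 * e * y ((n + u) / M) = (b - j) * e + x u := by
    intro n j hj hn u hu
    have := key n hn u hu
    rw [S2 n hn u hu, E2 n hn u hu, Y2 n hn u hu, X2 n hn u hu] at this
    simp only [show n % 4 = 0 by omega, show (n + 1) % 4 = 1 by omega, show (n + 2) / 4 = j by omega,
      show (n + 1 + 2) / 4 = j by omega, show n / 4 = j by omega,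
      show (n + 1) / 4 = j by omega] at this
    simpa using this
  have kB : ∀ n j : ℕ, n = 4 * j + 1 → n < 4 * b - 1 → ∀ u ∈ Icc (0 : ℝ) 1,
      2 * b * y ((n + u) / M) = j + u + (1 - 2 * u) * y 1 ∧
      2 * b * x ((n + u) / M) + 2 * e * y ((n + u) / M) = (b - j) * e + (1 - 2 * u) * x 1 := by
    intro n j hj hn u hu
    have := key n hn u hu
    rw [S2 n hn u hu, E2 n hn u hu, Y2 n hn u hu, X2 n hn u hu] at this
    simp only [show n % 4 = 1 by omega, show (n + 1) % 4 = 2 by omega, show (n + 2) / 4 = j by omega,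
      show (n + 1 + 2) / 4 = j + 1 by omega, show n / 4 = j by omega,
      show (n + 1) / 4 = j by omega] at this
    norm_num at this
    exact ⟨by linarith [this.1], by linarith [this.2]⟩
  have kC : ∀ n j : ℕ, n = 4 * j + 2 → n < 4 * b - 1 → ∀ u ∈ Icc (0 : ℝ) 1,
      2 * b * y ((n + u) / M) = j + 1 - y (1 - u) ∧
      2 * b * x ((n + u) / M) + 2 * e * y ((n + u) / M) = (b - j) * e - x (1 - u) := by
    intro n j hj hn u hu
    have := key n hn u hu
    rw [S2 n hn u hu, E2 n hn u hu, Y2 n hn u hu, X2 n hn u hu] at this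
    simp only [show n % 4 = 2 by omega, show (n + 1) % 4 = 3 by omega,
      show (n + 2) / 4 = j + 1 by omega,
      show (n + 1 + 2) / 4 = j + 1 by omega, show n / 4 = j by omega,
      show (n + 1) / 4 = j by omega] at this
    norm_num [← sub_eq_add_neg] at this
    exact ⟨by linarith [this.1], by linarith [this.2]⟩
  have kD : ∀ n j : ℕ, n = 4 * j + 3 → n < 4 * b - 1 → ∀ u ∈ Icc (0 : ℝ) 1,
      2 * b * y ((n + u) / M) = j + 1 + (2 * u - 1) * y 0 ∧
      2 * b * x ((n + u) / M) + 2 * e * y ((n + u) / M) = (b - j - u) * e + (2 * u - 1) * x 0 := by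
    intro n j hj hn u hu
    have := key n hn u hu
    rw [S2 n hn u hu, E2 n hn u hu, Y2 n hn u hu, X2 n hn u hu] at this
    simp only [show n % 4 = 3 by omega, show (n + 1) % 4 = 0 by omega,
      show (n + 2) / 4 = j + 1 by omega,
      show (n + 1 + 2) / 4 = j + 1 by omega, show n / 4 = j by omega,
      show (n + 1) / 4 = j + 1 by omega] at this
    norm_num at this
    exact ⟨by linarith [this.1], by linarith [this.2]⟩
  have i0 : (0 : ℝ) ∈ Icc (0 : ℝ) 1 := left_mem_Icc.2 zero_le_one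
  have i1 : (1 : ℝ) ∈ Icc (0 : ℝ) 1 := right_mem_Icc.2 zero_le_one
  have a0 := kA 0 0 rfl (by omega) 0 i0
  simp only [Nat.cast_zero, add_zero, zero_div, zero_add, sub_zero] at a0
  have y0 : y 0 = 0 := by
    have : (2 * b - 1) * y 0 = 0 := by linarith [a0.1]
    exact (mul_eq_zero.1 this).resolve_left (by linarith)
  obtain ⟨d, rfl⟩ : ∃ d, b = d + 1 := ⟨b - 1, by omega⟩
  have c1 := kC (4 * d + 2) d rfl (by omega) 1 i1
  rw [show (((4 * d + 2 : ℕ) : ℝ) + 1) / M = 1 by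
    rw [div_eq_one_iff_eq M0.ne', hMd]; push_cast; ring, sub_self] at c1
  have d0 : (0 : ℝ) ≤ d := d.cast_nonneg
  push_cast at a0 c1 b1
  have y1' : y 1 = 1 / 2 := by
    have : (d + 1) * (2 * y 1 - 1) = 0 := by linarith [c1.1]
    linarith [(mul_eq_zero.1 this).resolve_left (by linarith)]
  set s : ℝ := e / (2 * ((d + 1 : ℕ) : ℝ) - 1) with hsd
  have hs' : (e : ℝ) = (2 * d + 1) * s := by
    rw [hsd]; push_cast
    rw [show 2 * ((d : ℝ) + 1) - 1 = 2 * d + 1 by ring]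
    field_simp
  have x0 : x 0 = (d + 1) * s := by
    have : (2 * d + 1) * (x 0 - (d + 1) * s) = 0 := by
      have := a0.2
      rw [y0, hs'] at this
      linarith
    linarith [(mul_eq_zero.1 this).resolve_left (by linarith)]
  have x1' : x 1 = -s / 2 := by
    have : (d + 1) * (2 * x 1 + s) = 0 := by
      have := c1.2
      rw [y1', x0] at this
      linarith
    linarith [(mul_eq_zero.1 this).resolve_left (by linarith)]
  refine ⟨x, y, x1, y1, y0, y1', fun n hn => ?_⟩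
  have h4 : n = 4 * (n / 4) ∨ n = 4 * (n / 4) + 1 ∨ n = 4 * (n / 4) + 2 ∨ n = 4 * (n / 4) + 3 := by
    omega
  generalize n / 4 = j at h4
  rcases h4 with h | h | h | h
  · refine Or.inl ⟨((d + 1 : ℕ) - j) * e, j, by omega, fun u hu => ?_⟩
    simpa using kA n j h hn u hu
  · refine Or.inr (Or.inr ⟨2 * j + 1, ((d + 1 : ℕ) - j) * e - s / 2, by omega, fun u hu => ?_⟩)
    have := kB n j h hn u hu
    rw [y1', x1'] at this
    exact ⟨by push_cast at this ⊢; linarith [this.1], by linarith [this.2]⟩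
  · refine Or.inr (Or.inl ⟨((d + 1 : ℕ) - j) * e, j + 1, by omega, fun u hu => ?_⟩)
    simpa using kC n j h hn u hu
  · refine Or.inr (Or.inr ⟨2 * j + 2, ((d + 1 : ℕ) - j) * e - (d + 1) * s, by omega,
      fun u hu => ?_⟩)
    have := kD n j h hn u hu
    rw [y0, x0] at this
    refine ⟨by push_cast at this ⊢; linarith [this.1], ?_⟩
    rw [this.2]
    linear_combination (-u) * hs'

theorem halve {ι : Type} {f : ι → ℝ} {C : ℝ} (hC : 0 ≤ C) (h0 : ∀ i, f i ≤ C)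
    (h : ∀ B, 0 ≤ B → (∀ i, f i ≤ B) → ∀ i, f i ≤ B / 2) (i : ι) : f i ≤ 0 := by
  have key : ∀ j : ℕ, ∀ i, f i ≤ C * (1 / 2) ^ j := by
    intro j
    induction j with
    | zero => simpa using h0
    | succ j ih =>
      intro i
      have := h _ (by positivity) ih i
      rw [pow_succ]
      linarith
  have lim : Filter.Tendsto (fun j : ℕ => C * (1 / 2 : ℝ) ^ j) Filter.atTop (nhds (C * 0)) :=
    (tendsto_pow_atTop_nhds_zero_of_lt_one (by norm_num) (by norm_num)).const_mul C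
  rw [mul_zero] at lim
  exact ge_of_tendsto' lim fun j => key j i

/-- The data produced by the contraction. -/
structure Laps (m : ℕ) (M a c s : ℝ) (x y : ℝ → ℝ) : Prop where
  ha : 2 ≤ a
  hM : M = m
  hMa : M = 2 * a - 1
  m4 : m % 4 = 3
  cy : Continuous y
  y0 : y 0 = 0
  y1 : y 1 = 1 / 2
  lap : ∀ n < m, Lap M a c s x y n

namespace Laps

variable {m : ℕ} {M a c s : ℝ} {x y : ℝ → ℝ} (h : Laps m M a c s x y)
include h

theorem m3 : 3 ≤ m := by
  have : (3 : ℝ) ≤ m := by linarith [h.ha, h.hM, h.hMa]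
  exact_mod_cast this

theorem M3 : 3 ≤ M := by linarith [h.ha, h.hMa]

theorem top {n : ℕ} (hn : n < m) : (n : ℝ) + 2 ≤ 2 * a := by
  have : (n : ℝ) + 1 ≤ m := by exact_mod_cast hn
  linarith [h.hM, h.hMa]

theorem bound {t : ℝ} (ht : t ∈ Icc (0 : ℝ) 1) : 0 ≤ y t ∧ y t ≤ 1 / 2 := by
  obtain ⟨C, hC⟩ := isCompact_Icc.exists_bound_of_continuousOn (s := Icc (0 : ℝ) 1)
    h.cy.continuousOn
  have C0 : 0 ≤ C := (norm_nonneg _).trans (hC t ht)
  have a2 := h.ha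
  have := halve (f := fun t : Icc (0 : ℝ) 1 => max (-y t) (y t - 1 / 2)) C0 (fun t => by
    have := abs_le.1 (hC t t.2)
    exact max_le (by linarith [this.1]) (by linarith [this.2])) (fun B B0 hB t => by
    obtain ⟨n, hn, u, hu, e⟩ := Ex.lap h.hM (by linarith [h.m3]) t.2
    have n0 : (0 : ℝ) ≤ n := n.cast_nonneg
    have n1 := h.top hn
    have hh : -B ≤ a * y t ∧ a * y t ≤ a / 2 + B := by
      rw [e]
      rcases h.lap n hn with ⟨P, Q, e1, e2⟩ | ⟨P, Q, e1, e2⟩ | ⟨K, q, e1, e2⟩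
      · have b := max_le_iff.1 (hB ⟨u, hu⟩)
        have e1 : (n : ℝ) = 4 * Q := by exact_mod_cast e1
        rw [(e2 u hu).1]
        constructor <;> linarith [b.1, b.2]
      · have b := max_le_iff.1 (hB ⟨1 - u, by linarith [hu.2], by linarith [hu.1]⟩)
        have e1 : (n : ℝ) + 2 = 4 * Q := by exact_mod_cast e1
        rw [(e2 u hu).1]
        constructor <;> linarith [b.1, b.2]
      · have e1 : (n : ℝ) + 1 = 2 * K := by exact_mod_cast e1
        constructor <;> linarith [(e2 u hu).1]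
    refine max_le ?_ ?_ <;> by_contra hc <;> push Not at hc <;> nlinarith [hh.1, hh.2]) ⟨t, ht⟩
  have := max_le_iff.1 this
  constructor <;> linarith [this.1, this.2]

/-- The heights on one lap. -/
theorem band {n : ℕ} (hn : n < m) {u : ℝ} (hu : u ∈ Icc (0 : ℝ) 1) :
    ((((n : ℤ) + 1) / 2 : ℤ) : ℝ) ≤ 2 * (a * y ((n + u) / M)) ∧
      2 * (a * y ((n + u) / M)) ≤ (((n : ℤ) + 2) / 2 : ℤ) := by
  rcases h.lap n hn with ⟨P, Q, e1, e2⟩ | ⟨P, Q, e1, e2⟩ | ⟨K, q, e1, e2⟩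
  · have b := h.bound hu
    rw [(e2 u hu).1, show ((n : ℤ) + 1) / 2 = 2 * Q by omega,
      show ((n : ℤ) + 2) / 2 = 2 * Q + 1 by omega]
    push_cast
    constructor <;> linarith [b.1, b.2]
  · have b := h.bound (t := 1 - u) ⟨by linarith [hu.2], by linarith [hu.1]⟩
    rw [(e2 u hu).1, show ((n : ℤ) + 1) / 2 = 2 * Q - 1 by omega,
      show ((n : ℤ) + 2) / 2 = 2 * Q by omega]
    push_cast
    constructor <;> linarith [b.1, b.2]
  · rw [(e2 u hu).1, show ((n : ℤ) + 1) / 2 = K by omega, show ((n : ℤ) + 2) / 2 = K by omega]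
    exact ⟨le_rfl, le_rfl⟩

theorem cross {n n' : ℕ} (hn : n < n') (hn' : n' < m) {u u' : ℝ} (hu : u ∈ Icc (0 : ℝ) 1)
    (hu' : u' ∈ Icc (0 : ℝ) 1) : y ((n + u) / M) ≤ y ((n' + u') / M) := by
  have b1 := (h.band (hn.trans hn') hu).2
  have b2 := (h.band hn' hu').1
  have b3 : ((((n : ℤ) + 2) / 2 : ℤ) : ℝ) ≤ (((n' : ℤ) + 1) / 2 : ℤ) :=
    Int.cast_le.2 (by omega)
  exact le_of_mul_le_mul_left (by linarith) (by linarith [h.ha] : 0 < a)

theorem order {n n' : ℕ} {u u' : ℝ} (hu : u ∈ Ico (0 : ℝ) 1) (hu' : u' ∈ Ioc (0 : ℝ) 1)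
    (hl : (n + u) / M < (n' + u') / M) : n < n' ∨ (n = n' ∧ u < u') := by
  rw [div_lt_div_iff_of_pos_right (by linarith [h.M3])] at hl
  have : (n : ℝ) < n' + 1 := by linarith [hu.1, hu'.2]
  have : n < n' + 1 := by exact_mod_cast this
  rcases Nat.lt_succ_iff_lt_or_eq.1 this with h1 | rfl
  · exact Or.inl h1
  · exact Or.inr ⟨rfl, by linarith⟩

theorem two {p q : ℝ} (hp : p ∈ Icc (0 : ℝ) 1) (hq : q ∈ Icc (0 : ℝ) 1) (hl : p < q) :
    ∃ n < m, ∃ n' < m, ∃ u ∈ Ico (0 : ℝ) 1, ∃ u' ∈ Ioc (0 : ℝ) 1, p = (n + u) / M ∧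
      q = (n' + u') / M ∧ (n < n' ∨ (n = n' ∧ u < u')) := by
  obtain ⟨n, hn, u, hu, e⟩ := lapL (t := p) h.hM (by linarith [h.m3]) ⟨hp.1, hl.trans_le hq.2⟩
  obtain ⟨n', hn', u', hu', e'⟩ := lapR (t := q) h.hM (by linarith [h.m3]) ⟨hp.1.trans_lt hl, hq.2⟩
  exact ⟨n, hn, n', hn', u, hu, u', hu', e, e', h.order hu hu' (by rw [← e, ← e']; exact hl)⟩

theorem mono : MonotoneOn y (Icc 0 1) := by
  intro p hp q hq hl
  have a2 := h.ha
  have := halve (ι := {z : ℝ × ℝ // z.1 ∈ Icc (0 : ℝ) 1 ∧ z.2 ∈ Icc (0 : ℝ) 1 ∧ z.1 ≤ z.2})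
    (f := fun z => y z.1.1 - y z.1.2) (C := 1 / 2) (by norm_num)
    (fun z => by linarith [(h.bound z.2.1).2, (h.bound z.2.2.1).1]) (fun B B0 hB z => by
    obtain ⟨⟨p, q⟩, hp, hq, hl⟩ := z
    show y p - y q ≤ B / 2
    rcases (show p ≤ q from hl).lt_or_eq with hl | rfl
    swap
    · linarith
    obtain ⟨n, hn, n', hn', u, hu, u', hu', rfl, rfl, h1 | ⟨rfl, h1⟩⟩ := h.two hp hq hl
    · linarith [h.cross h1 hn' (Ico_subset_Icc_self hu) (Ioc_subset_Icc_self hu')]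
    replace hu := Ico_subset_Icc_self hu
    replace hu' := Ioc_subset_Icc_self hu'
    have hh : a * (y ((n + u) / M) - y ((n + u') / M)) ≤ B := by
      rcases h.lap n hn with ⟨P, Q, e1, e2⟩ | ⟨P, Q, e1, e2⟩ | ⟨K, q, e1, e2⟩
      · have b : y u - y u' ≤ B := hB ⟨(u, u'), hu, hu', h1.le⟩
        linarith [(e2 u hu).1, (e2 u' hu').1]
      · have b : y (1 - u') - y (1 - u) ≤ B := hB ⟨(1 - u', 1 - u),
          ⟨by linarith [hu'.2], by linarith [hu'.1]⟩, ⟨by linarith [hu.2], by linarith [hu.1]⟩,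
          by linarith⟩
        linarith [(e2 u hu).1, (e2 u' hu').1]
      · linarith [(e2 u hu).1, (e2 u' hu').1]
    by_contra hc
    push Not at hc
    nlinarith) ⟨(p, q), hp, hq, hl⟩
  linarith

theorem first {u : ℝ} (hu : u ∈ Icc (0 : ℝ) 1) : a * y (u / M) = y u := by
  rcases h.lap 0 (by linarith [h.m3]) with ⟨P, Q, e1, e2⟩ | ⟨P, Q, e1, e2⟩ | ⟨K, q, e1, e2⟩
  · obtain rfl : Q = 0 := by omega
    simpa using (e2 u hu).1
  · omega
  · omega

theorem small {t : ℝ} (ht : 0 < t) : ∃ j : ℕ, 1 < M ^ j * t := by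
  obtain ⟨j, hj⟩ := pow_unbounded_of_one_lt (1 / t) (by linarith [h.M3] : 1 < M)
  exact ⟨j, (div_lt_iff₀ ht).1 hj⟩

theorem pos {t : ℝ} (ht : t ∈ Ioc (0 : ℝ) 1) : 0 < y t := by
  obtain ⟨j, hj⟩ := h.small ht.1
  have M3 := h.M3
  have a2 := h.ha
  induction j generalizing t with
  | zero => simp at hj; linarith [ht.2]
  | succ j ih =>
    rcases le_total (M * t) 1 with h1 | h1
    · have b : M * t ∈ Ioc (0 : ℝ) 1 := ⟨mul_pos (by linarith) ht.1, h1⟩
      have e := h.first (Ioc_subset_Icc_self b)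
      rw [mul_div_cancel_left₀ _ (by linarith : M ≠ 0)] at e
      have := ih b (by rw [pow_succ] at hj; linarith)
      by_contra hc
      push Not at hc
      nlinarith
    · have e := h.first (right_mem_Icc.2 zero_le_one)
      have : y (1 / M) ≤ y t := h.mono ⟨by positivity, (div_le_one (by linarith)).2 (by linarith)⟩
        (Ioc_subset_Icc_self ht) ((div_le_iff₀ (by linarith)).2 (by linarith))
      rw [h.y1] at e
      by_contra hc
      push Not at hc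
      nlinarith

theorem last {n : ℕ} (hn : n + 1 = m) {u : ℝ} (hu : u ∈ Ico (0 : ℝ) 1) :
    y ((n + u) / M) < 1 / 2 := by
  have m4 := h.m4
  have a2 := h.ha
  rcases h.lap n (by omega) with ⟨P, Q, e1, e2⟩ | ⟨P, Q, e1, e2⟩ | ⟨K, q, e1, e2⟩
  · omega
  · have e1 : (n : ℝ) + 2 = 4 * Q := by exact_mod_cast e1
    have e3 : (n : ℝ) + 1 = m := by exact_mod_cast hn
    have := h.pos (t := 1 - u) ⟨by linarith [hu.2], by linarith [hu.1]⟩
    have e4 := (e2 u (Ico_subset_Icc_self hu)).1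
    exact lt_of_mul_lt_mul_left (by linarith [h.hM, h.hMa]) (by linarith : 0 ≤ a)
  · omega

theorem lt_half {t : ℝ} (ht : t ∈ Ico (0 : ℝ) 1) : y t < 1 / 2 := by
  have m3 := h.m3
  obtain ⟨n, hn, u, hu, rfl⟩ := lapL h.hM (by omega) ht
  rcases (show n + 1 = m ∨ n < m - 1 by omega) with h1 | h1
  · exact h.last h1 hu
  · exact (h.cross h1 (by omega) (Ico_subset_Icc_self hu) (left_mem_Icc.2 zero_le_one)).trans_lt
      (h.last (by omega) (left_mem_Ico.2 zero_lt_one))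

theorem cross_lt {n n' : ℕ} (hn : n < n') (hn' : n' < m) {u u' : ℝ} (hu : u ∈ Ico (0 : ℝ) 1)
    (hu' : u' ∈ Ioc (0 : ℝ) 1) : y ((n + u) / M) < y ((n' + u') / M) := by
  have v := Ico_subset_Icc_self hu
  have v' := Ioc_subset_Icc_self hu'
  have b1 := (h.band (hn.trans hn') v).2
  have b2 := (h.band hn' v').1
  have b3 : ((((n : ℤ) + 2) / 2 : ℤ) : ℝ) ≤ (((n' : ℤ) + 1) / 2 : ℤ) :=
    Int.cast_le.2 (by omega)
  refine lt_of_mul_lt_mul_left ?_ (by linarith [h.ha] : 0 ≤ a)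
  rcases h.lap n (hn.trans hn') with ⟨P, Q, e1, e2⟩ | ⟨P, Q, e1, e2⟩ | ⟨K, q, e1, e2⟩
  · rw [show ((n : ℤ) + 2) / 2 = 2 * Q + 1 by omega] at b3
    push_cast at b3
    linarith [(e2 u v).1, h.lt_half hu]
  · rw [show ((n : ℤ) + 2) / 2 = 2 * Q by omega] at b3
    push_cast at b3
    linarith [(e2 u v).1, h.pos (t := 1 - u) ⟨by linarith [hu.2], by linarith [hu.1]⟩]
  rcases h.lap n' hn' with ⟨P, Q, f1, f2⟩ | ⟨P, Q, f1, f2⟩ | ⟨K', q', f1, f2⟩
  · rw [show ((n' : ℤ) + 1) / 2 = 2 * Q by omega] at b3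
    push_cast at b3
    linarith [(f2 u' v').1, h.pos hu']
  · rw [show ((n' : ℤ) + 1) / 2 = 2 * Q - 1 by omega] at b3
    push_cast at b3
    linarith [(f2 u' v').1, h.lt_half (t := 1 - u') ⟨by linarith [hu'.2], by linarith [hu'.1]⟩]
  · have : (K : ℝ) < K' := Int.cast_lt.2 (by omega)
    linarith [(e2 u v).1, (f2 u' v').1]

theorem inj (s0 : s ≠ 0) (s1 : |s| < a) {p q : ℝ} (hp : p ∈ Icc (0 : ℝ) 1)
    (hq : q ∈ Icc (0 : ℝ) 1) (hl : p < q) (e : y p = y q) :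
    0 < |x p - x q| ∧ |x p - x q| < 1 := by
  obtain ⟨j, hj⟩ := h.small (sub_pos.2 hl)
  have M3 := h.M3
  have a2 := h.ha
  induction j generalizing p q with
  | zero => simp at hj; linarith [hp.1, hq.2]
  | succ j ih =>
    obtain ⟨n, hn, n', hn', u, hu, u', hu', rfl, rfl, h1 | ⟨rfl, h1⟩⟩ := h.two hp hq hl
    · exact absurd e (h.cross_lt h1 hn' hu hu').ne
    replace hu := Ico_subset_Icc_self hu
    replace hu' := Ioc_subset_Icc_self hu'
    have hj' : 1 < M ^ j * (u' - u) := by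
      rw [show M ^ j * (u' - u) = M ^ (j + 1) * ((n + u') / M - (n + u) / M) by
        field_simp; ring]
      exact hj
    have hh : ∃ w, a * (x ((n + u) / M) - x ((n + u') / M)) = w ∧ 0 < |w| ∧ |w| < a := by
      rcases h.lap n hn with ⟨P, Q, e1, e2⟩ | ⟨P, Q, e1, e2⟩ | ⟨K, q, e1, e2⟩
      · have f := e2 u hu
        have f' := e2 u' hu'
        rw [e] at f
        have b := ih hu hu' h1 (by linarith [f.1, f'.1]) hj'
        exact ⟨x u - x u', by linarith [f.2, f'.2], b.1, by linarith [b.2]⟩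
      · have f := e2 u hu
        have f' := e2 u' hu'
        rw [e] at f
        have b := ih (p := 1 - u') (q := 1 - u) ⟨by linarith [hu'.2], by linarith [hu'.1]⟩
          ⟨by linarith [hu.2], by linarith [hu.1]⟩ (by linarith) (by linarith [f.1, f'.1])
          (by rwa [sub_sub_sub_cancel_left])
        exact ⟨x (1 - u') - x (1 - u), by linarith [f.2, f'.2], b.1, by linarith [b.2]⟩
      · have f := e2 u hu
        have f' := e2 u' hu'
        rw [e] at f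
        refine ⟨s * (u - u'), by linarith [f.2, f'.2],
          abs_pos.2 (mul_ne_zero s0 (sub_ne_zero.2 h1.ne)), ?_⟩
        rw [abs_mul, abs_of_neg (sub_neg.2 h1)]
        nlinarith [abs_nonneg s, hu.1, hu'.2]
    obtain ⟨w, rfl, w1, w2⟩ := hh
    rw [abs_mul, abs_of_pos (by linarith : 0 < a)] at w1 w2
    exact ⟨(mul_pos_iff_of_pos_left (by linarith)).1 w1, by nlinarith⟩

end Laps

theorem straight (a : ℤ) : Rung a 0 (fun t => ⟨0, t / 2⟩) := by
  refine ⟨?_, by simp, by simp, fun s _ t _ h => by simp; linarith,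
    fun t ht => ⟨by simp [ht.1], by simp; linarith [ht.2]⟩, fun s _ t _ h e => ?_,
    fun t _ => Or.inr ?_⟩
  · exact Complex.equivRealProdCLM.symm.continuous.comp
      (f := fun t : ℝ => ((0 : ℝ), t / 2)) (by fun_prop)
  · simp at e
    exact absurd (by linarith) h
  · have f0 := Int.fract_nonneg (a * (t / 2))
    have f1 := Int.fract_lt_one (a * (t / 2))
    have f2 := Int.floor_add_fract (a * (t / 2))
    rcases le_total (Int.fract (a * (t / 2))) (1 / 2) with h | h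
    · refine ⟨2 * Int.fract (a * (t / 2)), ⟨by linarith, by linarith⟩,
        Or.inl ⟨0, ⌊a * (t / 2)⌋, by simp [Bm], ?_⟩⟩
      simp only [Bm, Complex.sub_im]
      linarith
    · refine ⟨2 - 2 * Int.fract (a * (t / 2)), ⟨by linarith, by linarith⟩,
        Or.inr ⟨0, ⌊a * (t / 2)⌋ + 1, by simp [Bm], ?_⟩⟩
      simp only [Bm, Complex.add_im]
      push_cast
      linarith

theorem p_CURVE : S_CURVE := by
  rintro a c ha ⟨b, hb⟩ ⟨e, rfl⟩ hc
  rcases eq_or_ne e 0 with rfl | e0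
  · exact ⟨_, by simpa using straight a⟩
  lift b to ℕ using by omega
  have b1 : 1 ≤ b := by omega
  have b2 : (1 : ℝ) ≤ b := by exact_mod_cast b1
  obtain ⟨x, y, x1, y1, y0, y2, hl⟩ := exists_laps b b1 e
  have h : Laps (4 * b - 1) (2 * (2 * b) - 1) (2 * b) (2 * e) (e / (2 * b - 1)) x y :=
    ⟨by linarith, by rw [Nat.cast_sub (by omega)]; push_cast; ring, rfl, by omega, y1, y0, y2, hl⟩
  have ea : (a : ℝ) = 2 * b := by rw [hb]; push_cast; ring
  have ec : ((e + e : ℤ) : ℝ) = 2 * e := by push_cast; ring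
  have s0 : (e : ℝ) / (2 * b - 1) ≠ 0 := div_ne_zero (by exact_mod_cast e0) (by linarith)
  have s1 : |(e : ℝ) / (2 * b - 1)| < 2 * b := by
    have : |((e + e : ℤ) : ℝ)| < 2 * a * (a - 1) := by exact_mod_cast hc
    rw [ec, ea, abs_mul, abs_two] at this
    rw [abs_div, abs_of_pos (by linarith : (0 : ℝ) < 2 * b - 1), div_lt_iff₀ (by linarith)]
    linarith
  refine ⟨fun t => ⟨x t, y t⟩, ?_, y0, y2, h.mono,
    fun t ht => ⟨h.pos (Ioo_subset_Ioc_self ht), h.lt_half (Ioo_subset_Ico_self ht)⟩,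
    fun s hs t ht hne e => ?_, fun t ht => ?_⟩
  · exact Complex.equivRealProdCLM.symm.continuous.comp
      (f := fun t : ℝ => (x t, y t)) (by fun_prop)
  · rcases hne.lt_or_gt with h1 | h1
    · exact h.inj s0 s1 hs ht h1 e
    · rw [abs_sub_comm]
      exact h.inj s0 s1 ht hs h1 e.symm
  · obtain ⟨n, hn, u, hu, rfl⟩ := lap h.hM (by omega) ht
    rcases hl n hn with ⟨P, Q, e1, e2⟩ | ⟨P, Q, e1, e2⟩ | ⟨K, q, e1, e2⟩
    · refine Or.inr ⟨u, hu, Or.inl ⟨P, Q, ?_, ?_⟩⟩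
      · simp only [Bm, Complex.sub_re, ea, ec]
        linarith [(e2 u hu).2]
      · simp only [Bm, Complex.sub_im, ea]
        linarith [(e2 u hu).1]
    · refine Or.inr ⟨1 - u, ⟨by linarith [hu.2], by linarith [hu.1]⟩, Or.inr ⟨P, Q, ?_, ?_⟩⟩
      · simp only [Bm, Complex.add_re, ea, ec]
        linarith [(e2 u hu).2]
      · simp only [Bm, Complex.add_im, ea]
        linarith [(e2 u hu).1]
    · refine Or.inl ⟨K, ?_⟩
      simp only [Bm, ea]
      exact (e2 u hu).1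

end Pool.Agent.P.MP_cb5d8b_an.Ex
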