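import Pool.Agent.P.MP_cb5d8b_an.Base

/-! The exact range of the shear parameter for which an invariant tree exists: statements. -/

namespace Pool.Agent.P.MP_cb5d8b_an.Ex

open Set

/-- A curve across the strip `0 ≤ im ≤ 1/2` whose image under the shear lies in the union of the
horizontal lines of half integer height and the orbit of the curve. -/
structure Rung (a c : ℤ) (γ : ℝ → ℂ) : Prop where
  cont : Continuous γ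
  bot : (γ 0).im = 0
  top : (γ 1).im = 1 / 2
  mono : MonotoneOn (fun t => (γ t).im) (Icc 0 1)
  pos : ∀ t ∈ Ioo (0 : ℝ) 1, 0 < (γ t).im ∧ (γ t).im < 1 / 2
  inj : ∀ s ∈ Icc (0 : ℝ) 1, ∀ t ∈ Icc (0 : ℝ) 1, s ≠ t → (γ s).im = (γ t).im →
    0 < |(γ s).re - (γ t).re| ∧ |(γ s).re - (γ t).re| < 1
  inv : ∀ t ∈ Icc (0 : ℝ) 1, (∃ k : ℤ, 2 * (Bm a c (γ t)).im = k) ∨
    ∃ s ∈ Icc (0 : ℝ) 1, Rel (Bm a c (γ t)) (γ s)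

/-- The curve exists below the threshold. -/
def S_CURVE : Prop := ∀ a c : ℤ, 2 ≤ a → Even a → Even c → |c| < 2 * a * (a - 1) →
  ∃ γ, Rung a c γ

/-- The curve and the two horizontal arcs form an invariant tree. -/
def S_TREE : Prop := ∀ Θ, Pil Θ → ∀ (a c : ℤ) (γ : ℝ → ℂ), Rung a c γ →
  ∃ T : Set S2, IsTree T ∧ Θ '' Cone ⊆ T ∧ ∀ z, Θ z ∈ T → Θ (Bm a c z) ∈ T

/-- A section over a tree, with its arcs. -/
def S_SEC2 : Prop := ∀ Θ, Pil Θ → ∀ T : Set S2, IsTree T →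
  ∃ D : Set ℂ, IsCompact D ∧ (∀ x ∈ D, ∀ y ∈ D, ∃ A ⊆ D, ArcSet A x y) ∧ NoLoop D ∧
    InjOn Θ D ∧ Θ '' D = T

/-- The sharp plane theorem. -/
def S_SHARP : Prop := ∀ (D : Set ℂ) (a c : ℤ), 2 ≤ a → Even a → Even c → IsCompact D →
  (∀ x ∈ D, ∀ y ∈ D, ∃ A ⊆ D, ArcSet A x y) → NoLoop D →
  (∀ x ∈ D, ∀ y ∈ D, Rel x y → x = y) → (∀ z ∈ Cone, ∃ x ∈ D, Rel x z) →
  (∀ x ∈ D, ∃ y ∈ D, Rel (Bm a c x) y) → |c| < 2 * a * (a - 1)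

/-- Every positive integer is the first time at which the inequality holds. -/
def S_NUM : Prop := ∀ N : ℕ, 1 ≤ N → ∃ j : ℕ, ∀ n : ℕ, 1 ≤ n → (n * j + 2 < 2 ^ (n + 1) ↔ N ≤ n)

/-- For a quotient of an even shear an invariant tree exists exactly below the threshold. -/
theorem tree_iff (hC : S_CURVE) (hT : S_TREE) (hS : S_SEC2) (hP : S_SHARP) {Θ : ℂ → S2}
    (hΘ : Pil Θ) {a c : ℤ} (ha : 2 ≤ a) (ea : Even a) (ec : Even c) {g : S2 → S2}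
    (hg : ∀ z, g (Θ z) = Θ (Bm a c z)) :
    (∃ T : Set S2, IsTree T ∧ Θ '' Cone ⊆ T ∧ g '' T ⊆ T) ↔ |c| < 2 * a * (a - 1) := by
  constructor
  · rintro ⟨T, hT, hp, hi⟩
    obtain ⟨D, d1, d2, d3, d4, d5⟩ := hS Θ hΘ T hT
    exact hP D a c ha ea ec d1 d2 d3 (fun x hx y hy h => d4 hx hy ((hΘ.fib _ _).2 h))
      (fun z hz => by
        obtain ⟨x, hx, e⟩ : Θ z ∈ Θ '' D := d5 ▸ hp ⟨z, hz, rfl⟩
        exact ⟨x, hx, (hΘ.fib _ _).1 e⟩)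
      (fun x hx => by
        obtain ⟨y, hy, e⟩ : g (Θ x) ∈ Θ '' D := d5 ▸ hi ⟨Θ x, d5 ▸ ⟨x, hx, rfl⟩, rfl⟩
        rw [hg] at e
        exact ⟨y, hy, (hΘ.fib _ _).1 e.symm⟩)
  · intro h
    obtain ⟨γ, hγ⟩ := hC a c ha ea ec h
    obtain ⟨T, t1, t2, t3⟩ := hT Θ hΘ a c γ hγ
    refine ⟨T, t1, t2, ?_⟩
    rintro _ ⟨p, hp, rfl⟩
    obtain ⟨z, rfl⟩ := hΘ.surj p
    rw [hg]
    exact t3 z hp

theorem glue (hC : S_CURVE) (hT : S_TREE) (hS : S_SEC2) (hP : S_SHARP) (hN : S_NUM)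
    (hPIL : S_PIL) (hBR : S_BR) (hPOST : S_POST) (hEXP : S_EXP) (N : ℕ) (h1N : 1 ≤ N) :
    ∃ f : S2 → S2, IsThurston f ∧ IsExpanding f ∧ HasDegree f 4 ∧ (post f).ncard = 4 ∧
      ∀ n : ℕ, 1 ≤ n → ((∃ T : Set S2, IsTree T ∧ post f ⊆ T ∧ f^[n] '' T ⊆ T) ↔ N ≤ n) := by
  obtain ⟨Θ, hΘ⟩ := hPIL
  obtain ⟨j, hj⟩ := hN N h1N
  obtain ⟨f, hf⟩ : ∃ f : S2 → S2, ∀ z, f (Θ z) = Θ (Bm 2 (2 * j) z) :=
    ⟨fun p => Θ (Bm 2 (2 * j) (Function.surjInv hΘ.surj p)), fun z =>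
      (hΘ.fib _ _).2 (Bm_rel _ _ ((hΘ.fib _ _).1 (Function.surjInv_eq hΘ.surj _)))⟩
  obtain ⟨h1, h2, h3⟩ := hPOST Θ hΘ j f hf
  refine ⟨f, ⟨hBR Θ hΘ _ f hf, ⟨4, by norm_num, h3⟩, ?_⟩, hEXP Θ hΘ _ f hf h1.le, h3,
    h1 ▸ h2, ?_⟩
  · rw [h1]
    exact finite_of_ncard_ne_zero (by rw [h2]; norm_num)
  intro n hn
  obtain ⟨n, rfl⟩ : ∃ m, n = m + 1 := ⟨n - 1, by omega⟩
  have p1 : (1 : ℤ) ≤ 2 ^ n := one_le_pow₀ (by norm_num)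
  rw [h1, tree_iff hC hT hS hP hΘ (a := 2 ^ (n + 1)) (c := (n + 1) * 2 ^ n * (2 * j))
    (by rw [pow_succ]; linarith) ⟨2 ^ n, by ring⟩ ⟨(n + 1) * 2 ^ n * j, by ring⟩ (iter hf n),
    ← hj (n + 1) hn, abs_of_nonneg (by positivity)]
  zify
  rw [pow_succ 2 (n + 1), pow_succ 2 n]
  generalize (2 : ℤ) ^ n = P at *
  constructor
  · intro h
    by_contra hc
    push Not at hc
    nlinarith
  · intro h
    nlinarith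

end Pool.Agent.P.MP_cb5d8b_an.Ex
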