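import Pool.Agent.P.MP_cb5d8b_an.Ex.Iface

/-! Every positive integer is the first time at which the inequality holds. -/

namespace Pool.Agent.P.MP_cb5d8b_an.Ex

theorem num_mono {j a b : ℕ} (ha : 1 ≤ a) (hab : a ≤ b) (h : a * j + 2 < 2 ^ (a + 1)) :
    b * j + 2 < 2 ^ (b + 1) := by
  induction b, hab using Nat.le_induction with
  | base => exact h
  | succ n hn ih =>
    have : j ≤ n * j := Nat.le_mul_of_pos_left j (by omega)
    rw [pow_succ 2 (n + 1), add_mul, one_mul]
    omega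

theorem p_NUM : S_NUM := by
  intro N hN
  obtain ⟨m, rfl⟩ : ∃ m, N = m + 1 := ⟨N - 1, by omega⟩
  rcases Nat.eq_zero_or_pos m with rfl | hm
  · exact ⟨1, fun n hn => ⟨fun _ => hn, fun _ => num_mono le_rfl hn (by norm_num)⟩⟩
  have ex : ∃ j, 2 ^ (m + 1) ≤ m * j + 2 :=
    ⟨2 ^ (m + 1), (Nat.le_mul_of_pos_left _ hm).trans (Nat.le_add_right _ _)⟩
  refine ⟨Nat.find ex, fun n hn => ⟨fun h => ?_, fun h => num_mono (by omega) h ?_⟩⟩
  · by_contra hc
    exact absurd (num_mono hn (by omega : n ≤ m) h) (not_lt.2 (Nat.find_spec ex))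
  · have hp : m + 1 < 2 ^ (m + 1) := Nat.lt_two_pow_self
    rw [pow_succ 2 (m + 1)]
    rcases hj : Nat.find ex with _ | i
    · omega
    · have h1 : m * i + 2 < 2 ^ (m + 1) := not_le.1 (Nat.find_min ex (by omega))
      have h2 : (m + 1) * (i + 1) = m * i + m + i + 1 := by ring
      rcases Nat.eq_zero_or_pos i with rfl | hi
      · omega
      · have h3 : m + i ≤ m * i + 1 := by
          obtain ⟨a, rfl⟩ : ∃ a, m = a + 1 := ⟨m - 1, by omega⟩
          obtain ⟨b, rfl⟩ : ∃ b, i = b + 1 := ⟨i - 1, by omega⟩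
          nlinarith [Nat.zero_le (a * b)]
        omega

end Pool.Agent.P.MP_cb5d8b_an.Ex
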