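import Pool.Agent.P.MP_cb5d8b_an.Ex.Iface
import Pool.Agent.P.MP_cb5d8b_an.Sec
import Pool.Agent.P.MP_cb5d8b_an.Jct
import Pool.Agent.P.MP_cb5d8b_an.Lift

/-! A section over a tree, with its arcs. -/

namespace Pool.Agent.P.MP_cb5d8b_an.Ex

open Set

theorem p_SEC2 : S_SEC2 := by
  intro Θ hΘ T hTT
  have hN := p_JCT T hTT
  have hT := hTT.1
  obtain ⟨x₀, hx₀⟩ := hT.1.nonempty
  obtain ⟨w, rfl⟩ := hΘ.surj x₀
  obtain ⟨-, m, a, ha, hG, -⟩ := id hT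
  have sub : ∀ i, range (a i) ⊆ T := fun i => hG ▸ subset_iUnion (fun i => range (a i)) i
  obtain ⟨D, hD, h⟩ := Sec.many p_LIFT hΘ hT hx₀
    (List.ofFn (fun i => a i 0) ++ List.ofFn fun i => a i 1) (by
      intro p hp
      rcases List.mem_append.1 hp with hp | hp <;> obtain ⟨i, rfl⟩ := List.mem_ofFn.1 hp <;>
        exact sub i ⟨_, rfl⟩)
  have arcs : ∀ x ∈ D, ∀ y ∈ D, ∃ A ⊆ D, ArcSet A x y := by
    intro x hx y hy
    obtain ⟨A, sA, hA⟩ := hD.arc x hx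
    obtain ⟨B, sB, hB⟩ := hD.arc y hy
    obtain ⟨C, sC, hC⟩ := hA.symm.trans hB
    exact ⟨C, sC.trans (union_subset sA sB), hC⟩
  refine ⟨D, hD.cpt, arcs, ?_, hD.inj, hD.sub.antisymm ?_⟩
  · intro A A' p q hA hA' hpq sA sA' hi
    refine hN _ _ _ _ (hA.image hΘ.cont (hD.inj.mono sA)) (hA'.image hΘ.cont (hD.inj.mono sA'))
      (fun e => hpq (hD.inj (sA hA.left) (sA hA.right) e)) ((image_mono sA).trans hD.sub)
      ((image_mono sA').trans hD.sub) ?_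
    rintro _ ⟨⟨x, hx, rfl⟩, ⟨y, hy, e⟩⟩
    have hyx : y = x := hD.inj (sA' hy) (sA hx) e
    subst hyx
    rcases hi ⟨hx, hy⟩ with h1 | h1
    · exact Or.inl (congrArg Θ h1)
    · exact Or.inr (congrArg Θ h1)
  · intro p hp
    rw [hG] at hp
    obtain ⟨i, hi⟩ := mem_iUnion.1 hp
    obtain ⟨x, hx, ex⟩ := h (a i 0) (List.mem_append_left _ (List.mem_ofFn.2 ⟨i, rfl⟩))
    obtain ⟨y, hy, ey⟩ := h (a i 1) (List.mem_append_right _ (List.mem_ofFn.2 ⟨i, rfl⟩))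
    obtain ⟨C, sD, hC⟩ := arcs x hx y hy
    have hI := hC.image hΘ.cont (hD.inj.mono sD)
    rw [ex, ey] at hI
    have := hN.unique (Sec.arc_range (ha i).1 (ha i).2) hI (sub i) ((image_mono sD).trans hD.sub)
    exact image_mono sD (this ▸ hi)

end Pool.Agent.P.MP_cb5d8b_an.Ex
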