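import Pool.Agent.P.MP_cb5d8b_an.Ex.Iface

/-! The curve and the two horizontal arcs form an invariant tree. -/

namespace Pool.Agent.P.MP_cb5d8b_an.Ex

open Set

namespace Tr

/-- A nondegenerate arc as the range of a map of the unit interval. -/
theorem param {X : Type} [TopologicalSpace X] {A : Set X} {x y : X} (h : ArcSet A x y)
    (hxy : x ≠ y) : ∃ a : unitInterval → X, Continuous a ∧ Function.Injective a ∧
      range a = A ∧ a 0 = x ∧ a 1 = y := by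
  obtain ⟨c, s, t, hst, hc, hi, rfl, rfl, rfl⟩ := h
  have hlt : s < t := lt_of_le_of_ne hst fun e => hxy (by rw [e])
  have hm : ∀ u : unitInterval, s + u * (t - s) ∈ Icc s t := fun u =>
    ⟨by nlinarith [u.2.1], by nlinarith [u.2.2]⟩
  refine ⟨fun u => c (s + u * (t - s)), by fun_prop, fun u v e => ?_, ?_, by simp, by simp⟩
  · have := hi (hm u) (hm v) e
    exact Subtype.ext (mul_right_cancel₀ (sub_pos.2 hlt).ne' (by linarith))
  · ext w
    constructor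
    · rintro ⟨u, rfl⟩
      exact ⟨_, hm u, rfl⟩
    · rintro ⟨r, hr, rfl⟩
      have hp : 0 < t - s := sub_pos.2 hlt
      refine ⟨⟨(r - s) / (t - s), div_nonneg (sub_nonneg.2 hr.1) hp.le,
        (div_le_one hp).2 (by linarith [hr.2])⟩, ?_⟩
      change c (s + (r - s) / (t - s) * (t - s)) = c r
      rw [div_mul_cancel₀ _ hp.ne']
      congr 1
      ring

theorem degenerate {X : Type} [TopologicalSpace X] {A : Set X} {x : X} (h : ArcSet A x x) :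
    A ⊆ {x} := by
  obtain ⟨c, s, t, hst, -, hi, rfl, e, rfl⟩ := h
  have : t = s := hi (right_mem_Icc.2 hst) (left_mem_Icc.2 hst) e
  subst this
  simp

/-- A graph from a finite family of arcs, some of which may be points. -/
theorem graph {X : Type} [TopologicalSpace X] {ι : Type} [Finite ι] {G : Set X}
    (hG : IsConnected G) (A : ι → Set X) (x y : ι → X) (hA : ∀ i, ArcSet (A i) (x i) (y i))
    (hU : G = ⋃ i, A i) (hd : ∀ i, x i = y i → ∃ j, x j ≠ y j ∧ x i ∈ A j)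
    (hi : ∀ i j, i ≠ j → ∀ z ∈ A i, z ∈ A j → z = x i ∨ z = y i) : IsGraph G := by
  obtain ⟨m, ⟨e⟩⟩ := Finite.exists_equiv_fin {i // x i ≠ y i}
  choose a a1 a2 a3 a4 a5 using fun i : {i // x i ≠ y i} => param (hA i.1) i.2
  refine ⟨hG, m, fun k => a (e.symm k), fun k => ⟨a1 _, a2 _⟩, ?_, ?_⟩
  · rw [hU]
    ext z
    simp only [mem_iUnion, a3]
    constructor
    · rintro ⟨i, hz⟩
      by_cases h : x i = y i
      · obtain ⟨j, hj, hx⟩ := hd i h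
        have h1 := hA i
        rw [← h] at h1
        have : z = x i := degenerate h1 hz
        exact ⟨e ⟨j, hj⟩, by simpa [this] using hx⟩
      · exact ⟨e ⟨i, h⟩, by simpa using hz⟩
    · rintro ⟨k, hz⟩
      exact ⟨_, hz⟩
  · intro k l hkl z hz
    have hne : (e.symm k).1 ≠ (e.symm l).1 := fun h => hkl (e.symm.injective (Subtype.ext h))
    simp only [a3, a4, a5] at hz ⊢
    exact ⟨hi _ _ hne z hz.1 hz.2, hi _ _ hne.symm z hz.2 hz.1⟩

/-- An open set with preconnected horizontal fibres over a preconnected set. -/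
theorem fibred {U : Set ℂ} (hU : IsOpen U) (hb : IsPreconnected (Complex.im '' U))
    (hf : ∀ y : ℝ, IsPreconnected (U ∩ {z | z.im = y})) : IsPreconnected U := by
  intro u v hu hv hs ⟨p, hp⟩ ⟨q, hq⟩
  obtain ⟨y, -, ⟨z, hz, ez⟩, ⟨w, hw, ew⟩⟩ := hb _ _ (Complex.isOpenMap_im _ (hU.inter hu))
    (Complex.isOpenMap_im _ (hU.inter hv))
    (by
      rintro _ ⟨z, hz, rfl⟩
      rcases hs hz with h | h
      · exact Or.inl ⟨z, ⟨hz, h⟩, rfl⟩
      · exact Or.inr ⟨z, ⟨hz, h⟩, rfl⟩)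
    ⟨p.im, ⟨p, hp.1, rfl⟩, ⟨p, hp, rfl⟩⟩ ⟨q.im, ⟨q, hq.1, rfl⟩, ⟨q, hq, rfl⟩⟩
  obtain ⟨r, hr, hr'⟩ := hf y u v hu hv (inter_subset_left.trans hs) ⟨z, ⟨hz.1, ez⟩, hz.2⟩
    ⟨w, ⟨hw.1, ew⟩, hw.2⟩
  exact ⟨r, hr.1, hr'⟩

variable {Θ : ℂ → S2} {a c : ℤ} {γ : ℝ → ℂ}

theorem eq_iff (hΘ : Pil Θ) (z w : ℂ) : Θ z = Θ w ↔
    (∃ m n : ℤ, z.re - w.re = m ∧ z.im - w.im = n) ∨
      ∃ m n : ℤ, z.re + w.re = m ∧ z.im + w.im = n := by
  rw [hΘ.fib]
  simp only [Rel, Lat, mem_ofPred_eq, Complex.sub_re, Complex.sub_im, Complex.add_re,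
    Complex.add_im]

theorem int_eq {x : ℝ} {m k : ℤ} (e : x = m) (h1 : (k : ℝ) - 1 < x) (h2 : x < k + 1) : m = k := by
  rw [e] at h1 h2
  have a1 : k - 1 < m := by exact_mod_cast h1
  have a2 : m < k + 1 := by exact_mod_cast h2
  omega

theorem int_not {x : ℝ} {m k : ℤ} (e : x = m) (h1 : (k : ℝ) < x) (h2 : x < k + 1) : False := by
  rw [e] at h1 h2
  have a1 : k < m := by exact_mod_cast h1
  have a2 : m < k + 1 := by exact_mod_cast h2
  omega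

/-- The image of a horizontal segment of length one half. -/
def Hz (Θ : ℂ → S2) (y : ℝ) : Set S2 := (fun x : ℝ => Θ ⟨x, y⟩) '' Icc 0 (1 / 2)

theorem mk_cont (y : ℝ) : Continuous fun x : ℝ => (⟨x, y⟩ : ℂ) := by
  have : (fun x : ℝ => (⟨x, y⟩ : ℂ)) = fun x : ℝ => (x : ℂ) + y * Complex.I :=
    funext fun x => Complex.ext (by simp) (by simp)
  rw [this]
  fun_prop

theorem hz_arc (hΘ : Pil Θ) (y : ℝ) : ArcSet (Hz Θ y) (Θ ⟨0, y⟩) (Θ ⟨1 / 2, y⟩) := by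
  refine ⟨fun x : ℝ => Θ ⟨x, y⟩, 0, 1 / 2, by norm_num, hΘ.cont.comp (mk_cont y), ?_, rfl, rfl,
    rfl⟩
  intro u hu v hv e
  rcases (eq_iff hΘ _ _).1 e with ⟨m, n, h, -⟩ | ⟨m, n, h, -⟩
  · have : m = 0 := int_eq h (by push_cast; linarith [hu.1, hv.2])
      (by push_cast; linarith [hu.2, hv.1])
    subst this
    simp only [Int.cast_zero] at h
    linarith
  · simp only at h
    by_contra hne
    have h1 : 0 < u + v := by
      rcases lt_or_gt_of_ne hne with h' | h' <;> linarith [hu.1, hv.1]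
    have h2 : u + v < 1 := by
      rcases lt_or_gt_of_ne hne with h' | h' <;> linarith [hu.2, hv.2]
    exact int_not (k := 0) h (by simpa using h1) (by simpa using h2)

theorem hz_mem (hΘ : Pil Θ) {y : ℝ} {k n : ℤ} (hy : 2 * y = k) {z : ℂ} (hz : z.im - y = n) :
    Θ z ∈ Hz Θ y := by
  have f1 := Int.fract_nonneg z.re
  have f2 := Int.fract_lt_one z.re
  have f3 := Int.floor_add_fract z.re
  by_cases h : Int.fract z.re ≤ 1 / 2
  · exact ⟨_, ⟨f1, h⟩, ((eq_iff hΘ _ _).2 (Or.inl ⟨⌊z.re⌋, n, by simp only; linarith, hz⟩)).symm⟩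
  · refine ⟨1 - Int.fract z.re, ⟨by linarith, by linarith⟩,
      ((eq_iff hΘ _ _).2 (Or.inr ⟨⌊z.re⌋ + 1, n + k, ?_, ?_⟩)).symm⟩
    · push_cast; linarith
    · push_cast; linarith

theorem hz_im (hΘ : Pil Θ) {y : ℝ} {z : ℂ} (h : Θ z ∈ Hz Θ y) :
    (∃ n : ℤ, z.im - y = n) ∨ ∃ n : ℤ, z.im + y = n := by
  obtain ⟨x, -, e⟩ := h
  rcases (eq_iff hΘ _ _).1 e.symm with ⟨m, n, -, h⟩ | ⟨m, n, -, h⟩
  · exact Or.inl ⟨n, h⟩
  · exact Or.inr ⟨n, h⟩

theorem im_mem (hγ : Rung a c γ) {s : ℝ} (hs : s ∈ Icc (0 : ℝ) 1) :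
    0 ≤ (γ s).im ∧ (γ s).im ≤ 1 / 2 :=
  ⟨hγ.bot ▸ hγ.mono (left_mem_Icc.2 zero_le_one) hs hs.1,
    hγ.top ▸ hγ.mono hs (right_mem_Icc.2 zero_le_one) hs.2⟩

theorem im_zero (hγ : Rung a c γ) {s : ℝ} (hs : s ∈ Icc (0 : ℝ) 1) (h : (γ s).im ≤ 0) : s = 0 := by
  by_contra hn
  rcases hs.2.eq_or_lt with rfl | h1
  · rw [hγ.top] at h; norm_num at h
  · linarith [(hγ.pos s ⟨lt_of_le_of_ne hs.1 (Ne.symm hn), h1⟩).1]

theorem im_half (hγ : Rung a c γ) {s : ℝ} (hs : s ∈ Icc (0 : ℝ) 1) (h : 1 / 2 ≤ (γ s).im) :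
    s = 1 := by
  by_contra hn
  rcases hs.1.eq_or_lt with rfl | h1
  · rw [hγ.bot] at h; norm_num at h
  · linarith [(hγ.pos s ⟨h1, lt_of_le_of_ne hs.2 hn⟩).2]

/-- The image of the curve. -/
def Md (Θ : ℂ → S2) (γ : ℝ → ℂ) : Set S2 := (fun s => Θ (γ s)) '' Icc 0 1

theorem md_inj (hΘ : Pil Θ) (hγ : Rung a c γ) : InjOn (fun s => Θ (γ s)) (Icc 0 1) := by
  intro s hs t ht e
  by_contra hne
  obtain ⟨s1, s2⟩ := im_mem hγ hs
  obtain ⟨t1, t2⟩ := im_mem hγ ht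
  rcases (eq_iff hΘ _ _).1 e with ⟨m, n, h, h'⟩ | ⟨m, n, -, h⟩
  · have : n = 0 := int_eq h' (by push_cast; linarith) (by push_cast; linarith)
    subst this
    obtain ⟨b1, b2⟩ := hγ.inj s hs t ht hne (by simp only [Int.cast_zero] at h'; linarith)
    have : m = 0 := int_eq h (by push_cast; linarith [(abs_lt.1 b2).1])
      (by push_cast; linarith [(abs_lt.1 b2).2])
    subst this
    rw [h] at b1
    simp at b1
  · have h1 : 0 < (γ s).im + (γ t).im := by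
      by_contra hc
      exact hne ((im_zero hγ hs (by linarith)).trans (im_zero hγ ht (by linarith)).symm)
    have h2 : (γ s).im + (γ t).im < 1 := by
      by_contra hc
      exact hne ((im_half hγ hs (by linarith)).trans (im_half hγ ht (by linarith)).symm)
    exact int_not (k := 0) h (by simpa using h1) (by simpa using h2)

theorem md_arc (hΘ : Pil Θ) (hγ : Rung a c γ) : ArcSet (Md Θ γ) (Θ (γ 0)) (Θ (γ 1)) :=
  ⟨fun s => Θ (γ s), 0, 1, zero_le_one, hΘ.cont.comp hγ.cont, md_inj hΘ hγ, rfl, rfl, rfl⟩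

theorem foot0 (hΘ : Pil Θ) (hγ : Rung a c γ) : Θ (γ 0) ∈ Hz Θ 0 :=
  hz_mem hΘ (k := 0) (n := 0) (by simp) (by simp [hγ.bot])

theorem foot1 (hΘ : Pil Θ) (hγ : Rung a c γ) : Θ (γ 1) ∈ Hz Θ (1 / 2) :=
  hz_mem hΘ (k := 1) (n := 0) (by simp) (by simp [hγ.top])

theorem meet0 (hΘ : Pil Θ) (hγ : Rung a c γ) {p : S2} (h : p ∈ Hz Θ 0) (h' : p ∈ Md Θ γ) :
    p = Θ (γ 0) := by
  obtain ⟨s, hs, rfl⟩ := h'
  obtain ⟨s1, s2⟩ := im_mem hγ hs
  have : (γ s).im = 0 := by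
    rcases hz_im hΘ h with ⟨n, e⟩ | ⟨n, e⟩
    · have : n = 0 := int_eq e (by push_cast; linarith) (by push_cast; linarith)
      simpa [this] using e
    · have : n = 0 := int_eq e (by push_cast; linarith) (by push_cast; linarith)
      simpa [this] using e
  rw [im_zero hγ hs this.le]

theorem meet1 (hΘ : Pil Θ) (hγ : Rung a c γ) {p : S2} (h : p ∈ Hz Θ (1 / 2)) (h' : p ∈ Md Θ γ) :
    p = Θ (γ 1) := by
  obtain ⟨s, hs, rfl⟩ := h'
  obtain ⟨s1, s2⟩ := im_mem hγ hs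
  have : 1 / 2 ≤ (γ s).im := by
    rcases hz_im hΘ h with ⟨n, e⟩ | ⟨n, e⟩
    · have : n = 0 := int_eq e (by push_cast; linarith) (by push_cast; linarith)
      rw [this, Int.cast_zero] at e
      linarith
    · have : n = 1 := int_eq e (by push_cast; linarith) (by push_cast; linarith)
      rw [this, Int.cast_one] at e
      linarith
  rw [im_half hγ hs this]

theorem meet01 (hΘ : Pil Θ) {p : S2} (h : p ∈ Hz Θ 0) (h' : p ∈ Hz Θ (1 / 2)) : False := by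
  obtain ⟨x, -, rfl⟩ := h
  rcases hz_im hΘ h' with ⟨n, e⟩ | ⟨n, e⟩
  · exact int_not (k := -1) e (by norm_num) (by norm_num)
  · exact int_not (k := 0) e (by norm_num) (by norm_num)

/-- The tree. -/
def TT (Θ : ℂ → S2) (γ : ℝ → ℂ) : Set S2 := Hz Θ 0 ∪ Md Θ γ ∪ Hz Θ (1 / 2)

theorem mem_TT (hΘ : Pil Θ) (z : ℂ) : Θ z ∈ TT Θ γ ↔
    (∃ k : ℤ, 2 * z.im = k) ∨ ∃ s ∈ Icc (0 : ℝ) 1, Θ (γ s) = Θ z := by
  constructor
  · rintro ((h | h) | h)
    · rcases hz_im hΘ h with ⟨n, e⟩ | ⟨n, e⟩ <;> exact Or.inl ⟨2 * n, by push_cast; linarith⟩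
    · exact Or.inr h
    · rcases hz_im hΘ h with ⟨n, e⟩ | ⟨n, e⟩
      · exact Or.inl ⟨2 * n + 1, by push_cast; linarith⟩
      · exact Or.inl ⟨2 * n - 1, by push_cast; linarith⟩
  · rintro (⟨k, h⟩ | h)
    · rcases Int.even_or_odd' k with ⟨j, rfl | rfl⟩
      · exact Or.inl (Or.inl (hz_mem hΘ (k := 0) (n := j) (by simp)
          (by push_cast at h; linarith)))
      · exact Or.inr (hz_mem hΘ (k := 1) (n := j) (by simp) (by push_cast at h; linarith))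
    · exact Or.inl (Or.inr h)

theorem tt_graph (hΘ : Pil Θ) (hγ : Rung a c γ) : IsGraph (TT Θ γ) := by
  obtain ⟨B1, B2, b1, b2, eB, iB⟩ := (hz_arc hΘ 0).split (foot0 hΘ hγ)
  obtain ⟨C1, C2, c1, c2, eC, iC⟩ := (hz_arc hΘ (1 / 2)).split (foot1 hΘ hγ)
  have hM := md_arc hΘ hγ
  have hne : Θ (γ 0) ≠ Θ (γ 1) := fun e => zero_ne_one
    (md_inj hΘ hγ (left_mem_Icc.2 zero_le_one) (right_mem_Icc.2 zero_le_one) e)
  have sB1 : B1 ⊆ Hz Θ 0 := eB ▸ subset_union_left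
  have sB2 : B2 ⊆ Hz Θ 0 := eB ▸ subset_union_right
  have sC1 : C1 ⊆ Hz Θ (1 / 2) := eC ▸ subset_union_left
  have sC2 : C2 ⊆ Hz Θ (1 / 2) := eC ▸ subset_union_right
  refine graph (ι := Fin 5) ?_ ![B1, B2, Md Θ γ, C1, C2]
    ![Θ ⟨0, 0⟩, Θ (γ 0), Θ (γ 0), Θ ⟨0, 1 / 2⟩, Θ (γ 1)]
    ![Θ (γ 0), Θ ⟨1 / 2, 0⟩, Θ (γ 1), Θ (γ 1), Θ ⟨1 / 2, 1 / 2⟩] ?_ ?_ ?_ ?_
  · refine ⟨⟨_, Or.inr (foot1 hΘ hγ)⟩, ?_⟩
    exact (((hz_arc hΘ 0).preconn.union _ (foot0 hΘ hγ) hM.left hM.preconn).union _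
      (Or.inr hM.right) (foot1 hΘ hγ) (hz_arc hΘ (1 / 2)).preconn)
  · intro i
    fin_cases i
    exacts [b1, b2, hM, c1, c2]
  · unfold TT
    rw [← eB, ← eC]
    ext p
    simp only [mem_union, mem_iUnion, Fin.exists_fin_succ, Matrix.cons_val_zero,
      Matrix.cons_val_succ, IsEmpty.exists_iff, or_false]
    tauto
  · intro i h
    refine ⟨2, hne, ?_⟩
    fin_cases i
    · exact (show Θ ⟨0, 0⟩ = Θ (γ 0) from h) ▸ hM.left
    · exact hM.left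
    · exact hM.left
    · exact (show Θ ⟨0, 1 / 2⟩ = Θ (γ 1) from h) ▸ hM.right
    · exact hM.right
  · intro i j hij p hi hj
    fin_cases i <;> fin_cases j <;>
      first
        | exact absurd rfl hij
        | exact Or.inr (iB ⟨hi, hj⟩)
        | exact Or.inl (iB ⟨hj, hi⟩)
        | exact Or.inr (iC ⟨hi, hj⟩)
        | exact Or.inl (iC ⟨hj, hi⟩)
        | exact Or.inr (meet0 hΘ hγ (sB1 hi) hj)
        | exact Or.inl (meet0 hΘ hγ (sB2 hi) hj)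
        | exact Or.inl (meet0 hΘ hγ (sB1 hj) hi)
        | exact Or.inl (meet0 hΘ hγ (sB2 hj) hi)
        | exact Or.inr (meet1 hΘ hγ (sC1 hi) hj)
        | exact Or.inl (meet1 hΘ hγ (sC2 hi) hj)
        | exact Or.inr (meet1 hΘ hγ (sC1 hj) hi)
        | exact Or.inr (meet1 hΘ hγ (sC2 hj) hi)
        | exact (meet01 hΘ (sB1 hi) (sC1 hj)).elim
        | exact (meet01 hΘ (sB1 hi) (sC2 hj)).elim
        | exact (meet01 hΘ (sB2 hi) (sC1 hj)).elim
        | exact (meet01 hΘ (sB2 hi) (sC2 hj)).elim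
        | exact (meet01 hΘ (sB1 hj) (sC1 hi)).elim
        | exact (meet01 hΘ (sB1 hj) (sC2 hi)).elim
        | exact (meet01 hΘ (sB2 hj) (sC1 hi)).elim
        | exact (meet01 hΘ (sB2 hj) (sC2 hi)).elim

/-- The part of the open strip between the curve and its translate. -/
def U0 (γ : ℝ → ℂ) : Set ℂ :=
  {z | (0 < z.im ∧ z.im < 1 / 2) ∧
    ∀ s ∈ Icc (0 : ℝ) 1, (γ s).im = z.im → (γ s).re < z.re ∧ z.re < (γ s).re + 1}

theorem u0_open (hγ : Rung a c γ) : IsOpen (U0 γ) := by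
  have hc : Continuous fun p : unitInterval × ℂ => γ p.1 := hγ.cont.comp (by fun_prop)
  have hK : IsClosed (Prod.snd '' {p : unitInterval × ℂ | (γ p.1).im = p.2.im ∧
      (p.2.re ≤ (γ p.1).re ∨ (γ p.1).re + 1 ≤ p.2.re)}) := by
    refine isClosedMap_snd_of_compactSpace _ (IsClosed.inter ?_ (IsClosed.union ?_ ?_))
    · exact isClosed_eq (Complex.continuous_im.comp hc) (Complex.continuous_im.comp continuous_snd)
    · exact isClosed_le (Complex.continuous_re.comp continuous_snd) (Complex.continuous_re.comp hc)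
    · exact isClosed_le ((Complex.continuous_re.comp hc).add continuous_const)
        (Complex.continuous_re.comp continuous_snd)
  have hS : IsOpen {z : ℂ | 0 < z.im ∧ z.im < 1 / 2} :=
    (isOpen_lt continuous_const Complex.continuous_im).inter
      (isOpen_lt Complex.continuous_im continuous_const)
  convert hS.inter hK.isOpen_compl using 1
  ext z
  refine and_congr_right fun _ => ⟨fun h => ?_, fun h s hs e => ?_⟩
  · rintro ⟨⟨s, w⟩, ⟨e, h'⟩, rfl⟩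
    obtain ⟨h1, h2⟩ := h s s.2 e
    rcases h' with h' | h' <;> simp only at h' h1 h2 <;> linarith
  · by_contra hn
    refine h ⟨(⟨s, hs⟩, z), ⟨e, ?_⟩, rfl⟩
    by_contra hc
    push Not at hc
    exact hn hc

theorem level (hγ : Rung a c γ) {y : ℝ} (h0 : 0 < y) (h1 : y < 1 / 2) :
    ∃ s ∈ Icc (0 : ℝ) 1, (γ s).im = y :=
  intermediate_value_Icc (f := fun s => (γ s).im) zero_le_one
    (Complex.continuous_im.comp hγ.cont).continuousOn
    ⟨by simp only [hγ.bot]; exact h0.le, by simp only [hγ.top]; exact h1.le⟩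

theorem u0_level (hγ : Rung a c γ) {y : ℝ} (h0 : 0 < y) (h1 : y < 1 / 2) :
    ∃ z ∈ U0 γ, z.im = y := by
  have hK : IsCompact (Icc (0 : ℝ) 1 ∩ {s | (γ s).im = y}) :=
    isCompact_Icc.inter_right (isClosed_eq (Complex.continuous_im.comp hγ.cont) continuous_const)
  have hc : ContinuousOn (fun s => (γ s).re) (Icc (0 : ℝ) 1 ∩ {s | (γ s).im = y}) :=
    (Complex.continuous_re.comp hγ.cont).continuousOn
  obtain ⟨s, hs, hmin⟩ := hK.exists_isMinOn (level hγ h0 h1) hc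
  obtain ⟨t, ht, hmax⟩ := hK.exists_isMaxOn (level hγ h0 h1) hc
  have hlt : (γ t).re < (γ s).re + 1 := by
    by_cases e : s = t
    · rw [e]; linarith
    · linarith [(abs_lt.1 (hγ.inj s hs.1 t ht.1 e (hs.2.trans ht.2.symm)).2).1]
  refine ⟨⟨((γ t).re + (γ s).re + 1) / 2, y⟩, ⟨⟨h0, h1⟩, fun r hr e => ?_⟩, rfl⟩
  have a1 : (γ s).re ≤ (γ r).re := hmin ⟨hr, e⟩
  have a2 : (γ r).re ≤ (γ t).re := hmax ⟨hr, e⟩
  constructor <;> simp only <;> linarith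

theorem u0_preconn (hγ : Rung a c γ) : IsPreconnected (U0 γ) := by
  refine fibred (u0_open hγ) ?_ fun y => Convex.isPreconnected ?_
  · have : Complex.im '' U0 γ = Ioo 0 (1 / 2) := by
      ext y
      exact ⟨fun ⟨z, hz, e⟩ => e ▸ hz.1, fun h => u0_level hγ h.1 h.2⟩
    rw [this]
    exact isPreconnected_Ioo
  · rintro z ⟨hz, ez⟩ w ⟨hw, ew⟩ p q hp hq hpq
    have ez' : z.im = y := ez
    have ew' : w.im = y := ew
    have e1 : (p • z + q • w).im = y := by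
      simp only [Complex.add_im, Complex.smul_im, smul_eq_mul, ez', ew']
      rw [← add_mul, hpq, one_mul]
    have e2 : (p • z + q • w).re = p * z.re + q * w.re := by
      simp only [Complex.add_re, Complex.smul_re, smul_eq_mul]
    refine ⟨⟨by rw [e1, ← ez']; exact hz.1, fun s hs e => ?_⟩, e1⟩
    obtain ⟨a1, a2⟩ := hz.2 s hs (by rw [e, e1, ez'])
    obtain ⟨b1, b2⟩ := hw.2 s hs (by rw [e, e1, ew'])
    rw [e2]
    exact (convex_Ioo _ _ : Convex ℝ (Ioo (γ s).re ((γ s).re + 1))) ⟨a1, a2⟩ ⟨b1, b2⟩ hp hq hpq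

theorem strip (hΘ : Pil Θ) {z : ℂ} (h : ¬ ∃ k : ℤ, 2 * z.im = k) :
    ∃ w : ℂ, Θ w = Θ z ∧ 0 < w.im ∧ w.im < 1 / 2 := by
  have f1 := Int.fract_nonneg z.im
  have f2 := Int.fract_lt_one z.im
  have f3 := Int.floor_add_fract z.im
  rcases lt_trichotomy (Int.fract z.im) (1 / 2) with h' | h' | h'
  · refine ⟨⟨z.re, Int.fract z.im⟩, ((eq_iff hΘ _ _).2
      (Or.inl ⟨0, ⌊z.im⌋, by simp, by simp only; linarith⟩)).symm, lt_of_le_of_ne f1 ?_, h'⟩
    intro e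
    exact h ⟨2 * ⌊z.im⌋, by simp only at e; push_cast; linarith⟩
  · exact absurd ⟨2 * ⌊z.im⌋ + 1, by push_cast; linarith⟩ h
  · exact ⟨⟨-z.re, 1 - Int.fract z.im⟩, ((eq_iff hΘ _ _).2
      (Or.inr ⟨0, ⌊z.im⌋ + 1, by simp, by push_cast; linarith⟩)).symm,
      by simp only; linarith, by simp only; linarith⟩

theorem compl_eq (hΘ : Pil Θ) (hγ : Rung a c γ) : (TT Θ γ)ᶜ = Θ '' U0 γ := by
  ext p
  constructor
  · intro hp
    obtain ⟨z, rfl⟩ := hΘ.surj p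
    have hn := mt (mem_TT (γ := γ) hΘ z).2 hp
    obtain ⟨w, ew, w0, w1⟩ := strip hΘ fun h => hn (Or.inl h)
    have hw : ∀ s ∈ Icc (0 : ℝ) 1, (γ s).im = w.im → ∀ m : ℤ, w.re - (γ s).re ≠ m :=
      fun s hs e m h => hn (Or.inr ⟨s, hs, Eq.trans
        ((eq_iff hΘ _ _).2 (Or.inl ⟨m, 0, h, by simp [e]⟩)).symm ew⟩)
    obtain ⟨s0, hs0, e0⟩ := level hγ w0 w1
    have hF : IsPreconnected (Icc (0 : ℝ) 1 ∩ {s | (γ s).im = w.im}) := by
      refine OrdConnected.isPreconnected ⟨fun s hs t ht r hr => ?_⟩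
      have hr' : r ∈ Icc (0 : ℝ) 1 := ⟨hs.1.1.trans hr.1, hr.2.trans ht.1.2⟩
      have a1 : (γ s).im ≤ (γ r).im := hγ.mono hs.1 hr' hr.1
      have a2 : (γ r).im ≤ (γ t).im := hγ.mono hr' ht.1 hr.2
      have a3 : (γ s).im = w.im := hs.2
      have a4 : (γ t).im = w.im := ht.2
      exact ⟨hr', le_antisymm (a4 ▸ a2) (a3 ▸ a1)⟩
    have hI := (hF.image (fun s => w.re - (γ s).re)
      (continuous_const.sub (Complex.continuous_re.comp hγ.cont)).continuousOn).ordConnected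
    have miss : ∀ m : ℤ, (m : ℝ) ∉
        (fun s => w.re - (γ s).re) '' (Icc (0 : ℝ) 1 ∩ {s | (γ s).im = w.im}) :=
      fun m ⟨s, hs, e⟩ => hw s hs.1 hs.2 m e
    have f1 := Int.floor_le (w.re - (γ s0).re)
    have f2 := Int.lt_floor_add_one (w.re - (γ s0).re)
    generalize ⌊w.re - (γ s0).re⌋ = m at f1 f2
    refine ⟨⟨w.re - m, w.im⟩, ⟨⟨w0, w1⟩, fun s hs e => ⟨?_, ?_⟩⟩, Eq.trans
      ((eq_iff hΘ _ _).2 (Or.inl ⟨-m, 0, by simp, by simp⟩)) ew⟩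
    · by_contra hc
      simp only [not_lt] at hc
      exact miss m (hI.out ⟨s, ⟨hs, e⟩, rfl⟩ ⟨s0, ⟨hs0, e0⟩, rfl⟩ ⟨by simp only; linarith, f1⟩)
    · by_contra hc
      simp only [not_lt] at hc
      exact miss (m + 1) (hI.out ⟨s0, ⟨hs0, e0⟩, rfl⟩ ⟨s, ⟨hs, e⟩, rfl⟩
        ⟨by push_cast; exact f2.le, by push_cast; linarith⟩)
  · rintro ⟨z, ⟨⟨z0, z1⟩, hz⟩, rfl⟩ hp
    rcases (mem_TT hΘ z).1 hp with ⟨k, h⟩ | ⟨s, hs, e⟩
    · exact int_not (k := 0) h (by push_cast; linarith) (by push_cast; linarith)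
    · obtain ⟨s1, s2⟩ := im_mem hγ hs
      rcases (eq_iff hΘ _ _).1 e.symm with ⟨m, n, h, h'⟩ | ⟨m, n, -, h⟩
      · have : n = 0 := int_eq h' (by push_cast; linarith) (by push_cast; linarith)
        rw [this, Int.cast_zero] at h'
        obtain ⟨a1, a2⟩ := hz s hs (by linarith)
        exact int_not (k := 0) h (by push_cast; linarith) (by push_cast; linarith)
      · exact int_not (k := 0) h (by push_cast; linarith) (by push_cast; linarith)

end Tr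

theorem p_TREE : S_TREE := by
  intro Θ hΘ a c γ hγ
  refine ⟨Tr.TT Θ γ, ⟨Tr.tt_graph hΘ hγ, ?_⟩, ?_, fun z hz => ?_⟩
  · rw [Tr.compl_eq hΘ hγ]
    obtain ⟨z, hz, -⟩ := Tr.u0_level hγ (y := 1 / 4) (by norm_num) (by norm_num)
    exact ⟨⟨_, z, hz, rfl⟩, (Tr.u0_preconn hγ).image _ hΘ.cont.continuousOn⟩
  · rintro _ ⟨z, ⟨m, n, -, h⟩, rfl⟩
    exact (Tr.mem_TT hΘ z).2 (Or.inl ⟨n, by simpa using h⟩)
  · rcases (Tr.mem_TT hΘ z).1 hz with ⟨k, h⟩ | ⟨s, hs, e⟩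
    · refine (Tr.mem_TT hΘ _).2 (Or.inl ⟨a * k, ?_⟩)
      simp only [Bm]
      push_cast
      rw [← h]
      ring
    · have e' : Θ (Bm a c (γ s)) = Θ (Bm a c z) :=
        (hΘ.fib _ _).2 (Bm_rel a c ((hΘ.fib _ _).1 e))
      rw [← e']
      refine (Tr.mem_TT hΘ _).2 ((hγ.inv s hs).imp id ?_)
      rintro ⟨t, ht, h⟩
      exact ⟨t, ht, ((hΘ.fib _ _).2 h).symm⟩

end Pool.Agent.P.MP_cb5d8b_an.Ex
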