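import Pool.Agent.P.MP_cb5d8b_an.Ex.Sharp
import Pool.Agent.P.MP_cb5d8b_an.Ex.Curve
import Pool.Agent.P.MP_cb5d8b_an.Ex.Tree
import Pool.Agent.P.MP_cb5d8b_an.Ex.Sec2
import Pool.Agent.P.MP_cb5d8b_an.Ex.Num
import Pool.Agent.P.MP_cb5d8b_an.Pil
import Pool.Agent.P.MP_cb5d8b_an.Br
import Pool.Agent.P.MP_cb5d8b_an.Post
import Pool.Agent.P.MP_cb5d8b_an.Expd

/-! The set of iterates with an invariant tree can be any final segment. -/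

namespace Pool.Agent.P.MP_cb5d8b_an.Ex

theorem exact_range (N : ℕ) (hN : 1 ≤ N) :
    ∃ f : S2 → S2, IsThurston f ∧ IsExpanding f ∧ HasDegree f 4 ∧ (post f).ncard = 4 ∧
      ∀ n : ℕ, 1 ≤ n → ((∃ T : Set S2, IsTree T ∧ post f ⊆ T ∧ f^[n] '' T ⊆ T) ↔ N ≤ n) :=
  glue p_CURVE p_TREE p_SEC2 p_SHARP p_NUM p_PIL p_BR p_POST p_EXP N hN

end Pool.Agent.P.MP_cb5d8b_an.Ex
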