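import Pool.Agent.P.MP_cb5d8b_an.Ex.CaseA

/-! The sharp plane theorem. -/

namespace Pool.Agent.P.MP_cb5d8b_an.Ex

open Set Plane

variable {D : Set ℂ} {a c : ℤ} {x y z w : ℂ}

/-- the height `z ↦ σ det (2 z, d)` -/
def ht (σ : ℝ) (d : ℂ) : ℂ →+ ℝ where
  toFun z := σ * det (2 * z) d
  map_zero' := by simp [det]
  map_add' z w := by simp [det]; ring

theorem ht_sub (σ : ℝ) (d z w : ℂ) : ht σ d z - ht σ d w = σ * det (2 * (z - w)) d := by
  rw [← map_sub]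
  rfl

theorem ht_Bm (σ : ℝ) (d z w : ℂ) : ht σ d (Bm a c z) - ht σ d (Bm a c w) =
    σ * (a * det (2 * (z - w)) d + c * (2 * (z - w)).im * d.im) := by
  rw [ht_sub, ← Bm_sub, ← Bm_two]
  simp only [det, Bm]
  ring

theorem Ctx.odd_det (H : Ctx D a c) (hx : x ∈ D) (hy : y ∈ D) (hz : z ∈ D) (cx : x ∈ Cone)
    (cy : y ∈ Cone) (cz : z ∈ Cone) (xy : x ≠ y) (xz : x ≠ z) (yz : y ≠ z)
    (h : |det (2 * (y - x)) (2 * (z - x))| ≤ 1) :
    det (2 * (y - x)) (2 * (z - x)) = 1 ∨ det (2 * (y - x)) (2 * (z - x)) = -1 := by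
  have ev : ∀ u ∈ D, ∀ v ∈ D, u ≠ v → ∀ m n : ℤ, (2 * (v - u)).re = m → (2 * (v - u)).im = n →
      ¬ (Even m ∧ Even n) := by
    rintro u hu v hv huv m n h1 h2 ⟨⟨m', rfl⟩, ⟨n', rfl⟩⟩
    simp at h1 h2
    exact huv (H.inj v hv u hu (Or.inl ⟨m', n', by simp; linarith, by simp; linarith⟩)).symm
  obtain ⟨e1, e2, h1, h2⟩ := two_sub cx cy
  obtain ⟨f1, f2, h3, h4⟩ := two_sub cx cz
  have p1 := ev x hx y hy xy e1 e2 h1 h2
  have p2 := ev x hx z hz xz f1 f2 h3 h4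
  have p3 := ev y hy z hz yz (f1 - e1) (f2 - e2)
    (by push_cast; rw [← h1, ← h3]; simp; ring) (by push_cast; rw [← h2, ← h4]; simp; ring)
  have hd : det (2 * (y - x)) (2 * (z - x)) = (e1 * f2 - e2 * f1 : ℤ) := by
    rw [det, h1, h2, h3, h4]
    push_cast
    ring
  have od : Odd (e1 * f2 - e2 * f1) := by
    simp only [Int.even_sub, ← Int.not_even_iff_odd, Int.even_mul] at p3 ⊢
    tauto
  rw [hd] at h ⊢
  have h' : |e1 * f2 - e2 * f1| ≤ 1 := by exact_mod_cast h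
  obtain ⟨k, hk⟩ := od
  have := abs_le.1 h'
  have : e1 * f2 - e2 * f1 = 1 ∨ e1 * f2 - e2 * f1 = -1 := by omega
  exact_mod_cast this

theorem im_int (cx : x ∈ Cone) (cy : y ∈ Cone) : ∃ n : ℤ, (2 * (y - x)).im = n :=
  let ⟨_, n, _, h⟩ := two_sub cx cy
  ⟨n, h⟩

theorem arith {r σ : ℝ} {m n : ℤ} (hσ : σ = 1 ∨ σ = -1) (hm : m ≠ 0) (hn : n ≠ 0)
    {B : ℝ} (h1 : |r * σ + c * m * n| ≤ B) (h2 : |-(r * σ) + c * n * m| ≤ B) :
    r + |(c : ℝ)| ≤ B := by
  have h3 : (1 : ℝ) ≤ |(m : ℝ)| := by exact_mod_cast Int.one_le_abs hm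
  have h4 : (1 : ℝ) ≤ |(n : ℝ)| := by exact_mod_cast Int.one_le_abs hn
  have h5 : |(c : ℝ)| ≤ |(c : ℝ) * m * n| := by
    rw [abs_mul, abs_mul, mul_assoc]
    exact le_mul_of_one_le_right (abs_nonneg _) (one_le_mul_of_one_le_of_one_le h3 h4)
  have h6 := abs_le.1 h1
  have h7 := abs_le.1 h2
  rcases hσ with rfl | rfl <;> rcases abs_choice ((c : ℝ) * m * n) with h | h <;>
    linarith [h6.1, h6.2, h7.1, h7.2]

theorem Ctx.star (H : Ctx D a c) (hx : x ∈ D) (hy : y ∈ D) (hz : z ∈ D) (hw : w ∈ D)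
    (cx : x ∈ Cone) (cy : y ∈ Cone) (cz : z ∈ Cone) (cw : w ∈ Cone)
    (hC : ∀ q ∈ D, q ∈ Cone → q = x ∨ q = y ∨ q = z ∨ q = w) (xy : x ≠ y) (xz : x ≠ z)
    (xw : x ≠ w) (yz : y ≠ z) (yw : y ≠ w) (zw : z ≠ w) (b1 : Btw D y x z) (b2 : Btw D z x w)
    (b3 : Btw D w x y) : |c| < 2 * a * (a - 1) := by
  have a2 : (2 : ℝ) ≤ a := by exact_mod_cast H.ha
  have pair : ∀ y z w, y ∈ D → z ∈ D → w ∈ D → y ∈ Cone → z ∈ Cone → w ∈ Cone →
      (∀ q ∈ D, q ∈ Cone → q = x ∨ q = y ∨ q = z ∨ q = w) → x ≠ y → x ≠ z → x ≠ w → y ≠ z →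
      y ≠ w → z ≠ w → Btw D y x z → Btw D z x w → Btw D w x y →
      (det (2 * (y - x)) (2 * (z - x)) = 1 ∨ det (2 * (y - x)) (2 * (z - x)) = -1) ∧
      ((2 * (y - x)).im ≠ 0 → (2 * (z - x)).im ≠ 0 → |c| < 2 * a * (a - 1)) := by
    intro y z w hy hz hw cy cz cw hC xy xz xw yz yw zw b1 b2 b3
    have u1 := H.unimod hx hy hz cx cy cz hC fun h => xw (H.antisymm b3.symm h.1.symm)
    have u2 := H.unimod (w := y) hx hw hz cx cw cz (fun q hq cq => by have := hC q hq cq; tauto)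
      fun h => xy (H.antisymm b3 h.1.symm)
    have u3 := H.unimod (w := z) hx hw hy cx cw cy (fun q hq cq => by have := hC q hq cq; tauto)
      fun h => xz (H.antisymm b2.symm h.1.symm)
    have u1' : |det (2 * (z - x)) (2 * (y - x))| ≤ 1 := by
      rwa [show det (2 * (z - x)) (2 * (y - x)) = -det (2 * (y - x)) (2 * (z - x)) by
        unfold det; ring, abs_neg]
    have d0 : ∀ u : ℂ, |det u u| ≤ 1 := fun u => by
      rw [show det u u = 0 by unfold det; ring]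
      simp
    have hσ := H.odd_det hx hy hz cx cy cz xy xz yz u1
    refine ⟨hσ, fun n1 n2 => ?_⟩
    have s1 := H.star1 (ht 1 (2 * (z - x))) hx hy hz hw cx cy cz cw hC xy xz xw zw b1 b2 b3
      (by rwa [ht_sub, one_mul]) (by rw [ht_sub, one_mul]; exact d0 _) (by rwa [ht_sub, one_mul])
    have s2 := H.star1 (ht 1 (2 * (y - x))) hx hz hy hw cx cz cy cw
      (fun q hq cq => by have := hC q hq cq; tauto) xz xy xw yw b1.symm b3.symm b2.symm
      (by rwa [ht_sub, one_mul]) (by rw [ht_sub, one_mul]; exact d0 _) (by rwa [ht_sub, one_mul])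
    obtain ⟨m, hm⟩ := im_int cx cy
    obtain ⟨n, hn⟩ := im_int cx cz
    rw [ht_Bm, one_mul, hm, hn] at s1 s2
    rw [show det (2 * (z - x)) (2 * (y - x)) = -det (2 * (y - x)) (2 * (z - x)) by
      unfold det; ring, mul_neg] at s2
    have := arith hσ (m := m) (n := n) (by rintro rfl; exact n1 (by simpa using hm))
      (by rintro rfl; exact n2 (by simpa using hn)) s1 s2
    have : |(c : ℝ)| < 2 * a * (a - 1) := by nlinarith
    exact_mod_cast this
  obtain ⟨d1, k1⟩ := pair y z w hy hz hw cy cz cw hC xy xz xw yz yw zw b1 b2 b3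
  obtain ⟨d2, k2⟩ := pair z w y hz hw hy cz cw cy (fun q hq cq => by have := hC q hq cq; tauto)
    xz xw xy zw yz.symm yw.symm b2 b3 b1
  obtain ⟨d3, k3⟩ := pair w y z hw hy hz cw cy cz (fun q hq cq => by have := hC q hq cq; tauto)
    xw xy xz yw.symm zw.symm yz b3 b1 b2
  have nz : ∀ u v : ℂ, det u v = 1 ∨ det u v = -1 → u.im = 0 → v.im ≠ 0 := fun u v h h1 h2 => by
    rw [det, h1, h2] at h
    norm_num at h
  by_cases n1 : (2 * (y - x)).im = 0
  · exact k2 (nz _ _ d1 n1) fun h => nz _ _ d3 h n1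
  by_cases n2 : (2 * (z - x)).im = 0
  · exact k3 (nz _ _ d2 n2) n1
  exact k1 n1 n2

theorem Ctx.par1 (H : Ctx D a c) {pi pj pk pl : ℂ} {σ : ℝ} (hσ : σ = 1 ∨ σ = -1) (di : pi ∈ D)
    (dj : pj ∈ D) (dk : pk ∈ D) (dl : pl ∈ D) (ci : pi ∈ Cone) (cj : pj ∈ Cone) (ck : pk ∈ Cone)
    (cl : pl ∈ Cone) (hC : ∀ q ∈ D, q ∈ Cone → q = pi ∨ q = pj ∨ q = pk ∨ q = pl)
    (hp : pi + pj = pk + pl) (hd : det (2 * (pi - pk)) (2 * (pl - pk)) = σ) :
    |-(2 * a * σ) + c * (2 * (pj - pi)).im * (2 * (pl - pk)).im| < 2 * a ^ 2 ∧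
      |c * (2 * (pl - pk)).im * (2 * (pl - pk)).im| ≤ 2 * a ^ 2 + 4 := by
  have s1 : σ * σ = 1 := by rcases hσ with rfl | rfl <;> norm_num
  have s2 : |σ| = 1 := by rcases hσ with rfl | rfl <;> norm_num
  obtain rfl : pj = pk + pl - pi := by linear_combination hp
  have e1 : det (2 * (pk + pl - pi - pk)) (2 * (pl - pk)) = -σ := by
    rw [← hd]; simp [det]; ring
  have e2 : det (2 * (pk + pl - pi - pi)) (2 * (pl - pk)) = -(2 * σ) := by
    rw [← hd]; simp [det]; ring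
  have e3 : det (2 * (pl - pk)) (2 * (pl - pk)) = 0 := by unfold det; ring
  have hi : ht σ (2 * (pl - pk)) pi = ht σ (2 * (pl - pk)) pk + 1 := by
    have := ht_sub σ (2 * (pl - pk)) pi pk
    rw [hd, s1] at this
    linarith
  have hj : ht σ (2 * (pl - pk)) (pk + pl - pi) = ht σ (2 * (pl - pk)) pk - 1 := by
    have := ht_sub σ (2 * (pl - pk)) (pk + pl - pi) pk
    rw [e1, mul_neg, s1] at this
    linarith
  have hl : ht σ (2 * (pl - pk)) pl = ht σ (2 * (pl - pk)) pk := by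
    have := ht_sub σ (2 * (pl - pk)) pl pk
    rw [e3, mul_zero] at this
    linarith
  have s0 : σ ≠ 0 := by rcases hσ with rfl | rfl <;> norm_num
  have kl : pk ≠ pl := by
    rintro rfl
    exact s0 (by rw [← hd]; simp [det])
  have k1 := H.diag _ hi hj hl di dj dk dl ci cj ck cl kl hC
    (H.meet' di dj dk dl ci cj ck cl (by rw [e2]; simpa using s0))
  have k2 := H.weak _ hi hj hl di dj dk dl ci cj ck cl hC
  rw [ht_Bm, abs_mul, s2, one_mul] at k1 k2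
  rw [e2] at k1
  rw [e3, mul_zero, zero_add] at k2
  exact ⟨by rwa [show (a : ℝ) * -(2 * σ) = -(2 * a * σ) by ring] at k1, k2⟩

theorem Ctx.par (H : Ctx D a c) {pi pj pk pl : ℂ} (di : pi ∈ D) (dj : pj ∈ D) (dk : pk ∈ D)
    (dl : pl ∈ D) (ci : pi ∈ Cone) (cj : pj ∈ Cone) (ck : pk ∈ Cone) (cl : pl ∈ Cone)
    (hC : ∀ q ∈ D, q ∈ Cone → q = pi ∨ q = pj ∨ q = pk ∨ q = pl) (hp : pi + pj = pk + pl)
    (hσ : det (2 * (pi - pk)) (2 * (pl - pk)) = 1 ∨ det (2 * (pi - pk)) (2 * (pl - pk)) = -1) :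
    |c| < 2 * a * (a - 1) := by
  have a2 : (2 : ℝ) ≤ a := by exact_mod_cast H.ha
  obtain ⟨k1, k2⟩ := H.par1 hσ di dj dk dl ci cj ck cl hC hp rfl
  set σ := det (2 * (pi - pk)) (2 * (pl - pk)) with hd
  have hj : pj = pk + pl - pi := by linear_combination hp
  obtain ⟨k3, k4⟩ := H.par1 (σ := -σ) (by rcases hσ with h | h <;> simp [h]) dk dl di dj ck cl ci cj
    (fun q hq cq => by have := hC q hq cq; tauto) hp.symm (by rw [hd, hj]; simp [det]; ring)
  obtain ⟨m, hm⟩ := im_int ci cj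
  obtain ⟨n, hn⟩ := im_int ck cl
  obtain ⟨s, hs⟩ := im_int ck ci
  have hmn : m = n - 2 * s := by
    have : (m : ℝ) = n - 2 * s := by
      rw [← hm, ← hn, ← hs, hj]
      simp
      ring
    exact_mod_cast this
  have hsn : ¬ (s = 0 ∧ n = 0) := by
    rintro ⟨rfl, rfl⟩
    rw [det, hs, hn] at hd
    rw [hd] at hσ
    norm_num at hσ
  rw [hm, hn] at k1 k3
  rw [hn] at k2
  rw [hm] at k4
  suffices |(c : ℝ)| < 2 * a * (a - 1) by exact_mod_cast this
  have four : ∀ k : ℤ, k ≠ 0 → |(c : ℝ) * (2 * k : ℤ) * (2 * k : ℤ)| ≤ 2 * a ^ 2 + 4 →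
      |(c : ℝ)| < 2 * a * (a - 1) := fun k hk h => by
    have h3 : (1 : ℝ) ≤ |(k : ℝ)| := by exact_mod_cast Int.one_le_abs hk
    push_cast at h
    rw [abs_mul, abs_mul, abs_mul, abs_two] at h
    have h4 : 1 ≤ |(k : ℝ)| * |(k : ℝ)| := one_le_mul_of_one_le_of_one_le h3 h3
    nlinarith [abs_nonneg (c : ℝ)]
  by_cases m0 : m = 0
  · exact four s (by omega) (by rwa [show n = 2 * s by omega] at k2)
  by_cases n0 : n = 0
  · exact four (-s) (by omega) (by rwa [show m = 2 * -s by omega] at k4)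
  have := arith (c := c) (r := 2 * a) (B := max |-(2 * a * -σ) + c * n * m| |-(2 * a * σ) + c * m * n|)
    hσ n0 m0 (by simp) (le_max_right _ _)
  linarith [max_lt k3 k1]

theorem p_SHARP : S_SHARP := by
  intro D a c h1 h2 h3 h4 h5 h6 h7 h8 h9
  have H : Ctx D a c := ⟨h1, h2, h3, h4, h5, h6, h7, h8, h9⟩
  have cn : ∀ i j : ℤ, (⟨i / 2, j / 2⟩ : ℂ) ∈ Cone := fun i j =>
    ⟨i, j, by simp; ring, by simp; ring⟩
  obtain ⟨x, hx, cx, lx⟩ := H.type (cn 0 0)
  obtain ⟨y, hy, cy, ly⟩ := H.type (cn 1 0)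
  obtain ⟨z, hz, cz, lz⟩ := H.type (cn 0 1)
  obtain ⟨w, hw, cw, lw⟩ := H.type (cn 1 1)
  have ne : ∀ (i j i' j' : ℤ) (u v : ℂ), (⟨i / 2, j / 2⟩ : ℂ) - u ∈ Lat →
      (⟨i' / 2, j' / 2⟩ : ℂ) - v ∈ Lat → ¬ (Even (i - i') ∧ Even (j - j')) → u ≠ v := by
    rintro i j i' j' u v g1 g2 hn rfl
    obtain ⟨m, n, g3, g4⟩ := Lat.sub g1 g2
    simp at g3 g4
    refine hn ⟨⟨m, ?_⟩, ⟨n, ?_⟩⟩
    · have : (i : ℝ) - i' = m + m := by linarith
      exact_mod_cast this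
    · have : (j : ℝ) - j' = n + n := by linarith
      exact_mod_cast this
  have xy := ne _ _ _ _ _ _ lx ly (by decide)
  have xz := ne _ _ _ _ _ _ lx lz (by decide)
  have xw := ne _ _ _ _ _ _ lx lw (by decide)
  have yz := ne _ _ _ _ _ _ ly lz (by decide)
  have yw := ne _ _ _ _ _ _ ly lw (by decide)
  have zw := ne _ _ _ _ _ _ lz lw (by decide)
  have hC : ∀ q ∈ D, q ∈ Cone → q = x ∨ q = y ∨ q = z ∨ q = w := by
    rintro q hq ⟨m, n, g1, g2⟩
    simp at g1 g2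
    have key : ∀ i j k l : ℤ, m = 2 * k + i → n = 2 * l + j → (⟨i / 2, j / 2⟩ : ℂ) - q ∈ Lat := by
      rintro i j k l rfl rfl
      push_cast at g1 g2
      exact ⟨-k, -l, by simp; linarith, by simp; linarith⟩
    obtain ⟨k, hk | hk⟩ := Int.even_or_odd' m <;> obtain ⟨l, hl | hl⟩ := Int.even_or_odd' n
    · exact Or.inl (H.type_unique hq hx (key 0 0 k l (by omega) (by omega)) lx)
    · exact Or.inr (Or.inr (Or.inl (H.type_unique hq hz (key 0 1 k l (by omega) hl) lz)))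
    · exact Or.inr (Or.inl (H.type_unique hq hy (key 1 0 k l hk (by omega)) ly))
    · exact Or.inr (Or.inr (Or.inr (H.type_unique hq hw (key 1 1 k l hk hl) lw)))
  clear lx ly lz lw ne cn
  -- either a star or a unimodular triangle
  have alt : ∀ x y z w, x ∈ D → y ∈ D → z ∈ D → w ∈ D → x ∈ Cone → y ∈ Cone → z ∈ Cone →
      w ∈ Cone → (∀ q ∈ D, q ∈ Cone → q = x ∨ q = y ∨ q = z ∨ q = w) → x ≠ y → x ≠ z → x ≠ w →
      y ≠ z → y ≠ w → z ≠ w → |c| < 2 * a * (a - 1) ∨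
        det (2 * (y - x)) (2 * (z - x)) = 1 ∨ det (2 * (y - x)) (2 * (z - x)) = -1 := by
    intro x y z w hx hy hz hw cx cy cz cw hC xy xz xw yz yw zw
    by_cases b : Btw D x w y ∧ Btw D x w z
    · by_cases b' : Btw D y w z
      · exact Or.inl (H.star hw hx hy hz cw cx cy cz (fun q hq cq => by have := hC q hq cq; tauto)
          xw.symm yw.symm zw.symm xy xz yz b.1 b' b.2.symm)
      · have := H.unimod (w := w) hy hx hz cy cx cz (fun q hq cq => by have := hC q hq cq; tauto)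
          fun h => b' h.2
        refine Or.inr (H.odd_det hx hy hz cx cy cz xy xz yz ?_)
        rwa [show det (2 * (y - x)) (2 * (z - x)) = -det (2 * (x - y)) (2 * (z - y)) by
          simp [det]; ring, abs_neg]
    · exact Or.inr (H.odd_det hx hy hz cx cy cz xy xz yz (H.unimod hx hy hz cx cy cz hC b))
  rcases alt x y z w hx hy hz hw cx cy cz cw hC xy xz xw yz yw zw with h | d1
  · exact h
  rcases alt x w z y hx hw hz hy cx cw cz cy (fun q hq cq => by have := hC q hq cq; tauto)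
    xw xz xy zw.symm yw.symm yz.symm with h | d2
  · exact h
  rcases alt x y w z hx hy hw hz cx cy cw cz (fun q hq cq => by have := hC q hq cq; tauto)
    xy xw xz yw yz zw.symm with h | d3
  · exact h
  rcases alt y z w x hy hz hw hx cy cz cw cx (fun q hq cq => by have := hC q hq cq; tauto)
    yz yw xy.symm zw xz.symm xw.symm with h | d4
  · exact h
  set δ := det (2 * (y - x)) (2 * (z - x)) with hδ
  set α := det (2 * (w - x)) (2 * (z - x)) with hα
  set β := det (2 * (y - x)) (2 * (w - x)) with hβ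
  have e4 : det (2 * (z - y)) (2 * (w - y)) = δ - α - β := by
    rw [hδ, hα, hβ]
    simp [det]
    ring
  have cr : (δ : ℂ) * (w - x) = α * (y - x) + β * (z - x) := by
    apply Complex.ext <;> simp [hδ, hα, hβ, det] <;> ring
  rw [e4] at d4
  have δ0 : (δ : ℂ) ≠ 0 := by rcases d1 with h | h <;> simp [h]
  have cases : α = δ ∧ β = δ ∨ α = δ ∧ β = -δ ∨ α = -δ ∧ β = δ := by
    rcases d1 with g1 | g1 <;> rcases d2 with g2 | g2 <;> rcases d3 with g3 | g3 <;>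
      rw [g1, g2, g3] at d4 ⊢ <;> revert d4 <;> norm_num
  rcases cases with ⟨g1, g2⟩ | ⟨g1, g2⟩ | ⟨g1, g2⟩ <;> rw [g1, g2] at cr <;> push_cast at cr
  · exact H.par hy hz hx hw cy cz cx cw (fun q hq cq => by have := hC q hq cq; tauto)
      (mul_left_cancel₀ δ0 (by linear_combination -cr)) d3
  · refine H.par hw hz hx hy cw cz cx cy (fun q hq cq => by have := hC q hq cq; tauto)
      (mul_left_cancel₀ δ0 (by linear_combination cr)) ?_
    rw [show det (2 * (w - x)) (2 * (y - x)) = -β by rw [hβ]; unfold det; ring]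
    rcases d3 with h | h <;> simp [h]
  · exact H.par hw hy hx hz cw cy cx cz (fun q hq cq => by have := hC q hq cq; tauto)
      (mul_left_cancel₀ δ0 (by linear_combination cr)) d2

end Pool.Agent.P.MP_cb5d8b_an.Ex
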