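import Pool.Agent.P.MP_cb5d8b_an.Ex.Btw

/-! The image of an arc is a chain of translates of elementary arcs. -/

namespace Pool.Agent.P.MP_cb5d8b_an.Ex

open Set Plane

variable {D A : Set ℂ} {a c : ℤ} {x y z v w : ℂ}

theorem Bm_inj (ha : 2 ≤ a) (c : ℤ) : Function.Injective (Bm a c) := by
  intro z w h
  have a0 : (a : ℝ) ≠ 0 := by
    have : (2 : ℝ) ≤ a := by exact_mod_cast ha
    linarith
  have h1 := congrArg Complex.re h
  have h2 := congrArg Complex.im h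
  simp only [Bm] at h1 h2
  have e2 : z.im = w.im := mul_left_cancel₀ a0 h2
  exact Complex.ext (mul_left_cancel₀ a0 (by rw [e2] at h1; linarith)) e2

theorem Bm_surj (ha : 2 ≤ a) (c : ℤ) : Function.Surjective (Bm a c) := by
  intro w
  have a0 : (a : ℝ) ≠ 0 := by
    have : (2 : ℝ) ≤ a := by exact_mod_cast ha
    linarith
  refine ⟨⟨(w.re - c * (w.im / a)) / a, w.im / a⟩, Complex.ext ?_ ?_⟩
  · simp only [Bm]
    field_simp
    ring
  · simp only [Bm]
    field_simp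

theorem sign_sq {e : ℤ} (he : e = 1 ∨ e = -1) : (e : ℂ) * e = 1 := by
  rcases he with rfl | rfl <;> simp

theorem cone_of {e : ℤ} {m : ℂ} (hm : m ∈ Lat) (hz : z ∈ Cone) : e * (z - m) ∈ Cone := by
  show 2 * (e * (z - m)) ∈ Lat
  rw [show 2 * (e * (z - m)) = e * (2 * z - (m + m)) by ring]
  exact lat_int_mul (Lat.sub hz (Lat.add hm hm)) e

theorem sub_lat {e : ℤ} (he : e = 1 ∨ e = -1) {m u : ℂ} (hm : m ∈ Lat) (hu : u ∈ Cone) :
    e * u + m - u ∈ Lat := by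
  rcases he with rfl | rfl
  · simpa using hm
  · rw [show ((-1 : ℤ) : ℂ) * u + m - u = m - 2 * u by push_cast; ring]
    exact Lat.sub hm hu

namespace Ctx

theorem single (H : Ctx D a c) {Z : Set ℂ} (hZ : Z ⊆ D) (hp : IsPreconnected Z)
    (hne : Z.Nonempty) (hc : ∀ z ∈ Z, Bm a c z ∉ Cone) :
    ∃ (e : ℤ) (m : ℂ), (e = 1 ∨ e = -1) ∧ m ∈ Lat ∧
      Z ⊆ Bm a c ⁻¹' ((fun y => e * y + m) '' D) := by
  obtain ⟨R, hR⟩ := H.cpt.exists_bound_of_continuousOn continuousOn_id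
  obtain ⟨R', hR'⟩ := H.cpt.exists_bound_of_continuousOn (Bm_cont a c).continuousOn
  set X : ℤ × ℂ → Set ℂ := fun g => Bm a c ⁻¹' ((fun y => g.1 * y + g.2) '' D) with hX
  have Xc : ∀ g, IsClosed (X g) := fun g =>
    (H.cpt.image (by fun_prop)).isClosed.preimage (Bm_cont a c)
  have hall : ∀ z ∈ D, ∃ g ∈ ({1, -1} : Set ℤ) ×ˢ {l ∈ Lat | ‖l‖ ≤ R' + R}, z ∈ X g := by
    intro z hz
    obtain ⟨w, hw, hr | hr⟩ := H.inv z hz
    · exact ⟨(1, Bm a c z - w), ⟨by simp, hr,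
        (norm_sub_le _ _).trans (add_le_add (hR' z hz) (hR w hw))⟩, w, hw, by simp⟩
    · exact ⟨(-1, Bm a c z + w), ⟨by simp, hr,
        (norm_add_le _ _).trans (add_le_add (hR' z hz) (hR w hw))⟩, w, hw, by simp⟩
  obtain ⟨x, hx⟩ := hne
  obtain ⟨⟨e, l⟩, ⟨he, hl, -⟩, hxe⟩ := hall x (hZ hx)
  have he : e = 1 ∨ e = -1 := by simpa using he
  refine ⟨e, l, he, hl, fun p hp' => ?_⟩
  by_contra hpe
  set S : Set (ℤ × ℂ) := (({1, -1} : Set ℤ) ×ˢ {l ∈ Lat | ‖l‖ ≤ R' + R}) \ {(e, l)} with hS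
  have Sf : S.Finite := ((toFinite _).prod (lat_finite _)).sdiff
  have hcov : Z ⊆ X (e, l) ∪ ⋃ g ∈ S, X g := by
    intro z hz
    obtain ⟨g, hg, hz⟩ := hall z (hZ hz)
    by_cases hge : g = (e, l)
    · exact Or.inl (hge ▸ hz)
    · exact Or.inr (mem_biUnion (show g ∈ S from ⟨hg, hge⟩) hz)
  obtain ⟨z, hz, ⟨w, hw, h1⟩, h2⟩ := isPreconnected_closed_iff.1 hp _ _ (Xc (e, l))
    (Sf.isClosed_biUnion fun g _ => Xc g) hcov ⟨x, hx, hxe⟩ ⟨p, hp', (hcov hp').resolve_left hpe⟩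
  obtain ⟨⟨e', l'⟩, ⟨⟨he', hl', -⟩, hne'⟩, w', hw', h3⟩ := mem_iUnion₂.1 h2
  clear h2
  simp only at h1 h3 hl' hl
  have he'' : e' = 1 ∨ e' = -1 := by simpa using he'
  have hww : w = w' := H.inj w hw w' hw' (rel_of_eq he he'' hl hl' (h1.trans h3.symm))
  subst hww
  refine hc z hz ?_
  by_cases hee : e' = e
  · subst hee
    have : l' = l := add_left_cancel (h3.trans h1.symm)
    exact absurd (by simp [this]) hne'
  · have : e' = -e := by omega
    subst this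
    show 2 * Bm a c z ∈ Lat
    rw [show 2 * Bm a c z = l + l' by push_cast at h3; linear_combination -h1 - h3]
    exact Lat.add hl hl'

/-- an arc without inner preimages of cone points is mapped into one translate of `D` -/
theorem step (H : Ctx D a c) (hA : A ⊆ D) (h : ArcSet A x y) (hxy : x ≠ y)
    (hq : ∀ z ∈ A, Bm a c z ∈ Cone → z = x ∨ z = y) :
    ∃ (e : ℤ) (m : ℂ), (e = 1 ∨ e = -1) ∧ m ∈ Lat ∧ (fun z => e * (Bm a c z - m)) '' A ⊆ D ∧
      InjOn (fun z => e * (Bm a c z - m)) A := by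
  have hcl := h.subset_closure_inner hxy
  obtain ⟨e, m, he, hm, hs⟩ := H.single (Z := A \ {x, y}) (sdiff_subset.trans hA) h.inner
    (closure_nonempty_iff.1 ⟨x, hcl h.left⟩) fun z hz hc => hz.2 (hq z hz.1 hc)
  have hs' : A ⊆ Bm a c ⁻¹' ((fun y => e * y + m) '' D) :=
    hcl.trans (closure_minimal hs ((H.cpt.image (by fun_prop)).isClosed.preimage (Bm_cont a c)))
  have e0 : (e : ℂ) ≠ 0 := by rcases he with rfl | rfl <;> simp
  refine ⟨e, m, he, hm, ?_, fun z _ w _ hzw => Bm_inj H.ha c ?_⟩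
  · rintro _ ⟨z, hz, rfl⟩
    obtain ⟨w, hw, h1⟩ := hs' hz
    simp only at h1 ⊢
    rwa [← h1, add_sub_cancel_right, ← mul_assoc, sign_sq he, one_mul]
  · exact sub_left_injective (mul_left_cancel₀ e0 hzw)

theorem finite (H : Ctx D a c) : {z ∈ D | Bm a c z ∈ Cone}.Finite := by
  have a1 : 1 ≤ a := by linarith [H.ha]
  have : ∀ z : {z ∈ D | Bm a c z ∈ Cone}, ∃ p : Finset.Ico 0 (2 * a) × Finset.Ico 0 (2 * a),
      Cl a c z p.1 p.2 := fun z =>
    let ⟨r, hr, s, hs, h⟩ := cl_exists a1 z.2.2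
    ⟨(⟨r, hr⟩, ⟨s, hs⟩), h⟩
  choose p hp using this
  exact Finite.of_injective p fun z w h =>
    Subtype.ext (H.inj _ z.2.1 _ w.2.1 (Or.inl (cl_unique a1 (hp z) (h ▸ hp w))))

/-- the first preimage of a cone point after the starting point -/
theorem first (H : Ctx D a c) (hA : A ⊆ D) (h : ArcSet A x y) (hxy : x ≠ y)
    (hy : Bm a c y ∈ Cone) :
    ∃ A₁ z, A₁ ⊆ A ∧ ArcSet A₁ x z ∧ x ≠ z ∧ Bm a c z ∈ Cone ∧
      ∀ w ∈ A₁, Bm a c w ∈ Cone → w = x ∨ w = z := by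
  obtain ⟨A₁, z, hz, s, h1, i⟩ := h.first (K := {z ∈ D | Bm a c z ∈ Cone} \ {x})
    H.finite.sdiff.isClosed ⟨⟨hA h.right, hy⟩, hxy.symm⟩
  refine ⟨A₁, z, s, h1, fun e => hz.2 e.symm, hz.1.2, fun w hw hc => ?_⟩
  by_cases hwx : w = x
  · exact Or.inl hwx
  · exact Or.inr (i ⟨hw, ⟨hA (s hw), hc⟩, hwx⟩)

theorem type (H : Ctx D a c) (hz : z ∈ Cone) : ∃ u ∈ D, u ∈ Cone ∧ z - u ∈ Lat := by
  obtain ⟨u, hu, hr⟩ := H.cone z hz
  refine ⟨u, hu, hr.cone hz, ?_⟩
  rcases hr with hr | hr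
  · simpa using Lat.neg hr
  · rw [show z - u = 2 * z - (u + z) by ring]
    exact Lat.sub hz hr

theorem type_unique (H : Ctx D a c) {u u' : ℂ} (hu : u ∈ D) (hu' : u' ∈ D) (h : z - u ∈ Lat)
    (h' : z - u' ∈ Lat) : u = u' :=
  H.inj u hu u' hu' (Or.inl (by
    rw [show u - u' = (z - u') - (z - u) by ring]
    exact Lat.sub h' h))

end Ctx

/-- The preimages `t i` of cone points along the arc `A`, their types `τ i` and the signs of the
steps. -/
structure Walk (D : Set ℂ) (a c : ℤ) (A : Set ℂ) (x y : ℂ) (K : ℕ) (t τ : ℕ → ℂ) (e : ℕ → ℤ) :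
    Prop where
  t0 : t 0 = x
  tK : t K = y
  inj : InjOn t (Iic K)
  mem : ∀ i ≤ K, t i ∈ A
  ty : ∀ i ≤ K, τ i ∈ D ∧ τ i ∈ Cone ∧ Bm a c (t i) - τ i ∈ Lat
  sgn : ∀ i < K, e i = 1 ∨ e i = -1
  adj : ∀ i < K, Adj D (τ i) (τ (i + 1))
  stp : ∀ i < K, Bm a c (t (i + 1)) = Bm a c (t i) + e i * (τ (i + 1) - τ i)
  cov : ∀ i < K, ∀ w, Btw D (τ i) w (τ (i + 1)) →
    ∃ z ∈ A, Bm a c z = Bm a c (t i) + e i * (w - τ i)

theorem Ctx.walk (H : Ctx D a c) (n : ℕ) : ∀ (A : Set ℂ) (x y : ℂ), A ⊆ D → ArcSet A x y →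
    Bm a c x ∈ Cone → Bm a c y ∈ Cone → {z ∈ A | Bm a c z ∈ Cone}.ncard ≤ n →
    ∃ K t τ e, Walk D a c A x y K t τ e := by
  induction n with
  | zero =>
    intro A x y hA h hx _ hn
    have hf : {z ∈ A | Bm a c z ∈ Cone}.Finite := H.finite.subset fun z hz => ⟨hA hz.1, hz.2⟩
    have := (ncard_pos hf).2 ⟨x, h.left, hx⟩
    omega
  | succ n ih =>
    intro A x y hA h hx hy hn
    have hf : {z ∈ A | Bm a c z ∈ Cone}.Finite := H.finite.subset fun z hz => ⟨hA hz.1, hz.2⟩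
    by_cases hxy : x = y
    · subst hxy
      obtain ⟨u, h1, h2, h3⟩ := H.type hx
      exact ⟨0, fun _ => x, fun _ => u, fun _ => 1, rfl, rfl,
        fun i hi j hj _ => (Nat.le_zero.1 hi).trans (Nat.le_zero.1 hj).symm, fun _ _ => h.left,
        fun _ _ => ⟨h1, h2, h3⟩, fun _ hi => by omega, fun _ hi => by omega, fun _ hi => by omega,
        fun _ hi => by omega⟩
    obtain ⟨A₁, z, s1, a1, hxz, hz, hq⟩ := H.first hA h hxy hy
    obtain ⟨B₁, A₂, b1, a2, hu, hi⟩ := h.split (s1 a1.right)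
    have s2 : A₂ ⊆ A := hu ▸ subset_union_right
    have hx2 : x ∉ A₂ := fun hx2 => hxz (hi ⟨b1.left, hx2⟩)
    obtain ⟨K, t, τ, e, W⟩ := ih A₂ z y (s2.trans hA) a2 hz hy (by
      have := ncard_lt_ncard (s := {z ∈ A₂ | Bm a c z ∈ Cone}) (t := {z ∈ A | Bm a c z ∈ Cone})
        ⟨fun w hw => ⟨s2 hw.1, hw.2⟩, fun hs => hx2 (hs ⟨h.left, hx⟩).1⟩ hf
      omega)
    obtain ⟨ε, m, hε, hm, hD, hinj⟩ := H.step (s1.trans hA) a1 hxz hq
    set φ : ℂ → ℂ := fun z => ε * (Bm a c z - m) with hφ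
    have φc : Continuous φ := by
      have := Bm_cont a c
      fun_prop
    have φe : ∀ w, Bm a c w = ε * φ w + m := fun w => by
      rw [hφ]
      simp only
      rw [← mul_assoc, sign_sq hε]
      ring
    have arc := a1.image φc hinj
    have hu1 : φ x ∈ Cone := cone_of hm hx
    have hv1 : φ z ∈ Cone := cone_of hm hz
    have hv : τ 0 = φ z := H.type_unique (W.ty 0 (Nat.zero_le _)).1 (hD arc.right)
      (W.ty 0 (Nat.zero_le _)).2.2 (by rw [W.t0, φe z]; exact sub_lat hε hm hv1)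
    refine ⟨K + 1, fun i => Nat.casesOn i x t, fun i => Nat.casesOn i (φ x) τ,
      fun i => Nat.casesOn i ε e, rfl, W.tK, ?_, ?_, ?_, ?_, ?_, ?_, ?_⟩
    · rintro (_ | i) hi (_ | j) hj hij
      · rfl
      · exact absurd (W.mem j (Nat.le_of_succ_le_succ hj)) (fun h => hx2 (by
          have : x = t j := hij
          rwa [this]))
      · exact absurd (W.mem i (Nat.le_of_succ_le_succ hi)) (fun h => hx2 (by
          have : t i = x := hij
          rwa [← this]))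
      · exact congrArg Nat.succ (W.inj (Nat.le_of_succ_le_succ hi) (Nat.le_of_succ_le_succ hj) hij)
    · rintro (_ | i) hi
      · exact h.left
      · exact s2 (W.mem i (Nat.le_of_succ_le_succ hi))
    · rintro (_ | i) hi
      · refine ⟨hD arc.left, hu1, ?_⟩
        show Bm a c x - φ x ∈ Lat
        rw [φe x]
        exact sub_lat hε hm hu1
      · exact W.ty i (Nat.le_of_succ_le_succ hi)
    · rintro (_ | i) hi
      · exact hε
      · exact W.sgn i (Nat.lt_of_succ_lt_succ hi)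
    · rintro (_ | i) hi
      · show Adj D (φ x) (τ 0)
        rw [hv]
        refine ⟨fun e => hxz (hinj a1.left a1.right e), fun w hw hb => ?_⟩
        obtain ⟨w', hw', rfl⟩ := H.mem hb hD arc
        have : Bm a c w' ∈ Cone := by
          rw [φe w']
          show 2 * (ε * φ w' + m) ∈ Lat
          rw [show 2 * (ε * φ w' + m) = ε * (2 * φ w') + (m + m) by ring]
          exact Lat.add (lat_int_mul hw ε) (Lat.add hm hm)
        exact (hq w' hw' this).imp (congrArg φ) (congrArg φ)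
      · exact W.adj i (Nat.lt_of_succ_lt_succ hi)
    · rintro (_ | i) hi
      · show Bm a c (t 0) = Bm a c x + ε * (τ 0 - φ x)
        rw [hv, W.t0, φe z, φe x]
        ring
      · exact W.stp i (Nat.lt_of_succ_lt_succ hi)
    · rintro (_ | i) hi w hw
      · have hw' : Btw D (φ x) w (τ 0) := hw
        rw [hv] at hw'
        obtain ⟨w', hw2, rfl⟩ := H.mem hw' hD arc
        refine ⟨w', s1 hw2, ?_⟩
        show Bm a c w' = Bm a c x + ε * (φ w' - φ x)
        rw [φe w', φe x]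
        ring
      · obtain ⟨z', hz', h1⟩ := W.cov i (Nat.lt_of_succ_lt_succ hi) w hw
        exact ⟨z', s2 hz', h1⟩

end Pool.Agent.P.MP_cb5d8b_an.Ex
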